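import Pool.Agent.W68.Qn.D
set_option autoImplicit false

namespace Pool.Agent.W667.Qn

open Pool.Agent.W68.Qn.D

theorem sum_succ (f : ℤ → ℤ) (N : ℕ) :
    ∑ i ∈ Finset.Icc (-((N + 1 : ℕ) : ℤ)) ((N + 1 : ℕ) : ℤ), f |i| =
      (∑ i ∈ Finset.Icc (-(N : ℤ)) N, f |i|) + 2 * f ((N : ℤ) + 1) := by
  have e : Finset.Icc (-((N + 1 : ℕ) : ℤ)) ((N + 1 : ℕ) : ℤ) =
      insert (-((N : ℤ) + 1)) (insert ((N : ℤ) + 1) (Finset.Icc (-(N : ℤ)) N)) := by
    ext x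
    simp only [Finset.mem_Icc, Finset.mem_insert]
    push_cast
    omega
  rw [e, Finset.sum_insert, Finset.sum_insert]
  · rw [abs_neg, abs_of_nonneg (by positivity : (0 : ℤ) ≤ (N : ℤ) + 1)]
    ring
  · simp only [Finset.mem_Icc]
    omega
  · simp only [Finset.mem_Icc, Finset.mem_insert]
    omega

theorem sumF1 (w c : ℤ) (N : ℕ) (h : (N : ℤ) ≤ c) :
    3 * ∑ i ∈ Finset.Icc (-(N : ℤ)) N, F2 w c |i| = -2 * N * (N + 1) * (2 * N + 1) := by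
  induction N with
  | zero =>
    have h0 : (0 : ℤ) ≤ c := by exact_mod_cast h
    simp [F2, h0]
  | succ N ih =>
    push_cast at h
    rw [sum_succ (F2 w c) N, mul_add, ih (by omega)]
    have e : F2 w c ((N : ℤ) + 1) = -2 * ((N : ℤ) + 1) ^ 2 := by
      unfold F2
      rw [if_pos h]
    rw [e]
    push_cast
    ring

theorem sumF2 (w : ℤ) (c N : ℕ) (h : c ≤ N) :
    3 * ∑ i ∈ Finset.Icc (-(N : ℤ)) N, F2 w c |i| = -2 * c * (c + 1) * (2 * c + 1) +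
      12 * w * c * (N - c) - 6 * (w + c) * (N * (N + 1) - c * (c + 1)) := by
  induction N, h using Nat.le_induction with
  | base =>
    rw [sumF1 w c c le_rfl]
    ring
  | succ N hN ih =>
    rw [sum_succ (F2 w c) N, mul_add, ih]
    have e : F2 w c ((N : ℤ) + 1) = 2 * w * c - 2 * (w + c) * ((N : ℤ) + 1) := by
      unfold F2
      rw [if_neg (by omega)]
    rw [e]
    push_cast
    ring

theorem cs_add_two (g : ℤ → ℤ) (n : ℕ) : cs g (n + 2) = cs g n + 2 * g ((n : ℤ) + 1) := by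
  unfold cs
  rw [Finset.sum_range_succ, Finset.sum_range_succ']
  have e1 : |2 * ((n + 1 : ℕ) : ℤ) - (((n + 2 : ℕ) : ℤ) - 1)| = (n : ℤ) + 1 := by
    push_cast
    rw [show (2 * ((n : ℤ) + 1) - ((n : ℤ) + 2 - 1)) = (n : ℤ) + 1 by ring]
    exact abs_of_nonneg (by positivity)
  have e2 : |2 * ((0 : ℕ) : ℤ) - (((n + 2 : ℕ) : ℤ) - 1)| = (n : ℤ) + 1 := by
    push_cast
    rw [show (0 - ((n : ℤ) + 2 - 1)) = -((n : ℤ) + 1) by ring, abs_neg]
    exact abs_of_nonneg (by positivity)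
  rw [e1, e2]
  have e3 : ∀ k ∈ Finset.range n, g |2 * ((k + 1 : ℕ) : ℤ) - (((n + 2 : ℕ) : ℤ) - 1)| =
      g |2 * (k : ℤ) - ((n : ℤ) - 1)| := by
    intro k _
    congr 2
    push_cast
    ring
  rw [Finset.sum_congr rfl e3]
  ring

theorem cs_sq (n : ℕ) : 3 * cs (fun t => t ^ 2) n = (n : ℤ) ^ 3 - n ∧
    3 * cs (fun t => t ^ 2) (n + 1) = ((n : ℤ) + 1) ^ 3 - (n + 1) := by
  induction n with
  | zero => simp [cs]
  | succ n ih =>
    refine ⟨by have := ih.2; push_cast; exact this, ?_⟩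
    have h := cs_add_two (fun t => t ^ 2) n
    rw [show n + 1 + 1 = n + 2 by ring, h, mul_add, ih.1]
    push_cast
    ring

theorem cs_const (g : ℤ → ℤ) (n : ℕ) (v : ℤ) (h : ∀ t : ℤ, t ≤ (n : ℤ) - 1 → g t = v) :
    cs g n = n * v := by
  unfold cs
  rw [Finset.sum_congr rfl (fun k hk => h _ ?_), Finset.sum_const, Finset.card_range,
    nsmul_eq_mul]
  have := Finset.mem_range.1 hk
  rw [abs_le]
  omega

theorem csG1 (w c t₁ : ℕ) (j : ℕ) (hj : j ≤ w) :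
    3 * cs (G2 w c ((t₁ : ℤ) + w)) (t₁ + 1 + 2 * j) =
      3 * (t₁ + 1) * ((w + c) * (t₁ + w) - 2 * w * c) +
        6 * (-(w * c * j) + (w + c) * (t₁ * j + j * (j + 1))) + 4 * j * (j + 1) * (2 * j + 1) -
        12 * w * j * (j + 1) + 6 * w ^ 2 * j := by
  induction j with
  | zero =>
    rw [show t₁ + 1 + 2 * 0 = t₁ + 1 by ring,
      cs_const _ _ ((w + c) * (t₁ + w) - 2 * w * c) ?_]
    · push_cast
      ring
    · intro t ht
      unfold G2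
      rw [if_pos]
      push_cast at ht
      linarith
  | succ j ih =>
    rw [show t₁ + 1 + 2 * (j + 1) = (t₁ + 1 + 2 * j) + 2 by ring, cs_add_two, mul_add,
      ih (by omega)]
    have e : G2 w c ((t₁ : ℤ) + w) (((t₁ + 1 + 2 * j : ℕ) : ℤ) + 1) =
        -((w : ℤ) * c) + (w + c) * ((t₁ : ℤ) + 2 * (j + 1)) + (2 * ((j : ℤ) + 1) - w) ^ 2 := by
      unfold G2
      push_cast
      rw [if_neg (by omega), if_pos (by omega)]
      ring
    rw [e]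
    push_cast
    ring

theorem csG2 (w c t₁ : ℕ) (m : ℕ) :
    3 * cs (G2 w c ((t₁ : ℤ) + w)) (t₁ + 1 + 2 * w + 2 * m) =
      3 * (t₁ + 1) * ((w + c) * (t₁ + w) - 2 * w * c) +
        6 * (-(w * c * w) + (w + c) * (t₁ * w + w * (w + 1))) + 4 * w * (w + 1) * (2 * w + 1) -
        12 * w * w * (w + 1) + 6 * w ^ 2 * w +
        6 * (2 * (w + c) * ((t₁ + 2 * w) * m + m * (m + 1)) -
          ((w + c) * (t₁ + w) + 2 * w * c) * m) := by
  induction m with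
  | zero =>
    rw [show t₁ + 1 + 2 * w + 2 * 0 = t₁ + 1 + 2 * w by ring, csG1 w c t₁ w le_rfl]
    push_cast
    ring
  | succ m ih =>
    rw [show t₁ + 1 + 2 * w + 2 * (m + 1) = (t₁ + 1 + 2 * w + 2 * m) + 2 by ring, cs_add_two,
      mul_add, ih]
    have e : G2 w c ((t₁ : ℤ) + w) (((t₁ + 1 + 2 * w + 2 * m : ℕ) : ℤ) + 1) =
        2 * (w + c) * ((t₁ : ℤ) + 2 * w + 2 * (m + 1)) - (w + c) * (t₁ + w) - 2 * w * c := by
      unfold G2
      push_cast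
      rw [if_neg (by omega), if_neg (by omega)]
      ring
    rw [e]
    push_cast
    ring

/-- the value of the sum -/
theorem total (w c t₁ m L S N : ℕ) (hN : L + S = 2 * N + 1) (hc : c ≤ N)
    (hL : L = t₁ + 1 + 2 * w + 2 * m)
    (pell : (L : ℤ) ^ 2 - 4 * L * S + (S : ℤ) ^ 2 = 1) :
    12 * ((∑ i ∈ Finset.Icc (-(N : ℤ)) N, F2 w c |i|) + cs (G2 w c ((t₁ : ℤ) + w)) L +
      cs (fun t => t ^ 2) S) =
    3 * (w + c) * ((2 * ((t₁ : ℤ) + w) - L) ^ 2 - 1 - 3 * (S : ℤ) ^ 2) + 8 * (c : ℤ) ^ 3 -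
      24 * w * c ^ 2 + 12 * w ^ 2 * c - 4 * w ^ 3 + 16 * w - 8 * c + 24 * w * c * S +
      4 * S ^ 3 - 4 * S := by
  have h1 := sumF2 w c N hc
  have h2 := csG2 w c t₁ m
  have h3 := (cs_sq S).1
  rw [← hL] at h2
  have hN' : (L : ℤ) + S = 2 * N + 1 := by exact_mod_cast hN
  have hL' : (L : ℤ) = t₁ + 1 + 2 * w + 2 * m := by exact_mod_cast hL
  have eL : (L : ℤ) = 2 * N + 1 - S := by linarith
  have et : (t₁ : ℤ) = L - 1 - 2 * w - 2 * m := by linarith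
  rw [mul_add, mul_add]
  have g1 : 12 * (∑ i ∈ Finset.Icc (-(N : ℤ)) N, F2 w c |i|) = 4 * (-2 * c * (c + 1) *
      (2 * c + 1) + 12 * w * c * (N - c) - 6 * (w + c) * (N * (N + 1) - c * (c + 1))) := by
    rw [← h1]; ring
  have g2 : 12 * cs (G2 w c ((t₁ : ℤ) + w)) L = 4 * (3 * (t₁ + 1) * ((w + c) * (t₁ + w) -
      2 * w * c) + 6 * (-(w * c * w) + (w + c) * (t₁ * w + w * (w + 1))) +
      4 * w * (w + 1) * (2 * w + 1) -
        12 * w * w * (w + 1) + 6 * w ^ 2 * w +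
        6 * (2 * (w + c) * ((t₁ + 2 * w) * m + m * (m + 1)) -
          ((w + c) * (t₁ + w) + 2 * w * c) * m)) := by
    rw [← h2]; ring
  have g3 : 12 * cs (fun t => t ^ 2) S = 4 * ((S : ℤ) ^ 3 - S) := by rw [← h3]; ring
  rw [g1, g2, g3, et]
  rw [eL] at pell ⊢
  linear_combination (3 * ((w : ℤ) + c)) * pell


theorem pellL (L S : ℤ) (hLS : S < L) (hS : 2 ≤ S)
    (pell : L ^ 2 - 4 * L * S + S ^ 2 = 1) : 37 * S ≤ 10 * L ∧ L < 4 * S := by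
  have h1 : (L - 2 * S) ^ 2 = 3 * S ^ 2 + 1 := by linear_combination pell
  have h2 : 0 < L - 2 * S := by
    by_contra h
    push Not at h
    nlinarith
  constructor
  · by_contra h
    push Not at h
    nlinarith
  · by_contra h
    push Not at h
    nlinarith

theorem neg9 (L S N : ℕ) (hLS : S < L) (hN : L + S = 2 * N + 1) (hS : 9 ≤ S)
    (pell : (L : ℤ) ^ 2 - 4 * L * S + (S : ℤ) ^ 2 = 1) :
    ∃ w c s : ℤ, 0 ≤ w ∧ 2 * w ≤ c ∧ 2 * c ≤ s ∧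
      (∑ i ∈ Finset.Icc (-(N : ℤ)) N, F2 w c |i|) + cs (G2 w c s) L + cs (fun t => t ^ 2) S < 0 := by
  obtain ⟨hl, hl2⟩ := pellL L S (by exact_mod_cast hLS) (by omega) pell
  have hl' : 37 * S ≤ 10 * L := by exact_mod_cast hl
  have hl2' : L < 4 * S := by exact_mod_cast hl2
  -- the choice of s
  obtain ⟨s, m, hs1, hs2, hs3⟩ : ∃ s m : ℕ, 2 * s ≤ L + 2 ∧ L ≤ 2 * s + 2 ∧
      L = s + S / 3 + 1 + 2 * m := by
    rcases Nat.even_or_odd' (L + S / 3 + 1 + L / 2) with ⟨q, hq | hq⟩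
    · refine ⟨L / 2, (L - (L / 2 + S / 3 + 1)) / 2, by omega, by omega, by omega⟩
    · refine ⟨L / 2 + 1, (L - (L / 2 + 1 + S / 3 + 1)) / 2, by omega, by omega, by omega⟩
  set w : ℕ := S / 3 with hw
  set c : ℕ := 2 * S / 3 with hc
  have hws : w ≤ s := by omega
  have hcN : c ≤ N := by omega
  have hT := total w c (s - w) m L S N hN hcN (by omega) pell
  have hsw : (((s - w : ℕ) : ℤ)) + w = s := by
    push_cast [hws]
    ring
  rw [hsw] at hT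
  refine ⟨w, c, s, by positivity, by omega, by omega, ?_⟩
  have he : (2 * (s : ℤ) - L) ^ 2 ≤ 4 := by
    have h1 : (2 * (s : ℤ) - L) ≤ 2 := by omega
    have h2 : -2 ≤ (2 * (s : ℤ) - L) := by omega
    nlinarith
  have hbe : 3 * ((w : ℤ) + c) * ((2 * (s : ℤ) - L) ^ 2 - 1 - 3 * (S : ℤ) ^ 2) ≤
      3 * ((w : ℤ) + c) * (4 - 1 - 3 * (S : ℤ) ^ 2) := by
    apply mul_le_mul_of_nonneg_left _ (by positivity)
    linarith
  have hfin : 3 * ((w : ℤ) + c) * (4 - 1 - 3 * (S : ℤ) ^ 2) + 8 * (c : ℤ) ^ 3 -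
      24 * w * c ^ 2 + 12 * w ^ 2 * c - 4 * w ^ 3 + 16 * w - 8 * c + 24 * w * c * S +
      4 * S ^ 3 - 4 * S < 0 := by
    obtain ⟨k, hk⟩ : ∃ k : ℕ, k = S / 3 := ⟨_, rfl⟩
    have hk3 : (3 : ℤ) ≤ k := by omega
    obtain ⟨j, hj⟩ : ∃ j : ℕ, (k : ℤ) = j + 3 := ⟨k - 3, by omega⟩
    have hwk : (w : ℤ) = j + 3 := by omega
    have h3 : (S : ℤ) = 3 * (j + 3) ∧ (c : ℤ) = 2 * (j + 3) ∨
        (S : ℤ) = 3 * (j + 3) + 1 ∧ (c : ℤ) = 2 * (j + 3) ∨
        (S : ℤ) = 3 * (j + 3) + 2 ∧ (c : ℤ) = 2 * (j + 3) + 1 := by omega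
    rcases h3 with ⟨h1, h2⟩ | ⟨h1, h2⟩ | ⟨h1, h2⟩
    · rw [h1, h2, hwk]
      have h5 : 0 < 36 + 66 * (j : ℤ) + 27 * (j : ℤ) ^ 2 + 3 * (j : ℤ) ^ 3 := by positivity
      refine lt_of_eq_of_lt ?_ (neg_neg_of_pos h5)
      ring
    · rw [h1, h2, hwk]
      have h5 : 0 < 63 + 93 * (j : ℤ) + 33 * (j : ℤ) ^ 2 + 3 * (j : ℤ) ^ 3 := by positivity
      refine lt_of_eq_of_lt ?_ (neg_neg_of_pos h5)
      ring
    · rw [h1, h2, hwk]
      have h5 : 0 < 120 + 120 * (j : ℤ) + 36 * (j : ℤ) ^ 2 + 3 * (j : ℤ) ^ 3 := by positivity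
      refine lt_of_eq_of_lt ?_ (neg_neg_of_pos h5)
      ring
  linarith

theorem neg (L S N : ℕ) (hLS : S < L) (hN : L + S = 2 * N + 1) (hS : 2 ≤ S)
    (pell : (L : ℤ) ^ 2 - 4 * L * S + (S : ℤ) ^ 2 = 1) :
    ∃ w c s : ℤ, 0 ≤ w ∧ 2 * w ≤ c ∧ 2 * c ≤ s ∧
      (∑ i ∈ Finset.Icc (-(N : ℤ)) N, F2 w c |i|) + cs (G2 w c s) L + cs (fun t => t ^ 2) S < 0 := by
  rcases le_or_gt 9 S with h9 | h9
  · exact neg9 L S N hLS hN h9 pell
  obtain ⟨hl, hl2⟩ := pellL L S (by exact_mod_cast hLS) (by omega) pell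
  have hl' : 37 * S ≤ 10 * L := by exact_mod_cast hl
  have hl2' : L < 4 * S := by exact_mod_cast hl2
  have h4 : S = 4 ∧ L = 15 := by
    interval_cases S
    all_goals first
      | (exfalso; have : L ≤ 32 := by omega
         interval_cases L <;> omega)
      | (refine ⟨rfl, ?_⟩
         interval_cases L <;> omega)
  obtain ⟨rfl, rfl⟩ := h4
  have hN9 : N = 9 := by omega
  subst hN9
  have hT := total 1 2 6 3 15 4 9 rfl (by norm_num) rfl (by norm_num)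
  refine ⟨1, 2, 7, by norm_num, by norm_num, by norm_num, ?_⟩
  norm_num at hT ⊢
  linarith

end Pool.Agent.W667.Qn
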