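import Pool.Agent.W68.Qn.Defs

set_option autoImplicit false

namespace Pool.Agent.W68h.QnT1h312

open Pool.Agent.W68.Qn

variable {ι : Type*}

/-- the number of queens covering the square `(x, y)`, columns not counted -/
def cnt (Q : Finset ι) (f T S : ι → ℤ) (x y : ℤ) : ℤ :=
  ∑ q ∈ Q, ((if f q = y then (1 : ℤ) else 0) + (if T q = y - x then 1 else 0) +
    (if S q = x + y then 1 else 0))

theorem sum_cnt (Q : Finset ι) (f T S : ι → ℤ) (x : ℤ) (W : Finset ℤ) :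
    ∑ y ∈ W, cnt Q f T S x y = ∑ q ∈ Q, ((if f q ∈ W then (1 : ℤ) else 0) +
      (if T q + x ∈ W then 1 else 0) + (if S q - x ∈ W then 1 else 0)) := by
  unfold cnt
  rw [Finset.sum_comm]
  refine Finset.sum_congr rfl fun q _ => ?_
  rw [Finset.sum_add_distrib, Finset.sum_add_distrib]
  simp only [eq_sub_iff_add_eq]
  have h3 : ∀ y : ℤ, (S q = x + y) ↔ (S q - x = y) := fun y => by
    constructor <;> intro h <;> omega
  simp only [h3]
  rw [Finset.sum_ite_eq, Finset.sum_ite_eq, Finset.sum_ite_eq]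

theorem cnt_ge (Q : Finset ι) (f T S : ι → ℤ) (x y : ℤ)
    (h : ∃ q ∈ Q, f q = y ∨ T q = y - x ∨ S q = x + y) : 1 ≤ cnt Q f T S x y := by
  obtain ⟨q, hq, h⟩ := h
  unfold cnt
  have h1 : ∀ q ∈ Q, (0 : ℤ) ≤ ((if f q = y then (1 : ℤ) else 0) +
    (if T q = y - x then 1 else 0) + (if S q = x + y then 1 else 0)) := by
    intro q _
    split_ifs <;> norm_num
  have h2 := Finset.single_le_sum h1 hq
  refine le_trans ?_ h2
  rcases h with h | h | h
  · rw [if_pos h]; split_ifs <;> norm_num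
  · rw [if_pos h]; split_ifs <;> norm_num
  · rw [if_pos h]; split_ifs <;> norm_num

theorem cl [DecidableEq ι] (Q : Finset ι) (f T S : ι → ℤ) (m γ w r : ℤ) (hm : (Q.card : ℤ) = m)
    (hw : 1 ≤ w) (hr1 : -γ ≤ r) (hr2 : r + w - 1 ≤ 2 * m - γ)
    (dom : ∀ y : ℤ, r ≤ y → y ≤ r + w - 1 → ∀ x : ℤ, (x = 0 ∨ x = w) →
      ∃ q ∈ Q, f q = y ∨ T q = y - x ∨ S q = x + y)
    (E : Finset ℤ) (hE : ∀ y : ℤ, -γ ≤ y → y ≤ 2 * m - γ → (y < r ∨ r + w - 1 < y) → y ∉ E →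
      ∃ q ∈ Q, f q = y) :
    1 ≤ (E.card : ℤ) ∧ ((E.card : ℤ) = 1 →
      (∀ y : ℤ, r ≤ y → y ≤ r + w - 1 → ∀ x : ℤ, (x = 0 ∨ x = w) → cnt Q f T S x y = 1) ∧
      (∀ q ∈ Q, ((r ≤ T q ∧ T q ≤ r + w - 1) ∨ (r ≤ T q + w ∧ T q + w ≤ r + w - 1)) ∧
        ((r ≤ S q ∧ S q ≤ r + w - 1) ∨ (r ≤ S q - w ∧ S q - w ≤ r + w - 1))) ∧
      (∀ q ∈ Q, ∀ q' ∈ Q, f q = f q' → (f q < r ∨ r + w - 1 < f q) → q = q')) := by
  classical
  set W : Finset ℤ := Finset.Icc r (r + w - 1) with hW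
  have hWc : (W.card : ℤ) = w := by
    rw [hW, Int.card_Icc]
    rw [Int.toNat_of_nonneg (by omega)]
    ring
  set B : Finset ℤ := Finset.Icc (-γ) (2 * m - γ) with hB
  have hm0 : 0 ≤ m := by rw [← hm]; positivity
  have hBc : (B.card : ℤ) = 2 * m + 1 := by
    rw [hB, Int.card_Icc]
    rw [Int.toNat_of_nonneg (by omega)]
    ring
  have hWB : W ⊆ B := by
    intro y hy
    rw [hW, Finset.mem_Icc] at hy
    rw [hB, Finset.mem_Icc]
    constructor <;> omega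
  -- the queens outside
  set Qo : Finset ι := Q.filter (fun q => f q ∉ W) with hQo
  set Qi : Finset ι := Q.filter (fun q => f q ∈ W) with hQi
  have hQc : (Qi.card : ℤ) + Qo.card = m := by
    have := Finset.card_filter_add_card_filter_not (s := Q) (fun q => f q ∈ W)
    rw [← hm]
    rw [hQi, hQo]
    exact_mod_cast this
  have hO1 : (B \ W) \ E ⊆ Qo.image f := by
    intro y hy
    rw [Finset.mem_sdiff, Finset.mem_sdiff] at hy
    obtain ⟨⟨hyB, hyW⟩, hyE⟩ := hy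
    have hyB' := Finset.mem_Icc.1 hyB
    have hyW' : y < r ∨ r + w - 1 < y := by
      by_contra hcon
      push Not at hcon
      exact hyW (Finset.mem_Icc.2 hcon)
    obtain ⟨q, hq, hqy⟩ := hE y hyB'.1 hyB'.2 hyW' hyE
    rw [Finset.mem_image]
    refine ⟨q, ?_, hqy⟩
    rw [hQo, Finset.mem_filter]
    exact ⟨hq, by rw [hqy]; exact hyW⟩
  have hO2 : (2 * m + 1 - w - E.card : ℤ) ≤ ((Qo.image f).card : ℤ) := by
    have h1 := Finset.card_le_card hO1
    have h2 := Finset.le_card_sdiff E (B \ W)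
    have h3 := Finset.card_sdiff_add_card_eq_card hWB
    omega
  have hO3 : ((Qo.image f).card : ℤ) ≤ Qo.card := by exact_mod_cast Finset.card_image_le
  -- the two sums
  have hs : ∑ y ∈ W, (cnt Q f T S 0 y + cnt Q f T S w y) =
      2 * (Qi.card : ℤ) + ∑ q ∈ Q, (((if T q + 0 ∈ W then (1 : ℤ) else 0) +
        (if T q + w ∈ W then 1 else 0)) + ((if S q - 0 ∈ W then 1 else 0) +
        (if S q - w ∈ W then 1 else 0))) := by
    rw [Finset.sum_add_distrib, sum_cnt, sum_cnt]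
    have hQi' : (Qi.card : ℤ) = ∑ q ∈ Q, (if f q ∈ W then (1 : ℤ) else 0) := by
      rw [hQi, Finset.card_filter]
      push_cast
      rfl
    rw [hQi', Finset.mul_sum, ← Finset.sum_add_distrib, ← Finset.sum_add_distrib]
    refine Finset.sum_congr rfl fun q _ => ?_
    ring
  have hge : ∀ y ∈ W, (0 : ℤ) ≤ cnt Q f T S 0 y + cnt Q f T S w y - 2 := by
    intro y hy
    have hy' := Finset.mem_Icc.1 hy
    have h1 := cnt_ge Q f T S 0 y (dom y hy'.1 hy'.2 0 (Or.inl rfl))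
    have h2 := cnt_ge Q f T S w y (dom y hy'.1 hy'.2 w (Or.inr rfl))
    omega
  have hle : ∀ q ∈ Q, (0 : ℤ) ≤ 2 - (((if T q + 0 ∈ W then (1 : ℤ) else 0) +
        (if T q + w ∈ W then 1 else 0)) + ((if S q - 0 ∈ W then 1 else 0) +
        (if S q - w ∈ W then 1 else 0))) := by
    intro q _
    simp only [hW, Finset.mem_Icc]
    split_ifs <;> omega
  have hs1 := Finset.sum_nonneg hge
  have hs2 := Finset.sum_nonneg hle
  have hs1' : ∑ y ∈ W, (cnt Q f T S 0 y + cnt Q f T S w y - 2) =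
      ∑ y ∈ W, (cnt Q f T S 0 y + cnt Q f T S w y) - 2 * w := by
    rw [Finset.sum_sub_distrib]
    simp only [Finset.sum_const, nsmul_eq_mul]
    rw [hWc]; ring
  have hs2' : ∑ q ∈ Q, (2 - (((if T q + 0 ∈ W then (1 : ℤ) else 0) +
        (if T q + w ∈ W then 1 else 0)) + ((if S q - 0 ∈ W then 1 else 0) +
        (if S q - w ∈ W then 1 else 0)))) = 2 * m - ∑ q ∈ Q, (((if T q + 0 ∈ W then (1 : ℤ) else 0) +
        (if T q + w ∈ W then 1 else 0)) + ((if S q - 0 ∈ W then 1 else 0) +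
        (if S q - w ∈ W then 1 else 0))) := by
    rw [Finset.sum_sub_distrib]
    simp only [Finset.sum_const, nsmul_eq_mul]
    rw [hm]; ring
  refine ⟨by omega, fun hE1 => ?_⟩
  have he1 : ∑ y ∈ W, (cnt Q f T S 0 y + cnt Q f T S w y - 2) = 0 := by omega
  have he2 : ∑ q ∈ Q, (2 - (((if T q + 0 ∈ W then (1 : ℤ) else 0) +
        (if T q + w ∈ W then 1 else 0)) + ((if S q - 0 ∈ W then 1 else 0) +
        (if S q - w ∈ W then 1 else 0)))) = 0 := by omega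
  have he3 : (Qo.image f).card = Qo.card := by omega
  rw [Finset.sum_eq_zero_iff_of_nonneg hge] at he1
  rw [Finset.sum_eq_zero_iff_of_nonneg hle] at he2
  rw [Finset.card_image_iff] at he3
  refine ⟨?_, ?_, ?_⟩
  · intro y hy1 hy2 x hx
    have hy : y ∈ W := Finset.mem_Icc.2 ⟨hy1, hy2⟩
    have h1 := cnt_ge Q f T S 0 y (dom y hy1 hy2 0 (Or.inl rfl))
    have h2 := cnt_ge Q f T S w y (dom y hy1 hy2 w (Or.inr rfl))
    have h3 := he1 y hy
    rcases hx with rfl | rfl <;> omega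
  · intro q hq
    have h1 := he2 q hq
    simp only [hW, Finset.mem_Icc] at h1
    constructor
    · by_contra hcon
      push Not at hcon
      rw [if_neg (by omega), if_neg (by omega)] at h1
      split_ifs at h1 <;> omega
    · by_contra hcon
      push Not at hcon
      rw [if_neg (c := r ≤ S q - 0 ∧ _) (by omega), if_neg (c := r ≤ S q - w ∧ _) (by omega)] at h1
      split_ifs at h1 <;> omega
  · intro q hq q' hq' hff hout
    have hnW : f q ∉ W := by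
      rw [hW, Finset.mem_Icc]; omega
    refine he3 ?_ ?_ hff
    · rw [Finset.mem_coe, hQo, Finset.mem_filter]; exact ⟨hq, hnW⟩
    · rw [Finset.mem_coe, hQo, Finset.mem_filter]; exact ⟨hq', by rw [← hff]; exact hnW⟩


theorem ite_sum_zero (Q : Finset ι) (g : ι → ℤ) (a : ℤ) (h : ¬ ∃ q ∈ Q, g q = a) :
    ∑ q ∈ Q, (if g q = a then (1 : ℤ) else 0) = 0 := by
  refine Finset.sum_eq_zero fun q hq => ?_
  rw [if_neg]
  exact fun h' => h ⟨q, hq, h'⟩

theorem ite_sum_pos (Q : Finset ι) (g : ι → ℤ) (a : ℤ) (h : ∃ q ∈ Q, g q = a) :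
    1 ≤ ∑ q ∈ Q, (if g q = a then (1 : ℤ) else 0) := by
  obtain ⟨q, hq, h⟩ := h
  have h1 : ∀ q ∈ Q, (0 : ℤ) ≤ (if g q = a then (1 : ℤ) else 0) := by
    intro q _
    split_ifs <;> norm_num
  have h2 := Finset.single_le_sum h1 hq
  rw [if_pos h] at h2
  exact h2

theorem ite_sum_two [DecidableEq ι] (Q : Finset ι) (g : ι → ℤ) (a : ℤ) (q q' : ι) (hq : q ∈ Q)
    (hq' : q' ∈ Q) (hne : q ≠ q') (h : g q = a) (h' : g q' = a) :
    2 ≤ ∑ q ∈ Q, (if g q = a then (1 : ℤ) else 0) := by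
  rw [← Finset.add_sum_erase Q _ hq, if_pos h]
  have h3 := ite_sum_pos (Q.erase q) g a ⟨q', Finset.mem_erase.2 ⟨hne.symm, hq'⟩, h'⟩
  omega

theorem ite_sum_nonneg (Q : Finset ι) (g : ι → ℤ) (a : ℤ) :
    0 ≤ ∑ q ∈ Q, (if g q = a then (1 : ℤ) else 0) := by
  refine Finset.sum_nonneg fun q _ => ?_
  split_ifs <;> norm_num

theorem cnt_split (Q : Finset ι) (f T S : ι → ℤ) (x y : ℤ) :
    cnt Q f T S x y = ∑ q ∈ Q, (if f q = y then (1 : ℤ) else 0) +
      ∑ q ∈ Q, (if T q = y - x then (1 : ℤ) else 0) + ∑ q ∈ Q, (if S q = x + y then (1 : ℤ) else 0) := by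
  unfold cnt
  rw [Finset.sum_add_distrib, Finset.sum_add_distrib]

theorem count1 (Q : Finset ι) (f T S : ι → ℤ) (x y : ℤ) (h : cnt Q f T S x y = 1) :
    ((¬ ∃ q ∈ Q, f q = y) ↔ ((∃ q ∈ Q, T q = y - x) ∨ (∃ q ∈ Q, S q = x + y))) ∧
      ¬ ((∃ q ∈ Q, T q = y - x) ∧ (∃ q ∈ Q, S q = x + y)) := by
  rw [cnt_split] at h
  have n1 := ite_sum_nonneg Q f y
  have n2 := ite_sum_nonneg Q T (y - x)
  have n3 := ite_sum_nonneg Q S (x + y)
  have z1 := ite_sum_zero Q f y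
  have z2 := ite_sum_zero Q T (y - x)
  have z3 := ite_sum_zero Q S (x + y)
  have p1 := ite_sum_pos Q f y
  have p2 := ite_sum_pos Q T (y - x)
  have p3 := ite_sum_pos Q S (x + y)
  refine ⟨⟨fun hf => ?_, fun hts hf => ?_⟩, fun hts => ?_⟩
  · by_contra hcon
    push Not at hcon
    have := z1 hf
    have := z2 (fun ⟨q, hq, e⟩ => hcon.1 q hq e)
    have := z3 (fun ⟨q, hq, e⟩ => hcon.2 q hq e)
    omega
  · have := p1 hf
    rcases hts with h' | h'
    · have := p2 h'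
      omega
    · have := p3 h'
      omega
  · have := p2 hts.1
    have := p3 hts.2
    omega

/-- first half: the box is at least as high as it is wide -/
theorem half1 [DecidableEq ι] (Q : Finset ι) (f T S : ι → ℤ) (m γ w v : ℤ) (hm : (Q.card : ℤ) = m)
    (hw : 1 ≤ w) (hw2 : w ≤ 2 * m) (hv : v ≤ 2 * m - γ)
    (dom : ∀ y : ℤ, -γ ≤ y → y ≤ 2 * m - γ → ∀ x : ℤ, (x = 0 ∨ x = w) →
      ∃ q ∈ Q, f q = y ∨ T q = y - x ∨ S q = x + y)
    (hout : ∀ y : ℤ, -γ ≤ y → y ≤ 2 * m - γ → (y < 0 ∨ v < y) → ∃ q ∈ Q, f q = y) : w ≤ v := by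
  by_contra hcon
  push Not at hcon
  obtain ⟨r, hr⟩ : ∃ r : ℤ, -γ ≤ r ∧ v - w + 1 ≤ r ∧ (r = -γ ∨ r = v - w + 1) := by
    rcases le_total (-γ) (v - w + 1) with h | h
    · exact ⟨v - w + 1, h, le_rfl, Or.inr rfl⟩
    · exact ⟨-γ, le_rfl, h, Or.inl rfl⟩
  have h := cl Q f T S m γ w r hm hw hr.1 (by omega)
    (fun y hy1 hy2 x hx => dom y (by omega) (by omega) x hx) ∅
    (fun y hy1 hy2 hy3 _ => hout y hy1 hy2 (by omega))
  have h1 := h.1
  simp at h1

/-- second half: the equality case -/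
theorem half2 [DecidableEq ι] (Q : Finset ι) (f T S : ι → ℤ) (m γ δ : ℤ) (hm : (Q.card : ℤ) = m)
    (hw : 1 ≤ δ) (hγ : 0 ≤ γ) (hv : δ ≤ 2 * m - γ)
    (dom : ∀ y : ℤ, -γ ≤ y → y ≤ 2 * m - γ → ∀ x : ℤ, (x = 0 ∨ x = δ) →
      ∃ q ∈ Q, f q = y ∨ T q = y - x ∨ S q = x + y)
    (hout : ∀ y : ℤ, -γ ≤ y → y ≤ 2 * m - γ → (y < 0 ∨ δ < y) → ∃ q ∈ Q, f q = y) :
    (∀ y : ℤ, 0 ≤ y → y ≤ δ → ∀ x : ℤ, (x = 0 ∨ x = δ) → cnt Q f T S x y = 1) ∧
    (∀ q ∈ Q, (-δ < T q ∧ T q < δ) ∧ (0 < S q ∧ S q < 2 * δ)) ∧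
    (∀ q ∈ Q, ∀ q' ∈ Q, f q = f q' → q = q') ∧
    (∀ q ∈ Q, ∀ q' ∈ Q, T q = T q' → q = q') ∧
    (∀ q ∈ Q, ∀ q' ∈ Q, S q = S q' → q = q') := by
  have h0 := (cl Q f T S m γ δ 0 hm hw (by omega) (by omega)
    (fun y hy1 hy2 x hx => dom y (by omega) (by omega) x hx) {δ}
    (fun y hy1 hy2 hy3 hy4 => hout y hy1 hy2 (by
      rw [Finset.mem_singleton] at hy4
      omega))).2 (by simp)
  have h1 := (cl Q f T S m γ δ 1 hm hw (by omega) (by omega)
    (fun y hy1 hy2 x hx => dom y (by omega) (by omega) x hx) {0}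
    (fun y hy1 hy2 hy3 hy4 => hout y hy1 hy2 (by
      rw [Finset.mem_singleton] at hy4
      omega))).2 (by simp)
  obtain ⟨a0, b0, c0⟩ := h0
  obtain ⟨a1, b1, c1⟩ := h1
  have A : ∀ y : ℤ, 0 ≤ y → y ≤ δ → ∀ x : ℤ, (x = 0 ∨ x = δ) → cnt Q f T S x y = 1 := by
    intro y hy1 hy2 x hx
    rcases lt_or_ge y δ with h | h
    · exact a0 y hy1 (by omega) x hx
    · exact a1 y (by omega) (by omega) x hx
  have B : ∀ q ∈ Q, (-δ < T q ∧ T q < δ) ∧ (0 < S q ∧ S q < 2 * δ) := by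
    intro q hq
    have e0 := b0 q hq
    have e1 := b1 q hq
    omega
  refine ⟨A, B, ?_, ?_, ?_⟩
  · intro q hq q' hq' hff
    by_contra hne
    by_cases hf : 0 ≤ f q ∧ f q ≤ δ
    · have h2 := A (f q) hf.1 hf.2 0 (Or.inl rfl)
      rw [cnt_split] at h2
      have n2 := ite_sum_nonneg Q T (f q - 0)
      have n3 := ite_sum_nonneg Q S (0 + f q)
      have n1 := ite_sum_two Q f (f q) q q' hq hq' hne rfl hff.symm
      omega
    · exact hne (c0 q hq q' hq' hff (by omega))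
  · intro q hq q' hq' hff
    by_contra hne
    have e0 := B q hq
    obtain ⟨x, hx, hy1, hy2⟩ : ∃ x : ℤ, (x = 0 ∨ x = δ) ∧ 0 ≤ T q + x ∧ T q + x ≤ δ := by
      rcases lt_or_ge (T q) 0 with h | h
      · exact ⟨δ, Or.inr rfl, by omega, by omega⟩
      · exact ⟨0, Or.inl rfl, by omega, by omega⟩
    have h2 := A (T q + x) hy1 hy2 x hx
    rw [cnt_split] at h2
    have n1 := ite_sum_nonneg Q f (T q + x)
    have n3 := ite_sum_nonneg Q S (x + (T q + x))
    have n2 := ite_sum_two Q T (T q + x - x) q q' hq hq' hne (by ring) (by rw [← hff]; ring)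
    omega
  · intro q hq q' hq' hff
    by_contra hne
    have e0 := B q hq
    obtain ⟨x, hx, hy1, hy2⟩ : ∃ x : ℤ, (x = 0 ∨ x = δ) ∧ 0 ≤ S q - x ∧ S q - x ≤ δ := by
      rcases lt_or_ge δ (S q) with h | h
      · exact ⟨δ, Or.inr rfl, by omega, by omega⟩
      · exact ⟨0, Or.inl rfl, by omega, by omega⟩
    have h2 := A (S q - x) hy1 hy2 x hx
    rw [cnt_split] at h2
    have n1 := ite_sum_nonneg Q f (S q - x)
    have n2 := ite_sum_nonneg Q T (S q - x - x)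
    have n3 := ite_sum_two Q S (x + (S q - x)) q q' hq hq' hne (by ring) (by rw [← hff]; ring)
    omega


theorem core2 (m α γ w v : ℤ) (Q : Finset (ℤ × ℤ)) (hm : 1 ≤ m) (hc : (Q.card : ℤ) = m)
    (hr : ∀ q ∈ Q, -α ≤ q.1 ∧ q.1 ≤ 2 * m - α ∧ -γ ≤ q.2 ∧ q.2 ≤ 2 * m - γ)
    (dom : ∀ x y : ℤ, -α ≤ x → x ≤ 2 * m - α → -γ ≤ y → y ≤ 2 * m - γ →
      ∃ q ∈ Q, q.1 = x ∨ q.2 = y ∨ q.2 - q.1 = y - x ∨ q.1 + q.2 = x + y)
    (hα : 0 ≤ α) (hγ : 0 ≤ γ) (hw : 1 ≤ w) (hw2 : w ≤ 2 * m - α) (hv : 1 ≤ v)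
    (hv2 : v ≤ 2 * m - γ)
    (e0 : ∀ q ∈ Q, q.1 ≠ 0) (e1 : ∀ q ∈ Q, q.1 ≠ w) (f0 : ∀ q ∈ Q, q.2 ≠ 0)
    (f1 : ∀ q ∈ Q, q.2 ≠ v)
    (outx : ∀ x : ℤ, -α ≤ x → x ≤ 2 * m - α → (x < 0 ∨ w < x) → ∃ q ∈ Q, q.1 = x)
    (outy : ∀ y : ℤ, -γ ≤ y → y ≤ 2 * m - γ → (y < 0 ∨ v < y) → ∃ q ∈ Q, q.2 = y) :
    ∃ (X Y P S : Finset ℤ), Box m w α γ Q X Y P S := by
  have domc : ∀ y : ℤ, -γ ≤ y → y ≤ 2 * m - γ → ∀ x : ℤ, (x = 0 ∨ x = w) →
      ∃ q ∈ Q, (fun q : ℤ × ℤ => q.2) q = y ∨ (fun q : ℤ × ℤ => q.2 - q.1) q = y - x ∨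
        (fun q : ℤ × ℤ => q.1 + q.2) q = x + y := by
    intro y hy1 hy2 x hx
    obtain ⟨q, hq, h⟩ := dom x y (by omega) (by omega) hy1 hy2
    refine ⟨q, hq, ?_⟩
    have h0 := e0 q hq
    have h1 := e1 q hq
    rcases h with h | h | h | h
    · exfalso; omega
    · exact Or.inl h
    · exact Or.inr (Or.inl h)
    · exact Or.inr (Or.inr h)
  have domr : ∀ x : ℤ, -α ≤ x → x ≤ 2 * m - α → ∀ y : ℤ, (y = 0 ∨ y = v) →
      ∃ q ∈ Q, (fun q : ℤ × ℤ => q.1) q = x ∨ (fun q : ℤ × ℤ => q.1 - q.2) q = x - y ∨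
        (fun q : ℤ × ℤ => q.1 + q.2) q = y + x := by
    intro x hx1 hx2 y hy
    obtain ⟨q, hq, h⟩ := dom x y hx1 hx2 (by omega) (by omega)
    refine ⟨q, hq, ?_⟩
    have h0 := f0 q hq
    have h1 := f1 q hq
    rcases h with h | h | h | h
    · exact Or.inl h
    · exfalso; omega
    · exact Or.inr (Or.inl (by simp only; omega))
    · exact Or.inr (Or.inr (by simp only; omega))
  have k1 := half1 Q _ _ _ m γ w v hc hw (by omega) hv2 domc outy
  have k2 := half1 Q _ _ _ m α v w hc hv (by omega) hw2 domr outx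
  have hvw : v = w := le_antisymm k2 k1
  subst hvw
  obtain ⟨Ac, Bc, Cc1, Cc2, Cc3⟩ := half2 Q _ _ _ m γ v hc hv hγ hv2 domc outy
  obtain ⟨Ar, Br, Cr1, Cr2, Cr3⟩ := half2 Q _ _ _ m α v hc hv hα hw2 domr outx
  have memX : ∀ z : ℤ, 0 ≤ z → z ≤ v →
      (z ∈ (Finset.Icc (-α) (2 * m - α)) \ Q.image (fun q => q.1) ↔ ¬ ∃ q ∈ Q, q.1 = z) := by
    intro z hz1 hz2
    rw [Finset.mem_sdiff, Finset.mem_Icc, Finset.mem_image]
    constructor
    · exact fun h => h.2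
    · exact fun h => ⟨⟨by omega, by omega⟩, h⟩
  have memY : ∀ z : ℤ, 0 ≤ z → z ≤ v →
      (z ∈ (Finset.Icc (-γ) (2 * m - γ)) \ Q.image (fun q => q.2) ↔ ¬ ∃ q ∈ Q, q.2 = z) := by
    intro z hz1 hz2
    rw [Finset.mem_sdiff, Finset.mem_Icc, Finset.mem_image]
    constructor
    · exact fun h => h.2
    · exact fun h => ⟨⟨by omega, by omega⟩, h⟩
  have memP : ∀ t : ℤ, (t ∈ Q.image (fun q => q.2 - q.1) ↔ ∃ q ∈ Q, q.2 - q.1 = t) := by
    intro t
    rw [Finset.mem_image]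
  have memP' : ∀ t : ℤ, (t ∈ Q.image (fun q => q.2 - q.1) ↔ ∃ q ∈ Q, q.1 - q.2 = -t) := by
    intro t
    rw [Finset.mem_image]
    constructor
    · rintro ⟨q, hq, h⟩
      exact ⟨q, hq, by omega⟩
    · rintro ⟨q, hq, h⟩
      exact ⟨q, hq, by omega⟩
  have memS : ∀ t : ℤ, (t ∈ Q.image (fun q => q.1 + q.2) ↔ ∃ q ∈ Q, q.1 + q.2 = t) := by
    intro t
    rw [Finset.mem_image]
  refine ⟨_, _, _, _,
    { hm := hm
      hδ := hv
      hα := ⟨hα, by omega⟩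
      hγ := ⟨hγ, by omega⟩
      Qc := hc
      Qr := hr
      ix := fun q hq q' hq' h => Cr1 q hq q' hq' h
      iy := fun q hq q' hq' h => Cc1 q hq q' hq' h
      it := fun q hq q' hq' h => Cc2 q hq q' hq' h
      is := fun q hq q' hq' h => Cc3 q hq q' hq' h
      hX := rfl
      hY := rfl
      hP := rfl
      hS := rfl
      x0 := (memX 0 le_rfl (by omega)).2 (fun ⟨q, hq, h⟩ => e0 q hq h)
      xδ := (memX v (by omega) le_rfl).2 (fun ⟨q, hq, h⟩ => e1 q hq h)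
      y0 := (memY 0 le_rfl (by omega)).2 (fun ⟨q, hq, h⟩ => f0 q hq h)
      yδ := (memY v (by omega) le_rfl).2 (fun ⟨q, hq, h⟩ => f1 q hq h)
      Xr := ?_
      Yr := ?_
      Pr := ?_
      Sr := ?_
      eL := ?_
      eR := ?_
      eB := ?_
      eT := ?_
      cov := ?_ }⟩
  · intro x hx
    rw [Finset.mem_sdiff, Finset.mem_Icc, Finset.mem_image] at hx
    by_contra hcon
    exact hx.2 (outx x hx.1.1 hx.1.2 (by omega))
  · intro y hy
    rw [Finset.mem_sdiff, Finset.mem_Icc, Finset.mem_image] at hy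
    by_contra hcon
    exact hy.2 (outy y hy.1.1 hy.1.2 (by omega))
  · intro t ht
    obtain ⟨q, hq, h⟩ := (memP t).1 ht
    have := (Bc q hq).1
    omega
  · intro t ht
    obtain ⟨q, hq, h⟩ := (memS t).1 ht
    have := (Bc q hq).2
    omega
  · intro z hz1 hz2
    rw [memY z hz1 hz2, memP, memS]
    have h := count1 Q _ _ _ 0 z (Ac z hz1 hz2 0 (Or.inl rfl))
    rw [sub_zero, zero_add] at h
    exact h
  · intro z hz1 hz2
    rw [memY (v - z) (by omega) (by omega), memP, memS]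
    have h := count1 Q _ _ _ v (v - z) (Ac (v - z) (by omega) (by omega) v (Or.inr rfl))
    have t1 : v - z - v = -z := by ring
    have t2 : v + (v - z) = 2 * v - z := by ring
    rw [t1, t2] at h
    exact h
  · intro z hz1 hz2
    rw [memX z hz1 hz2, memP', memS]
    have h := count1 Q _ _ _ 0 z (Ar z hz1 hz2 0 (Or.inl rfl))
    rw [sub_zero, zero_add] at h
    rw [neg_neg]
    exact h
  · intro z hz1 hz2
    rw [memX (v - z) (by omega) (by omega), memP', memS]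
    have h := count1 Q _ _ _ v (v - z) (Ar (v - z) (by omega) (by omega) v (Or.inr rfl))
    have t1 : v - z - v = -z := by ring
    have t2 : v + (v - z) = 2 * v - z := by ring
    rw [t1, t2] at h
    exact h
  · intro x hx y hy
    rw [Finset.mem_sdiff, Finset.mem_Icc, Finset.mem_image] at hx hy
    obtain ⟨q, hq, h⟩ := dom x y hx.1.1 hx.1.2 hy.1.1 hy.1.2
    rcases h with h | h | h | h
    · exact absurd ⟨q, hq, h⟩ hx.2
    · exact absurd ⟨q, hq, h⟩ hy.2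
    · exact Or.inl ((memP _).2 ⟨q, hq, h⟩)
    · exact Or.inr ((memS _).2 ⟨q, hq, h⟩)

theorem core1 (m : ℤ) (Q : Finset (ℤ × ℤ)) (hm : 1 ≤ m) (hc : (Q.card : ℤ) = m)
    (hr : ∀ q ∈ Q, 0 ≤ q.1 ∧ q.1 ≤ 2 * m ∧ 0 ≤ q.2 ∧ q.2 ≤ 2 * m)
    (dom : ∀ x y : ℤ, 0 ≤ x → x ≤ 2 * m → 0 ≤ y → y ≤ 2 * m →
      ∃ q ∈ Q, q.1 = x ∨ q.2 = y ∨ q.2 - q.1 = y - x ∨ q.1 + q.2 = x + y) :
    ∃ (δ α γ : ℤ) (Q : Finset (ℤ × ℤ)) (X Y P S : Finset ℤ), Box m δ α γ Q X Y P S := by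
  have key : ∀ g : ℤ × ℤ → ℤ, ∃ a b : ℤ, 0 ≤ a ∧ a < b ∧ b ≤ 2 * m ∧ (∀ q ∈ Q, g q ≠ a) ∧
      (∀ q ∈ Q, g q ≠ b) ∧ (∀ x : ℤ, 0 ≤ x → x ≤ 2 * m → (x < a ∨ b < x) →
        ∃ q ∈ Q, g q = x) := by
    intro g
    set E : Finset ℤ := (Finset.Icc 0 (2 * m)) \ Q.image g with hE
    have hEc : 1 < E.card := by
      have h1 := Finset.le_card_sdiff (Q.image g) (Finset.Icc 0 (2 * m))
      have h2 : (Q.image g).card ≤ Q.card := Finset.card_image_le
      have h3 : ((Finset.Icc 0 (2 * m)).card : ℤ) = 2 * m + 1 := by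
        rw [Int.card_Icc, Int.toNat_of_nonneg (by omega)]; ring
      rw [← hE] at h1
      omega
    have hne : E.Nonempty := Finset.card_pos.1 (by omega)
    have ha := Finset.min'_mem E hne
    have hb := Finset.max'_mem E hne
    have hab := Finset.min'_lt_max'_of_card E hEc
    refine ⟨E.min' hne, E.max' hne, ?_, hab, ?_, ?_, ?_, ?_⟩
    · exact (Finset.mem_Icc.1 (Finset.mem_sdiff.1 ha).1).1
    · exact (Finset.mem_Icc.1 (Finset.mem_sdiff.1 hb).1).2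
    · intro q hq h
      have ha' := (Finset.mem_sdiff.1 ha).2
      exact ha' (Finset.mem_image.2 ⟨q, hq, h⟩)
    · intro q hq h
      have hb' := (Finset.mem_sdiff.1 hb).2
      exact hb' (Finset.mem_image.2 ⟨q, hq, h⟩)
    · intro x hx1 hx2 hx3
      by_contra hcon
      have hxE : x ∈ E := by
        rw [hE, Finset.mem_sdiff, Finset.mem_Icc, Finset.mem_image]
        exact ⟨⟨hx1, hx2⟩, hcon⟩
      have h1 := Finset.min'_le E x hxE
      have h2 := Finset.le_max' E x hxE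
      omega
  obtain ⟨a, b, ha, hab, hb, hqa, hqb, hox⟩ := key (fun q => q.1)
  obtain ⟨c, d, hc0, hcd, hd, hqc, hqd, hoy⟩ := key (fun q => q.2)
  have hcard : (((Q.image (fun q : ℤ × ℤ => (q.1 - a, q.2 - c))).card : ℕ) : ℤ) = m := by
    rw [Finset.card_image_of_injective, hc]
    intro q q' h
    rw [Prod.mk.injEq] at h
    exact Prod.ext (by omega) (by omega)
  obtain ⟨X, Y, P, S, hbox⟩ := core2 m a c (b - a) (d - c)
    (Q.image (fun q : ℤ × ℤ => (q.1 - a, q.2 - c))) hm hcard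
    (by
      intro q hq
      obtain ⟨q', hq', rfl⟩ := Finset.mem_image.1 hq
      have := hr q' hq'
      refine ⟨?_, ?_, ?_, ?_⟩ <;> simp only <;> omega)
    (by
      intro x y hx1 hx2 hy1 hy2
      obtain ⟨q, hq, h⟩ := dom (x + a) (y + c) (by omega) (by omega) (by omega) (by omega)
      refine ⟨(q.1 - a, q.2 - c), Finset.mem_image.2 ⟨q, hq, rfl⟩, ?_⟩
      simp only
      omega)
    ha hc0 (by omega) (by omega) (by omega) (by omega)
    (by
      intro q hq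
      obtain ⟨q', hq', rfl⟩ := Finset.mem_image.1 hq
      have := hqa q' hq'
      simp only at this ⊢
      omega)
    (by
      intro q hq
      obtain ⟨q', hq', rfl⟩ := Finset.mem_image.1 hq
      have := hqb q' hq'
      simp only at this ⊢
      omega)
    (by
      intro q hq
      obtain ⟨q', hq', rfl⟩ := Finset.mem_image.1 hq
      have := hqc q' hq'
      simp only at this ⊢
      omega)
    (by
      intro q hq
      obtain ⟨q', hq', rfl⟩ := Finset.mem_image.1 hq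
      have := hqd q' hq'
      simp only at this ⊢
      omega)
    (by
      intro x hx1 hx2 hx3
      obtain ⟨q, hq, h⟩ := hox (x + a) (by omega) (by omega) (by omega)
      refine ⟨(q.1 - a, q.2 - c), Finset.mem_image.2 ⟨q, hq, rfl⟩, ?_⟩
      simp only at h ⊢
      omega)
    (by
      intro x hx1 hx2 hx3
      obtain ⟨q, hq, h⟩ := hoy (x + c) (by omega) (by omega) (by omega)
      refine ⟨(q.1 - a, q.2 - c), Finset.mem_image.2 ⟨q, hq, rfl⟩, ?_⟩
      simp only at h ⊢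
      omega)
  exact ⟨_, _, _, _, X, Y, P, S, hbox⟩

end Pool.Agent.W68h.QnT1h312

namespace Pool.Agent.W68h

open Pool.Agent.W68.Qn

theorem qnT1_helper312 : Pool.Agent.W68.Qn.T1 := by
  intro n D hn hD dom
  have hcard : (((D.image (fun p : Fin n × Fin n =>
      ((p.1.val : ℤ), (p.2.val : ℤ)))).card : ℕ) : ℤ) = (D.card : ℤ) := by
    rw [Finset.card_image_of_injective]
    intro p p' h
    rw [Prod.mk.injEq] at h
    exact Prod.ext (Fin.ext (by omega)) (Fin.ext (by omega))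
  obtain ⟨δ, α, γ, Q, X, Y, P, S, h⟩ := QnT1h312.core1 (D.card : ℤ)
    (D.image (fun p : Fin n × Fin n => ((p.1.val : ℤ), (p.2.val : ℤ)))) (by omega) hcard
    (by
      intro q hq
      obtain ⟨p, hp, rfl⟩ := Finset.mem_image.1 hq
      have h1 := p.1.isLt
      have h2 := p.2.isLt
      refine ⟨?_, ?_, ?_, ?_⟩ <;> simp only <;> omega)
    (by
      intro x y hx1 hx2 hy1 hy2
      obtain ⟨q, hq, h⟩ := dom (⟨x.toNat, by omega⟩, ⟨y.toNat, by omega⟩)
      refine ⟨((q.1.val : ℤ), (q.2.val : ℤ)), Finset.mem_image.2 ⟨q, hq, rfl⟩, ?_⟩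
      simp only at h ⊢
      rcases h with h | h | h | h
      · left
        have := congrArg Fin.val h
        simp only at this
        omega
      · right; left
        have := congrArg Fin.val h
        simp only at this
        omega
      · right; right; left
        omega
      · right; right; right
        omega)
  exact ⟨_, δ, α, γ, Q, X, Y, P, S, by omega, h⟩

end Pool.Agent.W68h
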