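import Mathlib
import Pool.Agent.W68.Qn.Defs

set_option autoImplicit false

namespace Pool.Agent.W68h.TL777

open Pool.Agent.W68.Qn

lemma sumsq (k : ℕ) : 3 * ∑ x ∈ Finset.Icc (-(k : ℤ)) k, x ^ 2 = (k : ℤ) * (k + 1) * (2 * k + 1) := by
  induction k with
  | zero => simp
  | succ k ih =>
    have h1 : Finset.Icc (-((k + 1 : ℕ) : ℤ)) ((k + 1 : ℕ) : ℤ) =
        insert ((k : ℤ) + 1) (insert (-((k : ℤ) + 1)) (Finset.Icc (-(k : ℤ)) k)) := by
      ext x
      simp only [Finset.mem_Icc, Finset.mem_insert]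
      push_cast
      omega
    rw [h1, Finset.sum_insert, Finset.sum_insert]
    · push_cast
      linear_combination ih
    · simp
    · simp only [Finset.mem_insert, Finset.mem_Icc]
      omega

lemma pm_sum {A : Finset ℤ} (hA0 : (0 : ℤ) ∈ A) (hA : ∀ a ∈ A, 0 ≤ a) :
    ∑ t ∈ pm A, t ^ 2 = 2 * ∑ a ∈ A, a ^ 2 := by
  have h1 : pm A = A ∪ (A.erase 0).image (fun a => -a) := by
    ext t
    simp only [pm, Finset.mem_union, Finset.mem_image, Finset.mem_erase]
    constructor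
    · rintro (h | ⟨a, ha, rfl⟩)
      · exact Or.inl h
      · by_cases h0 : a = 0
        · left; rw [h0, neg_zero]; exact hA0
        · right; exact ⟨a, ⟨h0, ha⟩, rfl⟩
    · rintro (h | ⟨a, ⟨-, ha⟩, rfl⟩)
      · exact Or.inl h
      · exact Or.inr ⟨a, ha, rfl⟩
  have hdis : Disjoint A ((A.erase 0).image (fun a => -a)) := by
    rw [Finset.disjoint_left]
    intro t ht ht2
    obtain ⟨a, ha, rfl⟩ := Finset.mem_image.1 ht2
    have h2 := hA _ ht
    have h3 := hA _ (Finset.mem_of_mem_erase ha)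
    have h4 := Finset.ne_of_mem_erase ha
    omega
  rw [h1, Finset.sum_union hdis, Finset.sum_image (fun a _ b _ h => neg_injective h)]
  rw [← Finset.add_sum_erase A (fun a => a ^ 2) hA0]
  simp only [neg_sq]
  ring

lemma pm_card {A : Finset ℤ} (hA0 : (0 : ℤ) ∈ A) (hA : ∀ a ∈ A, 0 ≤ a) :
    ((pm A).card : ℤ) = 2 * (A.card : ℤ) - 1 := by
  have h1 : pm A = A ∪ (A.erase 0).image (fun a => -a) := by
    ext t
    simp only [pm, Finset.mem_union, Finset.mem_image, Finset.mem_erase]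
    constructor
    · rintro (h | ⟨a, ha, rfl⟩)
      · exact Or.inl h
      · by_cases h0 : a = 0
        · left; rw [h0, neg_zero]; exact hA0
        · right; exact ⟨a, ⟨h0, ha⟩, rfl⟩
    · rintro (h | ⟨a, ⟨-, ha⟩, rfl⟩)
      · exact Or.inl h
      · exact Or.inr ⟨a, ha, rfl⟩
  have hdis : Disjoint A ((A.erase 0).image (fun a => -a)) := by
    rw [Finset.disjoint_left]
    intro t ht ht2
    obtain ⟨a, ha, rfl⟩ := Finset.mem_image.1 ht2
    have h2 := hA _ ht
    have h3 := hA _ (Finset.mem_of_mem_erase ha)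
    have h4 := Finset.ne_of_mem_erase ha
    omega
  rw [h1, Finset.card_union_of_disjoint hdis, Finset.card_image_of_injective _ neg_injective,
    Finset.card_erase_of_mem hA0]
  have : 0 < A.card := Finset.card_pos.2 ⟨0, hA0⟩
  omega

lemma occ_split {m h : ℤ} {A : Finset ℤ} (hA : ∀ a ∈ A, 0 ≤ a ∧ a < 2 * h)
    (hdis : ∀ a ∈ A, 2 * h - a ∉ A) (hh : h ≤ m) :
    Disjoint (A.image (fun a => a - h)) (A.image (fun a => h - a)) ∧
    Disjoint (occ m h A) (A.image (fun a => a - h) ∪ A.image (fun a => h - a)) ∧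
    occ m h A ∪ (A.image (fun a => a - h) ∪ A.image (fun a => h - a)) = Finset.Icc (-m) m := by
  refine ⟨?_, ?_, ?_⟩
  · rw [Finset.disjoint_left]
    intro t ht ht2
    obtain ⟨a, ha, rfl⟩ := Finset.mem_image.1 ht
    obtain ⟨b, hb, hab⟩ := Finset.mem_image.1 ht2
    have : 2 * h - a = b := by linarith
    exact hdis a ha (this ▸ hb)
  · rw [Finset.disjoint_left]
    intro t ht ht2
    rw [occ, Finset.mem_filter] at ht
    rcases Finset.mem_union.1 ht2 with h1 | h1
    · obtain ⟨a, ha, rfl⟩ := Finset.mem_image.1 h1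
      apply ht.2.1
      have : h + (a - h) = a := by ring
      rw [this]; exact ha
    · obtain ⟨a, ha, rfl⟩ := Finset.mem_image.1 h1
      apply ht.2.2
      have : h - (h - a) = a := by ring
      rw [this]; exact ha
  · ext t
    simp only [occ, Finset.mem_union, Finset.mem_filter, Finset.mem_image, Finset.mem_Icc]
    constructor
    · rintro (⟨h1, -⟩ | ⟨a, ha, rfl⟩ | ⟨a, ha, rfl⟩)
      · exact h1
      · have := hA a ha; omega
      · have := hA a ha; omega
    · intro h1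
      by_cases h2 : h + t ∈ A
      · right; left; exact ⟨h + t, h2, by ring⟩
      · by_cases h3 : h - t ∈ A
        · right; right; exact ⟨h - t, h3, by ring⟩
        · left; exact ⟨h1, h2, h3⟩

theorem tl : Pool.Agent.W68.Qn.TL := by
  intro m h A Q hC
  have hA : ∀ a ∈ A, 0 ≤ a ∧ a < 2 * h := hC.sh.rng
  have hA' : ∀ a ∈ A, 0 ≤ a := fun a ha => (hA a ha).1
  obtain ⟨d1, d2, hU⟩ := occ_split hA hC.sh.dis hC.hh
  have inj1 : Function.Injective (fun a : ℤ => a - h) := fun a b hab => by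
    have : a - h = b - h := hab
    omega
  have inj2 : Function.Injective (fun a : ℤ => h - a) := fun a b hab => by
    have : h - a = h - b := hab
    omega
  have hcU := congrArg Finset.card hU
  rw [Finset.card_union_of_disjoint d2, Finset.card_union_of_disjoint d1,
    Finset.card_image_of_injective _ inj1, Finset.card_image_of_injective _ inj2,
    Int.card_Icc] at hcU
  have hm := hC.hm
  have hocc : (occ m h A).card = Q.card := by
    have h1 := hC.Ac
    have h2 := hC.Qc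
    omega
  have hpm : (pm A).card = Q.card := by
    have h1 := hC.Ac
    have h2 := hC.Qc
    have h3 := pm_card hC.sh.A0 hA'
    omega
  have ix : Set.InjOn (Prod.fst : ℤ × ℤ → ℤ) (Q : Set (ℤ × ℤ)) := by
    rw [← Finset.card_image_iff, hC.qx, hocc]
  have iy : Set.InjOn (Prod.snd : ℤ × ℤ → ℤ) (Q : Set (ℤ × ℤ)) := by
    rw [← Finset.card_image_iff, hC.qy, hocc]
  have it : Set.InjOn (fun q : ℤ × ℤ => q.2 - q.1) (Q : Set (ℤ × ℤ)) := by
    rw [← Finset.card_image_iff, hC.qt, hpm]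
  have is : Set.InjOn (fun q : ℤ × ℤ => q.1 + q.2) (Q : Set (ℤ × ℤ)) := by
    rw [← Finset.card_image_iff, hC.qs, hpm]
  have sx : ∑ q ∈ Q, q.1 ^ 2 = ∑ x ∈ occ m h A, x ^ 2 := by
    rw [← hC.qx, Finset.sum_image ix]
  have sy : ∑ q ∈ Q, q.2 ^ 2 = ∑ x ∈ occ m h A, x ^ 2 := by
    rw [← hC.qy, Finset.sum_image iy]
  have st : ∑ q ∈ Q, (q.2 - q.1) ^ 2 = 2 * ∑ a ∈ A, a ^ 2 := by
    rw [← pm_sum hC.sh.A0 hA', ← hC.qt, Finset.sum_image it]
  have ss : ∑ q ∈ Q, (q.1 + q.2) ^ 2 = 2 * ∑ a ∈ A, a ^ 2 := by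
    rw [← pm_sum hC.sh.A0 hA', ← hC.qs, Finset.sum_image is]
  have hpar : ∑ q ∈ Q, (q.2 - q.1) ^ 2 + ∑ q ∈ Q, (q.1 + q.2) ^ 2 =
      2 * ∑ q ∈ Q, q.1 ^ 2 + 2 * ∑ q ∈ Q, q.2 ^ 2 := by
    rw [Finset.mul_sum, Finset.mul_sum, ← Finset.sum_add_distrib, ← Finset.sum_add_distrib]
    refine Finset.sum_congr rfl fun q _ => ?_
    ring
  have hsU : ∑ x ∈ occ m h A, x ^ 2 + (∑ a ∈ A, (a - h) ^ 2 + ∑ a ∈ A, (h - a) ^ 2) =
      ∑ x ∈ Finset.Icc (-m) m, x ^ 2 := by
    rw [← hU, Finset.sum_union d2, Finset.sum_union d1,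
      Finset.sum_image (fun a _ b _ hab => inj1 hab), Finset.sum_image (fun a _ b _ hab => inj2 hab)]
  have hsq : 3 * ∑ x ∈ Finset.Icc (-m) m, x ^ 2 = m * (m + 1) * (2 * m + 1) := by
    have h1 := sumsq m.toNat
    have h2 : ((m.toNat : ℕ) : ℤ) = m := Int.toNat_of_nonneg (by omega)
    rw [h2] at h1
    exact h1
  have hsym : ∑ a ∈ A, (a - h) ^ 2 = ∑ a ∈ A, (h - a) ^ 2 :=
    Finset.sum_congr rfl fun a _ => by ring
  rw [Finset.sum_add_distrib, ← Finset.mul_sum]
  rw [st, ss, sx, sy] at hpar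
  rw [hsym] at hsU
  linarith

end Pool.Agent.W68h.TL777
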