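import Mathlib
import Pool.Agent.W68.Qn.Defs
import Pool.Agent.W68h.Qn_TL_777

set_option autoImplicit false

namespace Pool.Agent.W68h.T3777

open Pool.Agent.W68.Qn Pool.Agent.W68h.TL777

/-- the sum of `2x - δ` over an interval of integers -/
lemma sum_lin (a δ : ℤ) (k : ℕ) : ∑ x ∈ Finset.Icc a (a + k), (2 * x - δ) =
    ((k : ℤ) + 1) * (2 * a + k - δ) := by
  induction k with
  | zero => simp
  | succ k ih =>
    have h1 : Finset.Icc a (a + ((k + 1 : ℕ) : ℤ)) = insert (a + (k : ℤ) + 1)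
        (Finset.Icc a (a + k)) := by
      ext x
      simp only [Finset.mem_Icc, Finset.mem_insert]
      push_cast
      omega
    rw [h1, Finset.sum_insert, ih]
    · push_cast
      ring
    · simp only [Finset.mem_Icc]
      omega

lemma sum_sym (S : Finset ℤ) (δ : ℤ) (hS : ∀ z ∈ S, δ - z ∈ S) : ∑ z ∈ S, (2 * z - δ) = 0 := by
  have h1 : S.image (fun z => δ - z) = S := by
    ext z
    rw [Finset.mem_image]
    constructor
    · rintro ⟨w, hw, rfl⟩; exact hS w hw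
    · intro hz; exact ⟨δ - z, hS z hz, by ring⟩
  have h2 : ∑ z ∈ S, (2 * z - δ) = ∑ z ∈ S, (2 * (δ - z) - δ) := by
    conv_lhs => rw [← h1]
    rw [Finset.sum_image]
    intro a _ b _ hab
    have : δ - a = δ - b := hab
    omega
  have h3 : ∑ z ∈ S, (2 * (δ - z) - δ) = - ∑ z ∈ S, (2 * z - δ) := by
    rw [← Finset.sum_neg_distrib]
    exact Finset.sum_congr rfl fun z _ => by ring
  rw [h3] at h2
  omega

/-- the position of the box -/
lemma pos {m δ α : ℤ} {Q : Finset (ℤ × ℤ)} {X : Finset ℤ} (f : ℤ × ℤ → ℤ) (hm : 1 ≤ m)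
    (hX : X = (Finset.Icc (-α) (2 * m - α)) \ Q.image f)
    (hQr : ∀ q ∈ Q, -α ≤ f q ∧ f q ≤ 2 * m - α) (hinj : Set.InjOn f (Q : Set (ℤ × ℤ)))
    (hXs : ∀ z ∈ X, δ - z ∈ X) (hQs : ∑ q ∈ Q, (2 * f q - δ) = 0) : δ = 2 * (m - α) := by
  have hsub : Q.image f ⊆ Finset.Icc (-α) (2 * m - α) := by
    intro x hx
    obtain ⟨q, hq, rfl⟩ := Finset.mem_image.1 hx
    exact Finset.mem_Icc.2 (hQr q hq)
  have h1 : ∑ x ∈ Finset.Icc (-α) (2 * m - α), (2 * x - δ) = 0 := by
    rw [← Finset.sum_sdiff hsub, ← hX, sum_sym X δ hXs, Finset.sum_image hinj, hQs, add_zero]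
  have h2 := sum_lin (-α) δ (2 * m).toNat
  have h3 : (((2 * m).toNat : ℕ) : ℤ) = 2 * m := Int.toNat_of_nonneg (by omega)
  rw [h3] at h2
  have h4 : -α + 2 * m = 2 * m - α := by ring
  rw [h4, h1] at h2
  have h5 : (2 * m + 1) * (2 * -α + 2 * m - δ) = 0 := h2.symm
  rcases mul_eq_zero.1 h5 with h | h
  · omega
  · omega

theorem t3 : Pool.Agent.W68.Qn.T3 := by
  intro m δ α γ Q X Y P S hB hPs hPS
  have hSP : ∀ z : ℤ, z ∈ S ↔ z - δ ∈ P := by
    intro z
    rw [hPS (z - δ)]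
    have : δ + (z - δ) = z := by ring
    rw [this]
  have hPn : ∀ z : ℤ, -z ∈ P ↔ z ∈ P := by
    intro z
    constructor
    · intro h
      have := hPs _ h
      rwa [neg_neg] at this
    · exact hPs z
  have hPn' : ∀ z w : ℤ, w = -z → (z ∈ P ↔ w ∈ P) := by
    rintro z w rfl
    exact (hPn z).symm
  have hXe : ∀ z : ℤ, 0 ≤ z → z ≤ δ → (z ∈ X ↔ (z ∈ P ∨ δ - z ∈ P)) := by
    intro z h1 h2
    rw [(hB.eB z h1 h2).1, hPn, hSP, hPn' (z - δ) (δ - z) (by ring)]
  have hYe : ∀ z : ℤ, 0 ≤ z → z ≤ δ → (z ∈ Y ↔ (z ∈ P ∨ δ - z ∈ P)) := by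
    intro z h1 h2
    rw [(hB.eL z h1 h2).1, hSP, hPn' (z - δ) (δ - z) (by ring)]
  have hex : ∀ z : ℤ, 0 ≤ z → z ≤ δ → ¬ (z ∈ P ∧ δ - z ∈ P) := by
    intro z h1 h2 h3
    apply (hB.eL z h1 h2).2
    rw [hSP, hPn' (z - δ) (δ - z) (by ring)]
    exact h3
  have hXs : ∀ z ∈ X, δ - z ∈ X := by
    intro z hz
    have h1 := hB.Xr z hz
    rw [hXe z h1.1 h1.2] at hz
    rw [hXe (δ - z) (by omega) (by omega)]
    have : δ - (δ - z) = z := by ring
    rw [this]
    exact hz.symm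
  have hYs : ∀ z ∈ Y, δ - z ∈ Y := by
    intro z hz
    have h1 := hB.Yr z hz
    rw [hYe z h1.1 h1.2] at hz
    rw [hYe (δ - z) (by omega) (by omega)]
    have : δ - (δ - z) = z := by ring
    rw [this]
    exact hz.symm
  -- sums over queens
  have sP : ∑ t ∈ P, t = 0 := by
    have h1 := sum_sym P 0 (fun z hz => by rw [zero_sub]; exact hPs z hz)
    have h2 : ∑ z ∈ P, (2 * z - 0) = 2 * ∑ z ∈ P, z := by
      rw [Finset.mul_sum]; exact Finset.sum_congr rfl fun z _ => by ring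
    omega
  have hSimg : S = P.image (fun t => δ + t) := by
    ext z
    rw [hSP, Finset.mem_image]
    constructor
    · intro h; exact ⟨z - δ, h, by ring⟩
    · rintro ⟨t, ht, rfl⟩
      have : δ + t - δ = t := by ring
      rw [this]; exact ht
  have qt : ∑ q ∈ Q, (q.2 - q.1) = 0 := by
    rw [← sP, hB.hP, Finset.sum_image hB.it]
  have sS : ∑ s ∈ S, s = δ * (P.card : ℤ) := by
    rw [hSimg, Finset.sum_image (fun a _ b _ hab => by
      have : δ + a = δ + b := hab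
      omega), Finset.sum_add_distrib, sP, Finset.sum_const, nsmul_eq_mul, add_zero, mul_comm]
  have hPc : (P.card : ℤ) = m := by
    rw [hB.hP, Finset.card_image_of_injOn hB.it]
    exact hB.Qc
  have qs : ∑ q ∈ Q, (q.1 + q.2) = δ * m := by
    rw [← hPc, ← sS, hB.hS, Finset.sum_image hB.is]
  have hQc := hB.Qc
  have eqx : ∑ q ∈ Q, (2 * q.1 - δ) = 0 := by
    have h1 : ∑ q ∈ Q, (2 * q.1 - δ) = ∑ q ∈ Q, (q.1 + q.2) - ∑ q ∈ Q, (q.2 - q.1) -
        (Q.card : ℤ) * δ := by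
      rw [← Finset.sum_sub_distrib, ← nsmul_eq_mul, ← Finset.sum_const, ← Finset.sum_sub_distrib]
      exact Finset.sum_congr rfl fun q _ => by ring
    rw [h1, qs, qt, hQc]
    ring
  have eqy : ∑ q ∈ Q, (2 * q.2 - δ) = 0 := by
    have h1 : ∑ q ∈ Q, (2 * q.2 - δ) = ∑ q ∈ Q, (q.1 + q.2) + ∑ q ∈ Q, (q.2 - q.1) -
        (Q.card : ℤ) * δ := by
      rw [← Finset.sum_add_distrib, ← nsmul_eq_mul, ← Finset.sum_const, ← Finset.sum_sub_distrib]
      exact Finset.sum_congr rfl fun q _ => by ring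
    rw [h1, qs, qt, hQc]
    ring
  have hδα : δ = 2 * (m - α) := pos (fun q => q.1) hB.hm hB.hX
    (fun q hq => ⟨(hB.Qr q hq).1, (hB.Qr q hq).2.1⟩) hB.ix hXs eqx
  have hδγ : δ = 2 * (m - γ) := pos (fun q => q.2) hB.hm hB.hY
    (fun q hq => ⟨(hB.Qr q hq).2.2.1, (hB.Qr q hq).2.2.2⟩) hB.iy hYs eqy
  have hαγ : α = γ := by omega
  subst hαγ
  set h : ℤ := m - α with hh
  have hδ2 : δ = 2 * h := hδα
  set A : Finset ℤ := P.filter (fun a => 0 ≤ a) with hAdef
  have memA : ∀ a : ℤ, a ∈ A ↔ a ∈ P ∧ 0 ≤ a := by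
    intro a; rw [hAdef, Finset.mem_filter]
  have hPA : P = pm A := by
    ext t
    simp only [pm, Finset.mem_union, Finset.mem_image, memA]
    constructor
    · intro ht
      by_cases h0 : 0 ≤ t
      · exact Or.inl ⟨ht, h0⟩
      · exact Or.inr ⟨-t, ⟨hPs t ht, by omega⟩, by ring⟩
    · rintro (⟨ht, -⟩ | ⟨a, ⟨ha, -⟩, rfl⟩)
      · exact ht
      · exact hPs a ha
  have h0P : (0 : ℤ) ∈ P := by
    have h1 := (hXe 0 le_rfl (by have := hB.hδ; omega)).1 hB.x0
    rcases h1 with h1 | h1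
    · exact h1
    · exfalso
      have := (hB.Pr _ h1).2
      omega
  have hA0 : (0 : ℤ) ∈ A := (memA 0).2 ⟨h0P, le_rfl⟩
  have hArng : ∀ a ∈ A, 0 ≤ a ∧ a < 2 * h := by
    intro a ha
    have h1 := (memA a).1 ha
    have h2 := (hB.Pr a h1.1).2
    exact ⟨h1.2, by omega⟩
  have hAdis : ∀ a ∈ A, 2 * h - a ∉ A := by
    intro a ha h1
    have h2 := (memA a).1 ha
    have h3 := (memA _).1 h1
    have h4 := hArng a ha
    apply hex a h4.1 (by omega)
    rw [hδ2]
    exact ⟨h2.1, h3.1⟩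
  have hAc : 2 * (A.card : ℤ) = m + 1 := by
    have h1 := pm_card hA0 (fun a ha => (hArng a ha).1)
    rw [← hPA, hPc] at h1
    omega
  have hXm : ∀ z : ℤ, z ∈ X ↔ (z ∈ A ∨ 2 * h - z ∈ A) := by
    intro z
    constructor
    · intro hz
      have h1 := hB.Xr z hz
      rcases (hXe z h1.1 h1.2).1 hz with h2 | h2
      · exact Or.inl ((memA z).2 ⟨h2, h1.1⟩)
      · right
        rw [← hδ2]
        exact (memA _).2 ⟨h2, by omega⟩
    · intro hz
      have hr : 0 ≤ z ∧ z ≤ δ := by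
        rcases hz with h2 | h2
        · have := hArng _ h2; omega
        · have := hArng _ h2; omega
      rw [hXe z hr.1 hr.2]
      rcases hz with h2 | h2
      · exact Or.inl ((memA z).1 h2).1
      · right; rw [hδ2]; exact ((memA _).1 h2).1
  have hYm : ∀ z : ℤ, z ∈ Y ↔ (z ∈ A ∨ 2 * h - z ∈ A) := by
    intro z
    rw [← hXm z]
    constructor
    · intro hz
      have h1 := hB.Yr z hz
      rw [hXe z h1.1 h1.2, ← hYe z h1.1 h1.2]; exact hz
    · intro hz
      have h1 := hB.Xr z hz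
      rw [hYe z h1.1 h1.2, ← hXe z h1.1 h1.2]; exact hz
  have hα0 := hB.hα
  have hm := hB.hm
  have hδ1 := hB.hδ
  -- counting lines outside
  have hXcard : (X.card : ℤ) ≤ 2 * h + 1 := by
    have h1 : X ⊆ Finset.Icc 0 δ := fun z hz => Finset.mem_Icc.2 (hB.Xr z hz)
    have h2 := Finset.card_le_card h1
    rw [Int.card_Icc] at h2
    omega
  have hm3 : 3 * m ≤ 4 * h := by
    -- queens with column outside `[0, δ]`
    have key : ∀ (f : ℤ × ℤ → ℤ) (Z : Finset ℤ),
        Z = (Finset.Icc (-α) (2 * m - α)) \ Q.image f → (∀ z ∈ Z, 0 ≤ z ∧ z ≤ δ) →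
        2 * m - 2 * h ≤ ((Q.filter (fun q => ¬ (0 ≤ f q ∧ f q ≤ δ))).card : ℤ) := by
      intro f Z hZ hZr
      have h1 : (Finset.Icc (-α) (2 * m - α)) \ (Finset.Icc 0 δ) ⊆
          (Q.filter (fun q => ¬ (0 ≤ f q ∧ f q ≤ δ))).image f := by
        intro z hz
        rw [Finset.mem_sdiff] at hz
        have hzZ : z ∉ Z := fun hzZ => hz.2 (Finset.mem_Icc.2 (hZr z hzZ))
        rw [hZ, Finset.mem_sdiff, not_and_not_right] at hzZ
        obtain ⟨q, hq, hqz⟩ := Finset.mem_image.1 (hzZ hz.1)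
        refine Finset.mem_image.2 ⟨q, Finset.mem_filter.2 ⟨hq, ?_⟩, hqz⟩
        rw [hqz, ← Finset.mem_Icc]
        exact hz.2
      have h2 := (Finset.card_le_card h1).trans Finset.card_image_le
      have h3 : Finset.Icc 0 δ ⊆ Finset.Icc (-α) (2 * m - α) :=
        Finset.Icc_subset_Icc (by omega) (by omega)
      rw [Finset.card_sdiff_of_subset h3, Int.card_Icc, Int.card_Icc] at h2
      omega
    have k1 := key (fun q => q.1) X hB.hX hB.Xr
    have k2 := key (fun q => q.2) Y hB.hY hB.Yr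
    have hd : Disjoint (Q.filter (fun q => ¬ (0 ≤ q.1 ∧ q.1 ≤ δ)))
        (Q.filter (fun q => ¬ (0 ≤ q.2 ∧ q.2 ≤ δ))) := by
      rw [Finset.disjoint_left]
      intro q h1 h2
      rw [Finset.mem_filter] at h1 h2
      have ht := hB.Pr (q.2 - q.1) (by rw [hB.hP]; exact Finset.mem_image.2 ⟨q, h1.1, rfl⟩)
      have hs := hB.Sr (q.1 + q.2) (by rw [hB.hS]; exact Finset.mem_image.2 ⟨q, h1.1, rfl⟩)
      have h3 := h1.2
      have h4 := h2.2
      omega
    have h5 : ((Q.filter (fun q => ¬ (0 ≤ q.1 ∧ q.1 ≤ δ))).card : ℤ) +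
        ((Q.filter (fun q => ¬ (0 ≤ q.2 ∧ q.2 ≤ δ))).card : ℤ) ≤ m := by
      rw [← hQc]
      have h6 := Finset.card_union_of_disjoint hd
      have h7 := Finset.card_le_card (Finset.union_subset
        (Finset.filter_subset (fun q : ℤ × ℤ => ¬ (0 ≤ q.1 ∧ q.1 ≤ δ)) Q)
        (Finset.filter_subset (fun q : ℤ × ℤ => ¬ (0 ≤ q.2 ∧ q.2 ≤ δ)) Q))
      omega
    have k1' : 2 * m - 2 * h ≤ ((Q.filter (fun q => ¬ (0 ≤ q.1 ∧ q.1 ≤ δ))).card : ℤ) := k1
    have k2' : 2 * m - 2 * h ≤ ((Q.filter (fun q => ¬ (0 ≤ q.2 ∧ q.2 ≤ δ))).card : ℤ) := k2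
    omega
  have imgf : ∀ (f : ℤ × ℤ → ℤ) (Z : Finset ℤ), (∀ q ∈ Q, -α ≤ f q ∧ f q ≤ 2 * m - α) →
      Z = (Finset.Icc (-α) (2 * m - α)) \ Q.image f → (∀ z, z ∈ Z ↔ (z ∈ A ∨ 2 * h - z ∈ A)) →
      Q.image (fun q => f q - h) = occ m h A := by
    intro f Z hfr hZ hZm
    ext x
    rw [Finset.mem_image, occ, Finset.mem_filter, Finset.mem_Icc]
    constructor
    · rintro ⟨q, hq, rfl⟩
      have h1 := hfr q hq
      have h2 : f q ∉ Z := by
        rw [hZ, Finset.mem_sdiff, not_and_not_right]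
        intro _
        exact Finset.mem_image.2 ⟨q, hq, rfl⟩
      rw [hZm, not_or] at h2
      refine ⟨by omega, ?_, ?_⟩
      · have : h + (f q - h) = f q := by ring
        rw [this]; exact h2.1
      · have : h - (f q - h) = 2 * h - f q := by ring
        rw [this]; exact h2.2
    · rintro ⟨h1, h2, h3⟩
      have h4 : h + x ∉ Z := by
        rw [hZm, not_or]
        refine ⟨h2, ?_⟩
        have : 2 * h - (h + x) = h - x := by ring
        rw [this]; exact h3
      rw [hZ, Finset.mem_sdiff, not_and_not_right] at h4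
      obtain ⟨q, hq, hqz⟩ := Finset.mem_image.1 (h4 (Finset.mem_Icc.2 (by omega)))
      exact ⟨q, hq, by rw [hqz]; ring⟩
  refine ⟨h, A, Q.image (fun q => (q.1 - h, q.2 - h)), ?_⟩
  have hshift : Function.Injective (fun q : ℤ × ℤ => (q.1 - h, q.2 - h)) := by
    intro a b hab
    have h1 : a.1 - h = b.1 - h := congrArg Prod.fst hab
    have h2 : a.2 - h = b.2 - h := congrArg Prod.snd hab
    exact Prod.ext (by omega) (by omega)
  refine
    { hm := hm
      hh := by omega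
      hm3 := hm3
      sh := { A0 := hA0, rng := hArng, dis := hAdis, big := by omega, cov := ?_ }
      Ac := hAc
      Qc := by rw [Finset.card_image_of_injective _ hshift]; exact hQc
      qx := ?_
      qy := ?_
      qt := ?_
      qs := ?_ }
  · intro a ha b hb
    rcases hB.cov a ((hXm a).2 (Or.inl ha)) b ((hYm b).2 (Or.inl hb)) with h1 | h1
    · left
      rw [memA]
      refine ⟨?_, abs_nonneg _⟩
      rcases abs_choice (a - b) with h2 | h2
      · rw [h2, hPn' (a - b) (b - a) (by ring)]; exact h1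
      · rw [h2]
        have : -(a - b) = b - a := by ring
        rw [this]; exact h1
    · right
      rw [hSP] at h1
      rw [memA]
      refine ⟨?_, abs_nonneg _⟩
      rcases abs_choice (2 * h - a - b) with h2 | h2
      · rw [h2, hPn' (2 * h - a - b) (a + b - δ) (by rw [hδ2]; ring)]; exact h1
      · rw [h2]
        have : -(2 * h - a - b) = a + b - δ := by rw [hδ2]; ring
        rw [this]; exact h1
  · rw [Finset.image_image]
    exact imgf (fun q => q.1) X (fun q hq => ⟨(hB.Qr q hq).1, (hB.Qr q hq).2.1⟩) hB.hX hXm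
  · rw [Finset.image_image]
    exact imgf (fun q => q.2) Y (fun q hq => ⟨(hB.Qr q hq).2.2.1, (hB.Qr q hq).2.2.2⟩) hB.hY hYm
  · rw [Finset.image_image, ← hPA, hB.hP]
    refine Finset.image_congr fun q _ => ?_
    simp only [Function.comp_apply]
    ring
  · rw [Finset.image_image, ← hPA]
    ext t
    rw [Finset.mem_image]
    constructor
    · rintro ⟨q, hq, rfl⟩
      simp only [Function.comp_apply]
      have h1 : q.1 + q.2 ∈ S := by rw [hB.hS]; exact Finset.mem_image.2 ⟨q, hq, rfl⟩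
      rw [hSP] at h1
      have : q.1 - h + (q.2 - h) = q.1 + q.2 - δ := by rw [hδ2]; ring
      rw [this]; exact h1
    · intro ht
      rw [hPS t, hB.hS] at ht
      obtain ⟨q, hq, hqt⟩ := Finset.mem_image.1 ht
      refine ⟨q, hq, ?_⟩
      simp only [Function.comp_apply]
      omega

end Pool.Agent.W68h.T3777
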