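import Pool.Agent.W68.Qn.Defs

set_option autoImplicit false

namespace Pool.Agent.W68h.Qn703

structure Ctx (h e b : ℤ) (R : ℤ → Prop) : Prop where
  r0 : R 0
  rng : ∀ z, R z → 0 ≤ z ∧ z < 2 * h
  dis : ∀ z, R z → ¬ R (2 * h - z)
  e0 : 0 < e
  eb : e < b
  bh : b < h
  xe : R e ∨ R (2 * h - e)
  n1 : ¬ R (2 * e)
  n2 : ¬ R (2 * h - 2 * e)
  low : ∀ z, (R z ∨ R (2 * h - z)) → z = 0 ∨ z = e ∨ b ≤ z
  xb : R b ∨ R (2 * h - b)
  cov : ∀ x y, R x → R y → R |x - y| ∨ R |2 * h - x - y|

variable {h e b : ℤ} {R : ℤ → Prop}

theorem Ctx.high (C : Ctx h e b R) (z : ℤ) (hz : R z ∨ R (2 * h - z)) :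
    z = 2 * h ∨ z = 2 * h - e ∨ z ≤ 2 * h - b := by
  have := C.low (2 * h - z) (by
    rcases hz with h1 | h1
    · right; rwa [sub_sub_cancel]
    · left; exact h1)
  omega

theorem Ctx.pair (C : Ctx h e b R) (x y : ℤ) (hx : R x ∨ R (2 * h - x))
    (hy : R y ∨ R (2 * h - y)) (hxy : x ≤ y) (hs : x + y ≤ 2 * h) :
    R (y - x) ∨ R (2 * h - (x + y)) := by
  rcases hx with hx | hx <;> rcases hy with hy | hy
  · have := C.cov x y hx hy
    rw [abs_sub_comm, abs_of_nonneg (by omega : 0 ≤ y - x),
      abs_of_nonneg (by omega : 0 ≤ 2 * h - x - y)] at this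
    rw [← sub_sub]; exact this
  · have := C.cov x (2 * h - y) hx hy
    rw [abs_sub_comm x, abs_of_nonneg (by omega : 0 ≤ 2 * h - y - x),
      show 2 * h - x - (2 * h - y) = y - x by ring, abs_of_nonneg (by omega : 0 ≤ y - x)] at this
    rw [show 2 * h - (x + y) = 2 * h - y - x by ring]; exact this.symm
  · have := C.cov (2 * h - x) y hx hy
    rw [abs_of_nonneg (by omega : 0 ≤ 2 * h - x - y),
      show 2 * h - (2 * h - x) - y = -(y - x) by ring, abs_neg,
      abs_of_nonneg (by omega : 0 ≤ y - x)] at this
    rw [← sub_sub]; exact this.symm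
  · have := C.cov (2 * h - x) (2 * h - y) hx hy
    rw [show 2 * h - x - (2 * h - y) = y - x by ring, abs_of_nonneg (by omega : 0 ≤ y - x),
      show 2 * h - (2 * h - x) - (2 * h - y) = -(2 * h - (x + y)) by ring, abs_neg,
      abs_of_nonneg (by omega : 0 ≤ 2 * h - (x + y))] at this
    exact this

theorem Ctx.BB (C : Ctx h e b R) (n : ℕ) : ∀ z : ℤ, 2 * h - z ≤ n → R (2 * h - z) →
    R (2 * h - (z + e)) → z + e < 2 * h → False := by
  have e0 := C.e0
  have eb := C.eb
  have bh := C.bh
  induction n with
  | zero => intro z hz h1 h2 h3; push_cast at hz; omega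
  | succ n ih =>
    intro z hz h1 h2 h3
    push_cast at hz
    have k1 := C.high (z + e) (Or.inr h2)
    have k0 := C.rng _ h1
    have k2 : z + 2 * e ≤ 2 * h := by omega
    rcases eq_or_lt_of_le k2 with k3 | k3
    · have : z = 2 * h - 2 * e := by omega
      subst this
      have := C.n1
      rw [sub_sub_cancel] at h1
      exact this h1
    · have h4 : R (z + e - e) ∨ R (2 * h - (e + (z + e))) :=
        C.pair e (z + e) C.xe (Or.inr h2) (by omega) (by omega)
      have h5 : R (2 * h - (z + e + e)) := by
        rcases h4 with h4 | h4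
        · rw [add_sub_cancel_right] at h4
          exact absurd h1 (C.dis _ h4)
        · rwa [show e + (z + e) = z + e + e by ring] at h4
      exact ih (z + e) (by omega) h2 h5 (by omega)

theorem Ctx.BB' (C : Ctx h e b R) (z : ℤ) (h1 : R (2 * h - z)) (h2 : R (2 * h - (z + e)))
    (h3 : z + e < 2 * h) : False := by
  have k0 := C.rng _ h1
  exact C.BB (2 * h - z).toNat z (by omega) h1 h2 h3

theorem Ctx.RR (C : Ctx h e b R) (z : ℤ) (h1 : R z) (h2 : R (z + e)) (h3 : 0 < z) : False := by
  refine C.BB' (2 * h - z - e) ?_ ?_ (by omega)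
  · rwa [show 2 * h - (2 * h - z - e) = z + e by ring]
  · rwa [show 2 * h - (2 * h - z - e + e) = z by ring]

theorem Ctx.upR (C : Ctx h e b R) (p : ℤ) (h1 : R p) (h2 : b ≤ p) (h3 : p ≤ 2 * h - b) :
    R (2 * h - (p + e)) ∧ p + e ≤ 2 * h - b := by
  have e0 := C.e0
  have eb := C.eb
  have bh := C.bh
  have h4 := C.pair e p C.xe (Or.inl h1) (by omega) (by omega)
  have h5 : R (2 * h - (p + e)) := by
    rcases h4 with h4 | h4
    · exact (C.RR (p - e) h4 (by rwa [sub_add_cancel]) (by omega)).elim
    · rwa [add_comm e p] at h4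
  refine ⟨h5, ?_⟩
  rcases C.high (p + e) (Or.inr h5) with h6 | h6 | h6
  · omega
  · exfalso
    have : p = 2 * h - 2 * e := by omega
    subst this
    exact C.n2 h1
  · exact h6

theorem Ctx.dnB (C : Ctx h e b R) (p : ℤ) (h1 : R (2 * h - p)) (h2 : b ≤ p) (h3 : p ≤ 2 * h - b) :
    R (p - e) ∧ b ≤ p - e := by
  have e0 := C.e0
  have eb := C.eb
  have bh := C.bh
  have h4 := C.upR (2 * h - p) h1 (by omega) (by omega)
  rw [show 2 * h - (2 * h - p + e) = p - e by ring] at h4
  exact ⟨h4.1, by omega⟩

theorem Ctx.rb (C : Ctx h e b R) : R b := by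
  have e0 := C.e0
  have bh := C.bh
  rcases C.xb with h1 | h1
  · exact h1
  · have := C.dnB b h1 le_rfl (by omega)
    omega

/-- The dichotomy. -/
theorem Ctx.dich (C : Ctx h e b R) (p q : ℤ) (hp : R p) (hq : R q) (bp : b ≤ p) (hpq : p ≤ q)
    (hs : p + q + 2 * e ≤ 2 * h) :
    R (q - p) ∨ (R (2 * h - (p + q)) ∧ R (2 * h - (p + q + 2 * e)) ∧ R (q - p + e) ∧
      R |q - p - e|) := by
  have e0 := C.e0
  have eb := C.eb
  have bh := C.bh
  have hqb : q ≤ 2 * h - b := by omega
  have hp' := (C.upR p hp bp (by omega)).1
  have hq' := (C.upR q hq (by omega) hqb).1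
  by_cases hR : R (q - p)
  · exact Or.inl hR
  right
  have a1 : R (2 * h - (p + q)) :=
    (C.pair p q (Or.inl hp) (Or.inl hq) hpq (by omega)).resolve_left hR
  have a2 : R (2 * h - (p + q + 2 * e)) := by
    have := (C.pair (p + e) (q + e) (Or.inr hp') (Or.inr hq') (by omega) (by omega)).resolve_left
      (by rwa [show q + e - (p + e) = q - p by ring])
    rwa [show p + e + (q + e) = p + q + 2 * e by ring] at this
  have a3 : ¬ R (2 * h - (p + q + e)) := fun h5 => C.BB' (p + q) a1 h5 (by omega)
  refine ⟨a1, a2, ?_, ?_⟩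
  · have := (C.pair p (q + e) (Or.inl hp) (Or.inr hq') (by omega) (by omega)).resolve_right
      (by rwa [show p + (q + e) = p + q + e by ring])
    rwa [show q + e - p = q - p + e by ring] at this
  · rcases le_total (p + e) q with h6 | h6
    · have := (C.pair (p + e) q (Or.inr hp') (Or.inl hq) h6 (by omega)).resolve_right
        (by rwa [show p + e + q = p + q + e by ring])
      rw [abs_of_nonneg (by omega)]
      rwa [show q - (p + e) = q - p - e by ring] at this
    · have := (C.pair q (p + e) (Or.inl hq) (Or.inr hp') h6 (by omega)).resolve_right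
        (by rwa [show q + (p + e) = p + q + e by ring])
      rw [abs_of_nonpos (by omega)]
      rwa [show p + e - q = -(q - p - e) by ring] at this

/-- Case A (and C without `5 e`): divisibility by `b`. -/
theorem Ctx.claim (C : Ctx h e b R) (h3e : b = 3 * e → ¬ R (5 * e)) (n : ℕ) :
    ∀ q : ℤ, q ≤ n → R q → b ≤ q → q ≤ 2 * h - b - 3 * e → b ∣ q := by
  have e0 := C.e0
  have eb := C.eb
  have bh := C.bh
  induction n with
  | zero => intro q h1 h2 h3 h4; push_cast at h1; omega
  | succ n ih =>
    intro q h1 h2 h3 h4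
    push_cast at h1
    have IH : ∀ r : ℤ, r < q → R r → b ≤ r → b ∣ r := fun r hr h5 h6 =>
      ih r (by omega) h5 h6 (by omega)
    rcases eq_or_lt_of_le h3 with h30 | h30
    · rw [← h30]
    rcases C.dich b q C.rb h2 le_rfl h3 (by omega) with h5 | ⟨h5, h6, h7, h8⟩
    · rcases C.low _ (Or.inl h5) with h9 | h9 | h9
      · rw [show q = b by omega]
      · exfalso
        have h10 := (C.upR b C.rb le_rfl (by omega)).1
        rw [show b + e = q by omega] at h10
        exact C.dis q h2 h10
      · have h11 := IH (q - b) (by omega) h5 h9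
        have := dvd_add h11 (dvd_refl b)
        rwa [sub_add_cancel] at this
    · exfalso
      rcases C.low _ (Or.inl h8) with h9 | h9 | h9
      · have h10 : q - b = e := by rw [abs_eq_zero] at h9; omega
        rw [h10] at h7
        apply C.n1
        rwa [two_mul]
      · have h10 : q - b = 2 * e := by
          rcases abs_cases (q - b - e) with h | h <;> omega
        have h11 : R (3 * e) := by
          rwa [h10, show 2 * e + e = 3 * e by ring] at h7
        have h12 : b ≤ 3 * e := by
          rcases C.low _ (Or.inl h11) with h | h | h <;> omega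
        have h13 : b ∣ 3 * e := IH (3 * e) (by omega) h11 h12
        obtain ⟨k, hk⟩ := h13
        have hk0 : 0 < k := by
          by_contra hcon
          push Not at hcon
          nlinarith
        have hk3 : k < 3 := by
          by_contra hcon
          push Not at hcon
          nlinarith
        have hk12 : k = 1 ∨ k = 2 := by omega
        rcases hk12 with rfl | rfl
        · have h14 : b = 3 * e := by omega
          apply h3e h14
          rwa [show q = 5 * e by omega] at h2
        · have h15 : R (b + b) := by rwa [show 3 * e = b + b by omega] at h11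
          have h16 := (C.upR (b + b) h15 (by omega) (by omega)).1
          have h17 : b + q ≤ 2 * h - b := by
            rcases C.high (b + q) (Or.inr h5) with h | h | h <;> omega
          have h18 := (C.dnB (b + q) h5 (by omega) h17).1
          rw [show b + q - e = b + b + e by omega] at h18
          exact C.dis _ h18 h16
      · have h10 : q - b - e = |q - b - e| := by
          rcases abs_cases (q - b - e) with h | h
          · omega
          · exfalso; omega
        rw [← h10] at h8 h9
        have k1 := IH (q - b - e) (by omega) h8 h9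
        have k2 := IH (q - b + e) (by omega) h7 (by omega)
        have k3 : b ∣ 2 * e := by
          have := dvd_sub k2 k1
          rwa [show q - b + e - (q - b - e) = 2 * e by ring] at this
        obtain ⟨k, hk⟩ := k3
        have hk0 : 0 < k := by
          by_contra hcon
          push Not at hcon
          nlinarith
        have hk3 : k < 2 := by
          by_contra hcon
          push Not at hcon
          nlinarith
        have hk1 : k = 1 := by omega
        subst hk1
        have := C.rb
        rw [show b = 2 * e by omega] at this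
        exact C.n1 this


/-- Case C: divisibility by `e`. -/
theorem Ctx.claimE (C : Ctx h e b R) (hb3 : b = 3 * e) (n : ℕ) :
    ∀ q : ℤ, q ≤ n → R q → b ≤ q → q ≤ 2 * h - b - 3 * e → e ∣ q := by
  have e0 := C.e0
  have eb := C.eb
  have bh := C.bh
  have eb' : e ∣ b := ⟨3, by omega⟩
  induction n with
  | zero => intro q h1 h2 h3 h4; push_cast at h1; omega
  | succ n ih =>
    intro q h1 h2 h3 h4
    push_cast at h1
    have IH : ∀ r : ℤ, r < q → R r → b ≤ r → e ∣ r := fun r hr h5 h6 =>
      ih r (by omega) h5 h6 (by omega)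
    rcases eq_or_lt_of_le h3 with h30 | h30
    · rw [← h30]; exact eb'
    rcases C.dich b q C.rb h2 le_rfl h3 (by omega) with h5 | ⟨h5, h6, h7, h8⟩
    · rcases C.low _ (Or.inl h5) with h9 | h9 | h9
      · omega
      · exact ⟨4, by omega⟩
      · have h11 := IH (q - b) (by omega) h5 h9
        have := dvd_add h11 eb'
        rwa [sub_add_cancel] at this
    · rcases C.low _ (Or.inl h8) with h9 | h9 | h9
      · have h10 : q - b = e := by rw [abs_eq_zero] at h9; omega
        exact ⟨4, by omega⟩
      · have h10 : q - b = 2 * e := by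
          rcases abs_cases (q - b - e) with h | h <;> omega
        exact ⟨5, by omega⟩
      · have h10 : q - b - e = |q - b - e| := by
          rcases abs_cases (q - b - e) with h | h
          · omega
          · exfalso; omega
        rw [← h10] at h8 h9
        have k1 := IH (q - b - e) (by omega) h8 h9
        have := dvd_add (dvd_add k1 eb') (dvd_refl e)
        rwa [show q - b - e + b + e = q by ring] at this

/-- Case B: red elements of the lower half are far apart. -/
theorem Ctx.far (C : Ctx h e b R) (hB : 2 * h < 2 * b + 5 * e) (p q : ℤ) (hp : R p) (hq : R q)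
    (bp : b ≤ p) (hpq : p < q) (h2q : 2 * q < 2 * h - e) : b ≤ q - p := by
  have e0 := C.e0
  have eb := C.eb
  have bh := C.bh
  by_contra hcon
  push Not at hcon
  have hqb : q ≤ 2 * h - b := by
    rcases C.high q (Or.inl hq) with h | h | h <;> omega
  have hp' := (C.upR p hp bp (by omega)).1
  have hde : q - p ≠ e := by
    intro h10
    refine C.RR p hp ?_ (by omega)
    rwa [show p + e = q by omega]
  have h5 : R (2 * h - (p + q)) := by
    refine (C.pair p q (Or.inl hp) (Or.inl hq) hpq.le (by omega)).resolve_left ?_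
    intro h5
    rcases C.low _ (Or.inl h5) with h9 | h9 | h9 <;> omega
  have h6 : R (2 * h - (p + q + e)) := by
    rcases le_total (p + e) q with h6 | h6
    · have := (C.pair (p + e) q (Or.inr hp') (Or.inl hq) h6 (by omega)).resolve_left (by
        intro h7
        rcases C.low _ (Or.inl h7) with h9 | h9 | h9 <;> omega)
      rwa [show p + e + q = p + q + e by ring] at this
    · have := (C.pair q (p + e) (Or.inl hq) (Or.inr hp') h6 (by omega)).resolve_left (by
        intro h7
        rcases C.low _ (Or.inl h7) with h9 | h9 | h9 <;> omega)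
      rwa [show q + (p + e) = p + q + e by ring] at this
  exact C.BB' (p + q) h5 h6 (by omega)

/-- Case C with `e = 1` and `5` red. -/
theorem Ctx.odd (C : Ctx h e b R) (he : e = 1) (hb : b = 3) (h5 : R 5) (n : ℕ) :
    2 * (n : ℤ) + 3 ≤ h + 1 → R (2 * (n : ℤ) + 3) := by
  induction n using Nat.strong_induction_on with
  | _ n ih =>
    intro hn
    have hrb : R 3 := by have := C.rb; rwa [hb] at this
    rcases Nat.eq_zero_or_pos n with h0 | h0
    · subst h0; simpa using hrb
    rcases Nat.eq_or_lt_of_le (show 1 ≤ n from h0) with h1 | h1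
    · subst h1; norm_num; exact h5
    have hq : R (2 * (n : ℤ) + 1) := by
      have := ih (n - 1) (by omega) (by push_cast [Nat.cast_sub h0]; omega)
      rwa [show 2 * ((n - 1 : ℕ) : ℤ) + 3 = 2 * (n : ℤ) + 1 by
        push_cast [Nat.cast_sub h0]; ring] at this
    have hd : ¬ R (2 * (n : ℤ) - 2) := by
      intro hd
      rcases Nat.eq_or_lt_of_le (show 2 ≤ n from h1) with h2 | h2
      · subst h2
        apply C.n1
        rw [he]
        norm_num at hd ⊢
        exact hd
      · have h3 := ih (n - 3) (by omega) (by omega)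
        have h4 : 2 * ((n - 3 : ℕ) : ℤ) + 3 = 2 * (n : ℤ) - 3 := by omega
        rw [h4] at h3
        refine C.RR _ h3 ?_ (by omega)
        rw [he, show 2 * (n : ℤ) - 3 + 1 = 2 * (n : ℤ) - 2 by ring]
        exact hd
    have h6 := C.dich 3 (2 * (n : ℤ) + 1) hrb hq (by omega) (by omega) (by omega)
    rw [show 2 * (n : ℤ) + 1 - 3 = 2 * (n : ℤ) - 2 by ring] at h6
    have h7 := (h6.resolve_left hd).1
    have h8 := (C.dnB (3 + (2 * (n : ℤ) + 1)) h7 (by omega) (by omega)).1
    rwa [show 3 + (2 * (n : ℤ) + 1) - e = 2 * (n : ℤ) + 3 by omega] at h8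


theorem Ctx.cases' (C : Ctx h e b R) (a : ℤ) (ha : R a) :
    a = 0 ∨ a = e ∨ a = 2 * h - e ∨ (b ≤ a ∧ a + e ≤ 2 * h - b) := by
  have e0 := C.e0
  have eb := C.eb
  have bh := C.bh
  have hr := C.rng a ha
  rcases C.low a (Or.inl ha) with h1 | h1 | h1
  · exact Or.inl h1
  · exact Or.inr (Or.inl h1)
  · rcases C.high a (Or.inl ha) with h2 | h2 | h2
    · omega
    · exact Or.inr (Or.inr (Or.inl h2))
    · exact Or.inr (Or.inr (Or.inr ⟨h1, (C.upR a ha h1 h2).2⟩))

theorem card_le_of_list (A : Finset ℤ) (l : List ℤ) (hl : ∀ a ∈ A, a ∈ l) : A.card ≤ l.length := by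
  calc A.card ≤ l.toFinset.card := Finset.card_le_card (fun a ha => by
        rw [List.mem_toFinset]; exact hl a ha)
    _ ≤ l.length := List.toFinset_card_le l

/-- Case B gives few elements. -/
theorem caseB (A : Finset ℤ) (C : Ctx h e b (· ∈ A)) (hB : 2 * h < 2 * b + 5 * e) :
    A.card ≤ 8 := by
  classical
  have e0 := C.e0
  have eb := C.eb
  have bh := C.bh
  have hrb : b ∈ A := C.rb
  set S1 := A.filter (fun p => 2 * b ≤ p ∧ 2 * p < 2 * h - e) with hS1
  set S2 := A.filter (fun p => p ≤ 2 * h - e - 2 * b ∧ 2 * h - e < 2 * p ∧ b ≤ p) with hS2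
  set S3 := A.filter (fun p => 2 * p = 2 * h - e) with hS3
  have hc0 : ∀ p q : ℤ, p ∈ A → q ∈ A → 2 * b ≤ p → p < q → 2 * q < 2 * h - e → False := by
    intro p q hp hq h1 h2 h3
    have := C.far hB p q hp hq (by omega) h2 h3
    omega
  have hc1 : S1.card ≤ 1 := by
    rw [Finset.card_le_one]
    intro p hp q hq
    rw [hS1, Finset.mem_filter] at hp hq
    rcases lt_trichotomy p q with h1 | h1 | h1
    · exact (hc0 p q hp.1 hq.1 hp.2.1 h1 hq.2.2).elim
    · exact h1
    · exact (hc0 q p hq.1 hp.1 hq.2.1 h1 hp.2.2).elim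
  have hrefl : ∀ p : ℤ, p ∈ A → b ≤ p → p ≤ 2 * h - b → 2 * h - e - p ∈ A := by
    intro p hp h1 h2
    have := (C.upR p hp h1 h2).1
    rwa [show 2 * h - (p + e) = 2 * h - e - p by ring] at this
  have hc2 : S2.card ≤ 1 := by
    rw [Finset.card_le_one]
    intro p hp q hq
    rw [hS2, Finset.mem_filter] at hp hq
    have hp' := hrefl p hp.1 hp.2.2.2 (by omega)
    have hq' := hrefl q hq.1 hq.2.2.2 (by omega)
    rcases lt_trichotomy p q with h1 | h1 | h1
    · exact (hc0 _ _ hq' hp' (by omega) (by omega) (by omega)).elim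
    · exact h1
    · exact (hc0 _ _ hp' hq' (by omega) (by omega) (by omega)).elim
  have hc3 : S3.card ≤ 1 := by
    rw [Finset.card_le_one]
    intro p hp q hq
    rw [hS3, Finset.mem_filter] at hp hq
    omega
  have hsub : A ⊆ ([0, e, 2 * h - e, b, 2 * h - e - b] : List ℤ).toFinset ∪ (S1 ∪ (S2 ∪ S3)) := by
    intro a ha
    simp only [Finset.mem_union, List.mem_toFinset, List.mem_cons, List.not_mem_nil, or_false]
    rw [hS1, hS2, hS3, Finset.mem_filter, Finset.mem_filter, Finset.mem_filter]
    rcases C.cases' a ha with h1 | h1 | h1 | ⟨h1, h2⟩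
    · left; left; exact h1
    · left; right; left; exact h1
    · left; right; right; left; exact h1
    · rcases lt_trichotomy (2 * a) (2 * h - e) with h3 | h3 | h3
      · rcases eq_or_lt_of_le h1 with h4 | h4
        · left; right; right; right; left; exact h4.symm
        · have := C.far hB b a hrb ha le_rfl h4 h3
          right; left; exact ⟨ha, by omega, h3⟩
      · right; right; right; exact ⟨ha, h3⟩
      · have ha' := hrefl a ha h1 (by omega)
        rcases eq_or_lt_of_le (show b ≤ 2 * h - e - a by omega) with h4 | h4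
        · left; right; right; right; right; omega
        · have := C.far hB b _ hrb ha' le_rfl h4 (by omega)
          right; right; left; exact ⟨ha, by omega, h3, h1⟩
  calc A.card ≤ (([0, e, 2 * h - e, b, 2 * h - e - b] : List ℤ).toFinset ∪ (S1 ∪ (S2 ∪ S3))).card :=
        Finset.card_le_card hsub
    _ ≤ 5 + (1 + (1 + 1)) := by
        refine (Finset.card_union_le _ _).trans (add_le_add (List.toFinset_card_le _) ?_)
        refine (Finset.card_union_le _ _).trans (add_le_add hc1 ?_)
        exact (Finset.card_union_le _ _).trans (add_le_add hc2 hc3)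
    _ = 8 := rfl

/-- Case A. -/
theorem caseA (A : Finset ℤ) (C : Ctx h e b (· ∈ A)) (hh : 16 ≤ h) (hbig : h + 1 ≤ 2 * (A.card : ℤ))
    (hA : 2 * b + 5 * e ≤ 2 * h) (h3e : b = 3 * e → ¬ (5 * e ∈ A)) :
    Pool.Agent.W68.Qn.Thirds h A := by
  classical
  have e0 := C.e0
  have eb := C.eb
  have bh := C.bh
  have hrefl : ∀ p : ℤ, p ∈ A → b ≤ p → p ≤ 2 * h - b → 2 * h - e - p ∈ A := by
    intro p hp h1 h2
    have := (C.upR p hp h1 h2).1
    rwa [show 2 * h - (p + e) = 2 * h - e - p by ring] at this
  have hcl : ∀ q ∈ A, b ≤ q → q ≤ 2 * h - b - 3 * e → b ∣ q := by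
    intro q hq h1 h2
    exact C.claim h3e q.toNat q (by omega) hq h1 h2
  have hcr : ∀ q ∈ A, b + 2 * e ≤ q → q + e ≤ 2 * h - b → b ∣ 2 * h - e - q := by
    intro q hq h1 h2
    exact hcl _ (hrefl q hq (by omega) (by omega)) (by omega) (by omega)
  by_cases hd : b ∣ 2 * h - e
  · have hall : ∀ a ∈ A, b ≤ a → a + e ≤ 2 * h - b → b ∣ a := by
      intro a ha h1 h2
      rcases le_or_gt a (2 * h - b - 3 * e) with h3 | h3
      · exact hcl a ha h1 h3
      · have := hcr a ha (by omega) h2
        have h4 := dvd_sub hd this
        rwa [show 2 * h - e - (2 * h - e - a) = a by ring] at h4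
    obtain ⟨N, hN⟩ := hd
    have hN0 : 0 < N := by
      by_contra hcon
      push Not at hcon
      nlinarith
    have hsub : A ⊆ ([0, e, 2 * h - e] : List ℤ).toFinset ∪
        (Finset.Icc 1 (N - 1)).image (fun k => b * k) := by
      intro a ha
      simp only [Finset.mem_union, List.mem_toFinset, List.mem_cons, List.not_mem_nil, or_false,
        Finset.mem_image, Finset.mem_Icc]
      rcases C.cases' a ha with h1 | h1 | h1 | ⟨h1, h2⟩
      · left; left; exact h1
      · left; right; left; exact h1
      · left; right; right; exact h1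
      · right
        obtain ⟨k, hk⟩ := hall a ha h1 h2
        refine ⟨k, ⟨?_, ?_⟩, hk.symm⟩
        · by_contra hcon
          push Not at hcon
          nlinarith
        · by_contra hcon
          push Not at hcon
          nlinarith
    have hcard : (A.card : ℤ) ≤ N + 2 := by
      have h1 : A.card ≤ 3 + (N - 1 + 1 - 1).toNat := by
        refine (Finset.card_le_card hsub).trans ((Finset.card_union_le _ _).trans
          (add_le_add (List.toFinset_card_le _) (Finset.card_image_le.trans ?_)))
        rw [Int.card_Icc]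
      omega
    have hb5 : b < 5 := by
      by_contra hcon
      push Not at hcon
      nlinarith
    have hb3 : b = 3 ∧ 3 ∣ 2 * h - e ∧ ¬ (3 ∣ h) := by
      have hb2 : 2 ≤ b := by omega
      interval_cases b
      · exfalso
        have : e = 1 := by omega
        subst this
        exact C.n1 C.rb
      · have : e = 1 ∨ e = 2 := by omega
        rcases this with rfl | rfl <;> omega
      · exfalso
        have : e = 1 ∨ e = 2 ∨ e = 3 := by omega
        rcases this with rfl | rfl | rfl
        · omega
        · exact C.n1 C.rb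
        · omega
    obtain ⟨rfl, h31, h32⟩ := hb3
    refine ⟨h32, ?_⟩
    intro a ha
    rcases C.cases' a ha with h1 | h1 | h1 | ⟨h1, h2⟩
    · left; rw [h1]; exact dvd_zero _
    · right; rw [h1]; exact h31
    · left; rw [h1]; exact h31
    · left; exact hall a ha h1 h2
  · exfalso
    have h7 : A.card ≤ 7 := by
      refine card_le_of_list A [0, e, 2 * h - e, b, 2 * b, 2 * h - e - b, 2 * h - e - 2 * b] ?_
      intro a ha
      simp only [List.mem_cons, List.not_mem_nil, or_false]
      rcases C.cases' a ha with h1 | h1 | h1 | ⟨h1, h2⟩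
      · left; exact h1
      · right; left; exact h1
      · right; right; left; exact h1
      · rcases lt_or_ge a (b + 2 * e) with h3 | h3
        · obtain ⟨k, hk⟩ := hcl a ha h1 (by omega)
          have hk1 : 1 ≤ k := by
            by_contra hcon
            push Not at hcon
            nlinarith
          have hk2 : k < 3 := by
            by_contra hcon
            push Not at hcon
            nlinarith
          have : k = 1 ∨ k = 2 := by omega
          rcases this with rfl | rfl <;> omega
        · have h5 := hcr a ha h3 h2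
          rcases le_or_gt a (2 * h - b - 3 * e) with h4 | h4
          · exfalso
            apply hd
            have := dvd_add (hcl a ha h1 h4) h5
            rwa [show a + (2 * h - e - a) = 2 * h - e by ring] at this
          · obtain ⟨k, hk⟩ := h5
            have hk1 : 1 ≤ k := by
              by_contra hcon
              push Not at hcon
              nlinarith
            have hk2 : k < 3 := by
              by_contra hcon
              push Not at hcon
              nlinarith
            have : k = 1 ∨ k = 2 := by omega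
            rcases this with rfl | rfl <;> omega
    omega

/-- Case C. -/
theorem caseC (A : Finset ℤ) (C : Ctx h e b (· ∈ A)) (hh : 16 ≤ h) (hbig : h + 1 ≤ 2 * (A.card : ℤ))
    (hA : 2 * b + 5 * e ≤ 2 * h) (h3e : b = 3 * e) (h5e : 5 * e ∈ A) : False := by
  classical
  have e0 := C.e0
  have eb := C.eb
  have bh := C.bh
  rcases eq_or_lt_of_le (show 1 ≤ e from e0) with he1 | he1
  · have hb : b = 3 := by omega
    have h5 : (5 : ℤ) ∈ A := by rwa [show 5 * e = 5 by omega] at h5e
    have hodd := C.odd (he1.symm) hb h5
    rcases Int.even_or_odd' h with ⟨k, hk | hk⟩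
    · -- h even : h - 1 = 2 k - 1
      have h1 := hodd (k - 2).toNat (by omega)
      rw [show 2 * (((k - 2).toNat : ℕ) : ℤ) + 3 = h - 1 by omega] at h1
      have h2 := (C.upR (h - 1) h1 (by omega) (by omega)).1
      rw [show 2 * h - (h - 1 + e) = h by omega] at h2
      have h3 := C.dis h h2
      rw [show 2 * h - h = h by ring] at h3
      exact h3 h2
    · have h1 := hodd (k - 1).toNat (by omega)
      rw [show 2 * (((k - 1).toNat : ℕ) : ℤ) + 3 = h by omega] at h1
      have h3 := C.dis h h1
      rw [show 2 * h - h = h by ring] at h3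
      exact h3 h1
  · have hrefl : ∀ p : ℤ, p ∈ A → b ≤ p → p ≤ 2 * h - b → 2 * h - e - p ∈ A := by
      intro p hp h1 h2
      have := (C.upR p hp h1 h2).1
      rwa [show 2 * h - (p + e) = 2 * h - e - p by ring] at this
    have hcl : ∀ q ∈ A, b ≤ q → q ≤ 2 * h - b - 3 * e → e ∣ q := by
      intro q hq h1 h2
      exact C.claimE h3e q.toNat q (by omega) hq h1 h2
    have hcr : ∀ q ∈ A, b + 2 * e ≤ q → q + e ≤ 2 * h - b → e ∣ 2 * h - e - q := by
      intro q hq h1 h2
      exact hcl _ (hrefl q hq (by omega) (by omega)) (by omega) (by omega)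
    have h2h : e ∣ 2 * h := by
      have h1 := hcr _ h5e (by omega) (by omega)
      have h2 : e ∣ 6 * e := dvd_mul_left e 6
      have := dvd_add h1 h2
      rwa [show 2 * h - e - 5 * e + 6 * e = 2 * h by ring] at this
    have hall : ∀ a ∈ A, b ≤ a → a + e ≤ 2 * h - b → e ∣ a := by
      intro a ha h1 h2
      rcases le_or_gt a (2 * h - b - 3 * e) with h3 | h3
      · exact hcl a ha h1 h3
      · have := hcr a ha (by omega) h2
        have h4 := dvd_sub (dvd_sub h2h (dvd_refl e)) this
        rwa [show 2 * h - e - (2 * h - e - a) = a by ring] at h4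
    obtain ⟨N, hN⟩ := h2h
    set T := A.filter (fun a => b ≤ a ∧ a + e ≤ 2 * h - b) with hT
    have hN1 : N ≤ h := by
      by_contra hcon
      push Not at hcon
      nlinarith
    have hN2 : 11 ≤ N := by
      by_contra hcon
      push Not at hcon
      nlinarith
    have hdisj : Disjoint T (T.image (fun a => a + e)) := by
      rw [Finset.disjoint_left]
      intro a ha ha'
      rw [Finset.mem_image] at ha'
      obtain ⟨c, hc, hca⟩ := ha'
      rw [hT, Finset.mem_filter] at ha hc
      refine C.RR c hc.1 ?_ (by omega)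
      rw [hca]; exact ha.1
    have hTcard : 2 * T.card ≤ (N - 3 + 1 - 3).toNat := by
      have h1 : (T ∪ T.image (fun a => a + e)).card = 2 * T.card := by
        rw [Finset.card_union_of_disjoint hdisj, Finset.card_image_of_injective _
          (add_left_injective e)]
        ring
      rw [← h1]
      have hsub : T ∪ T.image (fun a => a + e) ⊆ (Finset.Icc 3 (N - 3)).image (fun k => e * k) := by
        intro a ha
        rw [Finset.mem_union, Finset.mem_image] at ha
        rw [Finset.mem_image]
        rcases ha with ha | ⟨c, hc, rfl⟩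
        · rw [hT, Finset.mem_filter] at ha
          obtain ⟨k, hk⟩ := hall a ha.1 ha.2.1 ha.2.2
          refine ⟨k, Finset.mem_Icc.2 ⟨?_, ?_⟩, hk.symm⟩
          · by_contra hcon
            push Not at hcon
            nlinarith
          · by_contra hcon
            push Not at hcon
            nlinarith
        · rw [hT, Finset.mem_filter] at hc
          obtain ⟨k, hk⟩ := hall c hc.1 hc.2.1 hc.2.2
          refine ⟨k + 1, Finset.mem_Icc.2 ⟨?_, ?_⟩, by rw [hk]; ring⟩
          · by_contra hcon
            push Not at hcon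
            nlinarith
          · by_contra hcon
            push Not at hcon
            nlinarith
      refine (Finset.card_le_card hsub).trans (Finset.card_image_le.trans ?_)
      rw [Int.card_Icc]
    have hAcard : A.card ≤ T.card + 2 := by
      obtain ⟨s, hs⟩ : ∃ s : ℤ, ∀ a ∈ A, a = e ∨ a = 2 * h - e → a = s := by
        by_cases h1 : e ∈ A
        · refine ⟨e, ?_⟩
          intro a ha h2
          rcases h2 with h2 | h2
          · exact h2
          · exfalso
            rw [h2] at ha
            exact C.dis e h1 ha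
        · refine ⟨2 * h - e, ?_⟩
          intro a ha h2
          rcases h2 with h2 | h2
          · exfalso
            rw [h2] at ha
            exact h1 ha
          · exact h2
      have hsub : A ⊆ insert 0 (insert s T) := by
        intro a ha
        rw [Finset.mem_insert, Finset.mem_insert]
        rcases C.cases' a ha with h1 | h1 | h1 | h1
        · left; exact h1
        · right; left; exact hs a ha (Or.inl h1)
        · right; left; exact hs a ha (Or.inr h1)
        · right; right; rw [hT, Finset.mem_filter]; exact ⟨ha, h1⟩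
      refine (Finset.card_le_card hsub).trans ((Finset.card_insert_le _ _).trans ?_)
      have := Finset.card_insert_le s T
      omega
    omega


theorem t4II : Pool.Agent.W68.Qn.T4II := by
  classical
  intro h A e hh hS hmin h2e
  obtain ⟨e0, xe, emin⟩ := hmin
  have hA0 := hS.A0
  have hsym : ∀ z, Pool.Agent.W68.Qn.XX h A z → Pool.Agent.W68.Qn.XX h A (2 * h - z) := by
    intro z hz
    rcases hz with hz | hz
    · right; rwa [sub_sub_cancel]
    · left; exact hz
  have hrng : ∀ z, Pool.Agent.W68.Qn.XX h A z → 0 ≤ z ∧ z ≤ 2 * h := by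
    intro z hz
    rcases hz with hz | hz
    · have := hS.rng _ hz; omega
    · have := hS.rng _ hz; omega
  have hnh : ∀ z, Pool.Agent.W68.Qn.XX h A z → z ≠ h := by
    intro z hz hzh
    subst hzh
    rcases hz with hz | hz
    · have := hS.dis _ hz
      rw [show 2 * z - z = z by ring] at this
      exact this hz
    · rw [show 2 * z - z = z by ring] at hz
      have := hS.dis _ hz
      rw [show 2 * z - z = z by ring] at this
      exact this hz
  -- existence of `b`
  have hcard : 9 ≤ A.card := by have := hS.big; omega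
  have hex : ∃ a ∈ A, a ≠ 0 ∧ a ≠ e ∧ a ≠ 2 * h - e := by
    by_contra hcon
    push Not at hcon
    have : A.card ≤ 3 := by
      refine card_le_of_list A [0, e, 2 * h - e] ?_
      intro a ha
      simp only [List.mem_cons, List.not_mem_nil, or_false]
      by_cases h1 : a = 0
      · left; exact h1
      · by_cases h2 : a = e
        · right; left; exact h2
        · right; right; exact hcon a ha h1 h2
    omega
  have hex2 : ∃ z, Pool.Agent.W68.Qn.XX h A z ∧ e < z ∧ z < h := by
    obtain ⟨a, ha, h1, h2, h3⟩ := hex
    have hra := hS.rng a ha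
    have hXa : Pool.Agent.W68.Qn.XX h A a := Or.inl ha
    rcases lt_or_gt_of_ne (hnh a hXa) with h4 | h4
    · refine ⟨a, hXa, ?_, h4⟩
      by_contra hcon
      exact emin a (by omega) (by omega) hXa
    · have hXa' := hsym a hXa
      refine ⟨2 * h - a, hXa', ?_, by omega⟩
      by_contra hcon
      exact emin (2 * h - a) (by omega) (by omega) hXa'
  obtain ⟨z0, hz0, hz1, hz2⟩ := hex2
  set Z := (Finset.Ioo e h).filter (fun z => Pool.Agent.W68.Qn.XX h A z) with hZ
  have hZne : Z.Nonempty := ⟨z0, by rw [hZ, Finset.mem_filter, Finset.mem_Ioo]; exact ⟨⟨hz1, hz2⟩, hz0⟩⟩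
  obtain ⟨b, hb⟩ : ∃ b, b = Z.min' hZne := ⟨_, rfl⟩
  have hbZ : b ∈ Z := by rw [hb]; exact Z.min'_mem hZne
  have hbmin : ∀ z ∈ Z, b ≤ z := by intro z hz; rw [hb]; exact Z.min'_le z hz
  rw [hZ, Finset.mem_filter, Finset.mem_Ioo] at hbZ
  have C : Ctx h e b (· ∈ A) := by
    refine ⟨hA0, hS.rng, hS.dis, e0, hbZ.1.1, hbZ.1.2, xe, ?_, ?_, ?_, hbZ.2, ?_⟩
    · intro h1; exact h2e (Or.inl h1)
    · intro h1; exact h2e (Or.inr h1)
    · intro z hz
      have hr := hrng z hz
      rcases lt_trichotomy z e with h1 | h1 | h1
      · left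
        by_contra hcon
        exact emin z (by omega) h1 hz
      · right; left; exact h1
      · right; right
        rcases lt_or_ge z h with h2 | h2
        · exact hbmin z (by rw [hZ, Finset.mem_filter, Finset.mem_Ioo]; exact ⟨⟨h1, h2⟩, hz⟩)
        · omega
    · intro x y hx hy
      exact hS.cov x hx y hy
  rcases lt_or_ge (2 * h) (2 * b + 5 * e) with hB | hB
  · exfalso
    have := caseB A C hB
    omega
  · by_cases hc : b = 3 * e ∧ 5 * e ∈ A
    · exact (caseC A C hh hS.big hB hc.1 hc.2).elim
    · exact caseA A C hh hS.big hB (fun h1 h2 => hc ⟨h1, h2⟩)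

end Pool.Agent.W68h.Qn703
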