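import Pool.Agent.W68.Qn.Defs

set_option autoImplicit false

namespace Pool.Agent.W153.Qn

open Pool.Agent.W68.Qn

variable {h : ℤ} {A : Finset ℤ}

theorem pair (S : Shape h A) {x y : ℤ} (hx : XX h A x) (hy : XX h A y) (hxy : x ≤ y)
    (hs : x + y ≤ 2 * h) : y - x ∈ A ∨ 2 * h - (x + y) ∈ A := by
  rcases hx with hx | hx <;> rcases hy with hy | hy
  · rcases S.cov _ hx _ hy with c | c
    · left
      have e : |x - y| = y - x := by rw [abs_of_nonpos (by linarith)]; ring
      rwa [e] at c
    · right
      have e : |2 * h - x - y| = 2 * h - (x + y) := by rw [abs_of_nonneg (by linarith)]; ring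
      rwa [e] at c
  · rcases S.cov _ hx _ hy with c | c
    · right
      have e : |x - (2 * h - y)| = 2 * h - (x + y) := by rw [abs_of_nonpos (by linarith)]; ring
      rwa [e] at c
    · left
      have e : |2 * h - x - (2 * h - y)| = y - x := by rw [abs_of_nonneg (by linarith)]; ring
      rwa [e] at c
  · rcases S.cov _ hx _ hy with c | c
    · right
      have e : |2 * h - x - y| = 2 * h - (x + y) := by rw [abs_of_nonneg (by linarith)]; ring
      rwa [e] at c
    · left
      have e : |2 * h - (2 * h - x) - y| = y - x := by rw [abs_of_nonpos (by linarith)]; ring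
      rwa [e] at c
  · rcases S.cov _ hx _ hy with c | c
    · left
      have e : |2 * h - x - (2 * h - y)| = y - x := by rw [abs_of_nonneg (by linarith)]; ring
      rwa [e] at c
    · right
      have e : |2 * h - (2 * h - x) - (2 * h - y)| = 2 * h - (x + y) := by
        rw [abs_of_nonpos (by linarith)]; ring
      rwa [e] at c

theorem rngX (S : Shape h A) {z : ℤ} (hz : XX h A z) : 0 ≤ z ∧ z ≤ 2 * h := by
  rcases hz with hz | hz
  · have := S.rng _ hz; constructor <;> linarith
  · have := S.rng _ hz; constructor <;> linarith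

theorem symX {z : ℤ} (hz : XX h A z) : XX h A (2 * h - z) := by
  rcases hz with hz | hz
  · right
    have : 2 * h - (2 * h - z) = z := by ring
    rwa [this]
  · left; exact hz

theorem nX (S : Shape h A) : ¬ XX h A h := by
  have e : 2 * h - h = h := by ring
  rintro (hz | hz)
  · exact S.dis _ hz (by rwa [e])
  · rw [e] at hz
    exact S.dis _ hz (by rwa [e])

theorem gap {e : ℤ} (M : IsMinX h A e) {z : ℤ} (h1 : 2 * h - e < z) (h2 : z < 2 * h) :
    ¬ XX h A z := fun hz => M.2.2 (2 * h - z) (by linarith) (by linarith) (symX hz)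

theorem BB (S : Shape h A) {e : ℤ} (M : IsMinX h A e) {z : ℤ} (hz : 0 ≤ z)
    (h1 : 2 * h - z ∈ A) (h2 : 2 * h - (z + e) ∈ A) :
    ∀ j : ℕ, z + (j + 1) * e ≤ 2 * h →
      (2 * h - (z + j * e) ∈ A ∧ 2 * h - (z + (j + 1) * e) ∈ A) := by
  intro j
  induction j with
  | zero =>
    intro _
    constructor
    · simpa using h1
    · simpa using h2
  | succ j ih =>
    intro hle
    push_cast at hle ⊢
    have he := M.1
    obtain ⟨a, b⟩ := ih (by nlinarith)
    refine ⟨b, ?_⟩
    have hj : (0 : ℤ) ≤ j * e := by positivity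
    have hy : XX h A (z + (j + 1) * e) := Or.inr b
    rcases pair S M.2.1 hy (by linarith) (by linarith) with c | c
    · exfalso
      have e1 : z + (j + 1) * e - e = z + j * e := by ring
      rw [e1] at c
      exact S.dis _ c a
    · have e1 : e + (z + (j + 1) * e) = z + (j + 1 + 1) * e := by ring
      rwa [e1] at c

/-- All blue positions above. -/
theorem BB' (S : Shape h A) {e : ℤ} (M : IsMinX h A e) {z : ℤ} (hz : 0 ≤ z)
    (h1 : 2 * h - z ∈ A) (h2 : 2 * h - (z + e) ∈ A) (j : ℕ) (hj : z + j * e ≤ 2 * h) :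
    2 * h - (z + j * e) ∈ A := by
  rcases j with _ | j
  · simpa using h1
  · push_cast at hj ⊢
    exact (BB S M hz h1 h2 j hj).2

theorem BBdvd (S : Shape h A) {e : ℤ} (M : IsMinX h A e) {z : ℤ} (hz : 0 ≤ z)
    (h1 : 2 * h - z ∈ A) (h2 : 2 * h - (z + e) ∈ A) (hle : z + e ≤ 2 * h) : e ∣ 2 * h - z := by
  have he := M.1
  have hq0 : 0 ≤ (2 * h - z) / e := Int.ediv_nonneg (by linarith) he.le
  have hdm := Int.mul_ediv_add_emod (2 * h - z) e
  have hr0 := Int.emod_nonneg (2 * h - z) he.ne'
  have hr1 := Int.emod_lt_of_pos (2 * h - z) he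
  have hq : (((2 * h - z) / e).toNat : ℤ) = (2 * h - z) / e := Int.toNat_of_nonneg hq0
  have hb := BB' S M hz h1 h2 ((2 * h - z) / e).toNat (by rw [hq]; linarith)
  rw [hq] at hb
  by_contra hnd
  have hr : 0 < (2 * h - z) % e := by
    rcases hr0.lt_or_eq with h | h
    · exact h
    · exact absurd (Int.dvd_of_emod_eq_zero h.symm) hnd
  exact gap M (z := z + (2 * h - z) / e * e) (by linarith) (by linarith) (Or.inr hb)

theorem cls (S : Shape h A) {e : ℤ} (M : IsMinX h A e) (h2e : XX h A (2 * e)) :
    ∀ n : ℕ, ∀ x : ℤ, x.toNat = n → XX h A x → e ∣ x ∨ e ∣ 2 * h - x := by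
  intro n
  induction n using Nat.strong_induction_on with
  | _ n ih =>
    intro x hxn hx
    by_contra hcon
    push_neg at hcon
    obtain ⟨c1, c2⟩ := hcon
    have he := M.1
    obtain ⟨hx0, hx2⟩ := rngX S hx
    have hxpos : 0 < x := by
      rcases hx0.lt_or_eq with h | h
      · exact h
      · exact absurd (by rw [← h]; exact dvd_zero e) c1
    have hxe : e < x := by
      rcases lt_trichotomy x e with h | h | h
      · exact absurd hx (M.2.2 x hxpos h)
      · exact absurd (by rw [h]) c1
      · exact h
    have hx2h : x < 2 * h := by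
      rcases hx2.lt_or_eq with h' | h'
      · exact h'
      · exact absurd (by rw [h', sub_self]; exact dvd_zero e) c2
    have hxle : x ≤ 2 * h - e := by
      by_contra hc
      exact gap M (by linarith) hx2h hx
    have hsub : ∀ x' : ℤ, 0 ≤ x' → x' < x → e ∣ x - x' → ¬ XX h A x' := by
      intro x' h0 hlt hd hX
      rcases ih x'.toNat (by omega) x' rfl hX with c | c
      · apply c1
        have := dvd_add hd c
        rwa [sub_add_cancel] at this
      · apply c2
        have := dvd_sub c hd
        have e1 : 2 * h - x' - (x - x') = 2 * h - x := by ring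
        rwa [e1] at this
    have hB1 : 2 * h - (e + x) ∈ A := by
      rcases pair S M.2.1 hx hxe.le (by linarith) with c | c
      · exact absurd (Or.inl c) (hsub (x - e) (by linarith) (by linarith)
          (by rw [sub_sub_cancel]))
      · exact c
    have hxe2 : x + 2 * e ≤ 2 * h := by
      by_contra hc
      have hne : x + e ≠ 2 * h := by
        intro h'
        apply c2
        have : 2 * h - x = e := by linarith
        rw [this]
      have hlt : x + e < 2 * h := lt_of_le_of_ne (by linarith) hne
      refine gap M (z := x + e) (by linarith) hlt (Or.inr ?_)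
      rwa [add_comm x e]
    have hB2 : 2 * h - (x + e + e) ∈ A := by
      have e2 : x + e + e = x + 2 * e := by ring
      rw [e2]
      rcases le_or_gt (2 * e) x with hc | hc
      · rcases pair S h2e hx hc (by linarith) with c | c
        · exact absurd (Or.inl c) (hsub (x - 2 * e) (by linarith) (by linarith)
            ⟨2, by ring⟩)
        · rwa [add_comm x (2 * e)]
      · rcases pair S hx h2e hc.le (by linarith) with c | c
        · exact absurd (Or.inl c) (M.2.2 (2 * e - x) (by linarith) (by linarith))
        · exact c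
    have hd := BBdvd S M (z := x + e) (by linarith) (by rwa [add_comm x e]) hB2 (by linarith)
    apply c2
    have := dvd_add hd (dvd_refl e)
    have e3 : 2 * h - (x + e) + e = 2 * h - x := by ring
    rwa [e3] at this

/-- The set `X`. -/
def Xs (h : ℤ) (A : Finset ℤ) : Finset ℤ := A ∪ A.image (fun a => 2 * h - a)

theorem mem_Xs {z : ℤ} (hz : z ∈ Xs h A) : XX h A z := by
  unfold Xs at hz
  rw [Finset.mem_union, Finset.mem_image] at hz
  rcases hz with hz | ⟨a, ha, rfl⟩
  · exact Or.inl hz
  · right
    have : 2 * h - (2 * h - a) = a := by ring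
    rwa [this]

theorem card_Xs (S : Shape h A) : (Xs h A).card = 2 * A.card := by
  unfold Xs
  rw [Finset.card_union_of_disjoint, Finset.card_image_of_injective]
  · ring
  · intro a b hab
    have : 2 * h - a = 2 * h - b := hab
    linarith
  · rw [Finset.disjoint_left]
    intro a ha ha'
    rw [Finset.mem_image] at ha'
    obtain ⟨b, hb, rfl⟩ := ha'
    exact S.dis _ hb ha

theorem big_e (S : Shape h A) (h16 : 16 ≤ h) {e : ℤ} (M : IsMinX h A e)
    (h2e : XX h A (2 * e)) (he3 : 3 ≤ e) : Thirds h A := by
  have hcl : ∀ x, XX h A x → e ∣ x ∨ e ∣ 2 * h - x := fun x hx => cls S M h2e _ x rfl hx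
  have he := M.1
  have hdm := Int.mul_ediv_add_emod (2 * h) e
  have hr0 := Int.emod_nonneg (2 * h) he.ne'
  have hr1 := Int.emod_lt_of_pos (2 * h) he
  have hq0 : 0 ≤ (2 * h) / e := Int.ediv_nonneg (by linarith) he.le
  set q := (2 * h) / e with hq
  have hcard := card_Xs S
  have hbig := S.big
  have hne : ¬ e ∣ 2 * h := by
    intro hd
    have hall : ∀ z ∈ Xs h A, e ∣ z := by
      intro z hz
      rcases hcl z (mem_Xs hz) with c | c
      · exact c
      · have := dvd_sub hd c
        rwa [sub_sub_cancel] at this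
    have hsubs : Xs h A ⊆ (Finset.Icc 0 q).image (fun k => e * k) := by
      intro z hz
      obtain ⟨k, rfl⟩ := hall z hz
      have hr := rngX S (mem_Xs hz)
      rw [Finset.mem_image]
      refine ⟨k, ?_, rfl⟩
      rw [Finset.mem_Icc]
      constructor
      · by_contra hk; nlinarith
      · by_contra hk; nlinarith
    have h1 := (Finset.card_le_card hsubs).trans Finset.card_image_le
    rw [Int.card_Icc, hcard] at h1
    have h3 : 2 * (A.card : ℤ) ≤ q + 1 := by omega
    nlinarith
  have he4 : e = 3 := by
    by_contra hne3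
    have he4 : 4 ≤ e := by omega
    have hrpos : 0 < (2 * h) % e := by
      rcases hr0.lt_or_eq with h' | h'
      · exact h'
      · exact absurd (Int.dvd_of_emod_eq_zero h'.symm) hne
    have hmul : ∀ k : ℤ, XX h A (e * k) → 0 ≤ k ∧ k ≤ q - 1 := by
      intro k hk
      have hr := rngX S hk
      constructor
      · by_contra hk'; nlinarith
      · by_contra hk'
        have hk2 : q ≤ k := by omega
        rcases hk2.lt_or_eq with h' | h'
        · nlinarith
        · refine gap M (z := e * k) ?_ ?_ hk
          · rw [← h']; linarith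
          · rw [← h']; linarith
    have hsubs : Xs h A ⊆ (Finset.Icc 0 (q - 1)).image (fun k => e * k) ∪
        (Finset.Icc 0 (q - 1)).image (fun k => 2 * h - e * k) := by
      intro z hz
      rw [Finset.mem_union, Finset.mem_image, Finset.mem_image]
      rcases hcl z (mem_Xs hz) with ⟨k, hk⟩ | ⟨k, hk⟩
      · left
        refine ⟨k, ?_, hk.symm⟩
        rw [Finset.mem_Icc]
        exact hmul k (by rw [← hk]; exact mem_Xs hz)
      · right
        refine ⟨k, ?_, by rw [← hk]; ring⟩
        rw [Finset.mem_Icc]
        exact hmul k (by rw [← hk]; exact symX (mem_Xs hz))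
    have h1 := (Finset.card_le_card hsubs).trans (Finset.card_union_le _ _)
    have h2 : ((Finset.Icc 0 (q - 1)).image (fun k => e * k)).card ≤
      (Finset.Icc 0 (q - 1)).card := Finset.card_image_le
    have h3 : ((Finset.Icc 0 (q - 1)).image (fun k => 2 * h - e * k)).card ≤
      (Finset.Icc 0 (q - 1)).card := Finset.card_image_le
    rw [Int.card_Icc] at h2 h3
    rw [hcard] at h1
    have h4 : 2 * (A.card : ℤ) ≤ 2 * q := by omega
    nlinarith
  subst he4
  refine ⟨fun hd => hne (Dvd.dvd.mul_left hd 2), fun a ha => hcl a (Or.inl ha)⟩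

theorem RR1 (S : Shape h A) (X1 : XX h A 1) {z : ℤ} (hz2 : z ≤ 2 * h)
    (h1 : z ∈ A) (h2 : z - 1 ∈ A) :
    ∀ j : ℕ, (j : ℤ) + 1 ≤ z → z - j ∈ A ∧ z - (j + 1) ∈ A := by
  intro j
  induction j with
  | zero => intro _; exact ⟨by simpa using h1, by simpa using h2⟩
  | succ j ih =>
    intro hle
    push_cast at hle ⊢
    obtain ⟨a, b⟩ := ih (by linarith)
    refine ⟨b, ?_⟩
    have hj : (0 : ℤ) ≤ j := by positivity
    rcases pair S X1 (Or.inl b) (by linarith) (by linarith) with c | c
    · have e1 : z - (↑j + 1) - 1 = z - (↑j + 1 + 1) := by ring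
      rwa [e1] at c
    · exfalso
      have e1 : 2 * h - (1 + (z - (↑j + 1))) = 2 * h - (z - ↑j) := by ring
      rw [e1] at c
      exact S.dis _ a c

theorem RR1' (S : Shape h A) (X1 : XX h A 1) {z : ℤ} (hz2 : z ≤ 2 * h)
    (h1 : z ∈ A) (h2 : z - 1 ∈ A) (k : ℤ) (hk : 0 ≤ k) (hkz : k ≤ z) : k ∈ A := by
  rcases hkz.lt_or_eq with h' | h'
  · have := (RR1 S X1 hz2 h1 h2 (z - 1 - k).toNat (by omega)).2
    have e : z - (((z - 1 - k).toNat : ℤ) + 1) = k := by omega
    rwa [e] at this
  · rwa [h']

theorem BB1 (S : Shape h A) (M : IsMinX h A 1) {z : ℤ} (hz : 0 ≤ z)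
    (h1 : 2 * h - z ∈ A) (h2 : 2 * h - (z + 1) ∈ A) (y : ℤ) (hy : z ≤ y) (hy2 : y ≤ 2 * h) :
    XX h A y := by
  have := BB' S M hz h1 h2 (y - z).toNat (by omega)
  have e : z + ((y - z).toNat : ℤ) * 1 = y := by omega
  rw [e] at this
  exact Or.inr this

theorem case1 (S : Shape h A) (h16 : 16 ≤ h) (M : IsMinX h A 1) (X2 : XX h A 2) : F1 h A := by
  classical
  have X1 := M.2.1
  have X0 : XX h A 0 := Or.inl S.A0
  have hex : ∃ n : ℕ, ¬ XX h A (n : ℤ) := ⟨h.toNat, by
    have : ((h.toNat : ℕ) : ℤ) = h := Int.toNat_of_nonneg (by linarith)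
    rw [this]; exact nX S⟩
  obtain ⟨n0, hn0⟩ : ∃ n0, n0 = Nat.find hex := ⟨_, rfl⟩
  have hn : ¬ XX h A (n0 : ℤ) := by rw [hn0]; exact Nat.find_spec hex
  have hlow : ∀ k : ℤ, 0 ≤ k → k < n0 → XX h A k := by
    intro k hk hk2
    have := Nat.find_min hex (m := k.toNat) (by rw [← hn0]; omega)
    rw [not_not] at this
    rwa [Int.toNat_of_nonneg hk] at this
  have hn3 : 3 ≤ n0 := by
    by_contra hc
    have : n0 = 0 ∨ n0 = 1 ∨ n0 = 2 := by omega
    rcases this with h' | h' | h' <;> rw [h'] at hn
    · exact hn (by simpa using X0)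
    · exact hn (by simpa using X1)
    · exact hn (by simpa using X2)
  have hnh : (n0 : ℤ) ≤ h := by
    by_contra hc
    exact nX S (hlow h (by linarith) (by linarith))
  have noint : ∀ x : ℤ, XX h A x → (n0 : ℤ) < x → x < h → False := by
    intro x hx hx1 hx2
    have hex2 : ∃ n : ℕ, n0 < n ∧ XX h A (n : ℤ) := ⟨x.toNat, by omega, by
      rw [Int.toNat_of_nonneg (by omega)]; exact hx⟩
    obtain ⟨b, hb⟩ : ∃ b, b = Nat.find hex2 := ⟨_, rfl⟩
    have hbs : n0 < b ∧ XX h A (b : ℤ) := by rw [hb]; exact Nat.find_spec hex2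
    have hbx : b ≤ x.toNat := by
      rw [hb]
      exact Nat.find_min' hex2 ⟨by omega, by rw [Int.toNat_of_nonneg (by omega)]; exact hx⟩
    have hbm : ¬ XX h A ((b : ℤ) - 1) := by
      intro hX
      rcases Nat.lt_or_ge n0 (b - 1) with h' | h'
      · have := Nat.find_min hex2 (m := b - 1) (by omega)
        apply this
        refine ⟨h', ?_⟩
        have e : ((b - 1 : ℕ) : ℤ) = (b : ℤ) - 1 := by omega
        rw [e]; exact hX
      · have e : (b : ℤ) - 1 = n0 := by omega
        rw [e] at hX
        exact hn hX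
    have hbh : (b : ℤ) < h := by omega
    have key : ∀ j : ℕ, (b : ℤ) + 2 * j ≤ h ∧ (b : ℤ) + 2 * j ∈ A ∧
        2 * h - ((b : ℤ) + 2 * j + 1) ∈ A ∧ (b : ℤ) + 2 * j - 1 ∉ A := by
      intro j
      induction j with
      | zero =>
        have hB : 2 * h - ((b : ℤ) + 1) ∈ A := by
          rcases pair S X1 hbs.2 (by omega) (by omega) with c | c
          · exact absurd (Or.inl c) hbm
          · rwa [add_comm (1 : ℤ) b] at c
        have hR : (b : ℤ) ∈ A := by
          rcases hbs.2 with c | c
          · exact c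
          · exact absurd (BB1 S M (by omega) c hB h (by omega) (by omega)) (nX S)
        refine ⟨by push_cast; omega, by simpa using hR, by simpa using hB, ?_⟩
        intro hc
        exact hbm (Or.inl (by simpa using hc))
      | succ j ih =>
        obtain ⟨i1, i2, i3, i4⟩ := ih
        have hy1 : (b : ℤ) + 2 * j ≠ h := by
          intro hc; rw [hc] at i2; exact nX S (Or.inl i2)
        have hy2 : (b : ℤ) + 2 * j + 1 ≠ h := by
          intro hc; rw [hc] at i3; exact nX S (Or.inr i3)
        obtain ⟨y, hy⟩ : ∃ y : ℤ, y = (b : ℤ) + 2 * j := ⟨_, rfl⟩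
        rw [← hy] at i1 i2 i3 i4 hy1 hy2
        have hyb : (b : ℤ) ≤ y := by omega
        have hB3 : 2 * h - (y + 3) ∈ A := by
          rcases pair S X2 (y := y + 1) (Or.inr i3) (by omega) (by omega) with c | c
          · have e : y + 1 - 2 = y - 1 := by ring
            rw [e] at c
            exact absurd c i4
          · have e : 2 + (y + 1) = y + 3 := by ring
            rwa [e] at c
        have hX2 : XX h A (y + 2) := by
          by_contra hc
          have hB4 : 2 * h - (y + 3 + 1) ∈ A := by
            rcases pair S X1 (y := y + 3) (Or.inr hB3) (by omega) (by omega) with c | c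
            · have e : y + 3 - 1 = y + 2 := by ring
              rw [e] at c
              exact absurd (Or.inl c) hc
            · have e : 1 + (y + 3) = y + 3 + 1 := by ring
              rwa [e] at c
          have := BB1 S M (z := y + 3) (by omega) hB3 hB4 (2 * h - n0) (by omega) (by omega)
          have := symX this
          have e : 2 * h - (2 * h - (n0 : ℤ)) = n0 := by ring
          rw [e] at this
          exact hn this
        have hR2 : y + 2 ∈ A := by
          rcases hX2 with c | c
          · exact c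
          · have e : y + 1 + 1 = y + 2 := by ring
            exact absurd (BB1 S M (z := y + 1) (by omega) i3 (by rw [e]; exact c) h (by omega)
              (by omega)) (nX S)
        have ej : (b : ℤ) + 2 * ((j + 1 : ℕ) : ℤ) = y + 2 := by push_cast; omega
        rw [ej]
        refine ⟨by omega, hR2, ?_, ?_⟩
        · have e : y + 2 + 1 = y + 3 := by ring
          rwa [e]
        · have e : y + 2 - 1 = y + 1 := by ring
          rw [e]
          intro hc
          exact S.dis _ hc i3
    have := (key h.toNat).1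
    omega
  -- now the structure of `A`
  have hXs : ∀ x : ℤ, XX h A x → x < n0 ∨ 2 * h - x < n0 := by
    intro x hx
    by_contra hc
    push_neg at hc
    have hxh : x ≠ h := by rintro rfl; exact nX S hx
    have hxn : x ≠ n0 := by rintro rfl; exact hn hx
    have hxn' : 2 * h - x ≠ n0 := by
      intro h'
      apply hn
      rw [← h']
      exact symX hx
    rcases lt_or_gt_of_ne hxh with h' | h'
    · exact noint x hx (by omega) h'
    · exact noint (2 * h - x) (symX hx) (by omega) (by omega)
  have hl1 : (n0 : ℤ) - 2 ∈ A := by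
    rcases pair S X1 (hlow (n0 - 1) (by omega) (by omega)) (by omega) (by omega) with c | c
    · have e : (n0 : ℤ) - 1 - 1 = n0 - 2 := by ring
      rwa [e] at c
    · have e : 1 + ((n0 : ℤ) - 1) = n0 := by ring
      rw [e] at c
      exact absurd (Or.inr c) hn
  rcases hlow (n0 - 1) (by omega) (by omega) with hR | hB
  · -- `l` is red
    have hall : ∀ k : ℤ, 0 ≤ k → k ≤ n0 - 1 → k ∈ A := by
      intro k hk hk2
      refine RR1' S X1 (by omega) hR ?_ k hk hk2
      have e : (n0 : ℤ) - 1 - 1 = n0 - 2 := by ring
      rwa [e]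
    refine ⟨n0 - 1, by omega, Or.inl ?_⟩
    ext a
    rw [Finset.mem_Icc]
    constructor
    · intro ha
      refine ⟨(S.rng a ha).1, ?_⟩
      rcases hXs a (Or.inl ha) with c | c
      · omega
      · exfalso
        have hr := S.rng a ha
        exact S.dis a ha (hall (2 * h - a) (by omega) (by omega))
    · rintro ⟨h1, h2⟩
      exact hall a h1 h2
  · -- `l` is blue
    have hnR : (n0 : ℤ) - 1 ∉ A := fun hc => S.dis _ hc hB
    have hl2 : (n0 : ℤ) - 3 ∈ A := by
      rcases pair S X2 (y := n0 - 1) (Or.inr hB) (by omega) (by omega) with c | c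
      · have e : (n0 : ℤ) - 1 - 2 = n0 - 3 := by ring
        rwa [e] at c
      · exfalso
        have e : 2 + ((n0 : ℤ) - 1) = n0 + 1 := by ring
        rw [e] at c
        rcases hXs (n0 + 1) (Or.inr c) with c' | c'
        · omega
        · have e2 : 2 * h - ((n0 : ℤ) + 1) = n0 - 1 := by omega
          rw [e2] at c
          exact hnR c
    have hall : ∀ k : ℤ, 0 ≤ k → k ≤ n0 - 2 → k ∈ A := by
      intro k hk hk2
      refine RR1' S X1 (by omega) hl1 ?_ k hk hk2
      have e : (n0 : ℤ) - 2 - 1 = n0 - 3 := by ring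
      rwa [e]
    refine ⟨n0 - 1, by omega, Or.inr ?_⟩
    ext a
    rw [Finset.mem_insert, Finset.mem_Icc]
    constructor
    · intro ha
      have hr := S.rng a ha
      rcases hXs a (Or.inl ha) with c | c
      · right
        refine ⟨hr.1, ?_⟩
        have : a ≠ n0 - 1 := by rintro rfl; exact hnR ha
        omega
      · left
        by_contra hc
        exact S.dis a ha (hall (2 * h - a) (by omega) (by omega))
    · rintro (rfl | ⟨h1, h2⟩)
      · exact hB
      · exact hall a h1 (by omega)

theorem t4i : Pool.Agent.W68.Qn.T4I := by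
  intro h A e h16 S M h2e
  have he := M.1
  rcases lt_or_ge e 3 with hlt | hge
  · have : e = 1 ∨ e = 2 := by omega
    rcases this with rfl | rfl
    · left
      exact case1 S h16 M (by simpa using h2e)
    · right; left
      intro a ha
      rcases cls S M h2e _ a rfl (Or.inl ha) with c | c
      · exact even_iff_two_dvd.2 c
      · rw [even_iff_two_dvd]
        have := dvd_sub (Dvd.intro h rfl : (2 : ℤ) ∣ 2 * h) c
        rwa [sub_sub_cancel] at this
  · right; right
    exact big_e S h16 M h2e hge

end Pool.Agent.W153.Qn
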