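import Pool.Agent.W68.Qn.Defs

set_option autoImplicit false

namespace Pool.Agent.W68h.QnT4I457

open Pool.Agent.W68.Qn

variable {h e : ℤ} {A : Finset ℤ}

theorem pair (S : Shape h A) {x y : ℤ} (hx : XX h A x) (hy : XX h A y) (hxy : x ≤ y)
    (hs : x + y ≤ 2 * h) : y - x ∈ A ∨ 2 * h - (x + y) ∈ A := by
  rcases hx with hx | hx <;> rcases hy with hy | hy
  · have := S.cov y hy x hx
    rw [abs_of_nonneg (show 0 ≤ y - x by linarith), show 2 * h - y - x = 2 * h - (x + y) by ring,
      abs_of_nonneg (show 0 ≤ 2 * h - (x + y) by linarith)] at this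
    exact this
  · have := S.cov (2 * h - y) hy x hx
    rw [show 2 * h - y - x = 2 * h - (x + y) by ring, show 2 * h - (2 * h - y) - x = y - x by ring,
      abs_of_nonneg (show 0 ≤ y - x by linarith),
      abs_of_nonneg (show 0 ≤ 2 * h - (x + y) by linarith)] at this
    exact this.symm
  · have := S.cov (2 * h - x) hx y hy
    rw [show 2 * h - x - y = 2 * h - (x + y) by ring,
      show 2 * h - (2 * h - x) - y = -(y - x) by ring, abs_neg,
      abs_of_nonneg (show 0 ≤ y - x by linarith),
      abs_of_nonneg (show 0 ≤ 2 * h - (x + y) by linarith)] at this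
    exact this.symm
  · have := S.cov (2 * h - x) hx (2 * h - y) hy
    rw [show 2 * h - x - (2 * h - y) = y - x by ring,
      show 2 * h - (2 * h - x) - (2 * h - y) = -(2 * h - (x + y)) by ring, abs_neg,
      abs_of_nonneg (show 0 ≤ y - x by linarith),
      abs_of_nonneg (show 0 ≤ 2 * h - (x + y) by linarith)] at this
    exact this

theorem Xsymm {z : ℤ} : XX h A z ↔ XX h A (2 * h - z) := by
  unfold XX
  rw [sub_sub_cancel]
  exact or_comm

theorem Xrange (S : Shape h A) {z : ℤ} (hz : XX h A z) : 0 ≤ z ∧ z ≤ 2 * h := by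
  rcases hz with hz | hz
  · have := S.rng z hz
    constructor <;> linarith [this.1, this.2]
  · have := S.rng _ hz
    constructor <;> linarith [this.1, this.2]

theorem Xh (S : Shape h A) : ¬ XX h A h := by
  intro hz
  have e1 : 2 * h - h = h := by ring
  rcases hz with hz | hz
  · have := S.dis h hz
    rw [e1] at this
    exact this hz
  · rw [e1] at hz
    have := S.dis h hz
    rw [e1] at this
    exact this hz

theorem gapTop (S : Shape h A) (he : IsMinX h A e) {z : ℤ} (hz : XX h A z) (hlt : 2 * h - e < z) :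
    z = 2 * h := by
  have h1 := Xrange S hz
  have h2 := Xsymm.1 hz
  by_contra hne
  exact he.2.2 (2 * h - z) (by omega) (by omega) h2

theorem BB (S : Shape h A) (he : IsMinX h A e) {z : ℤ} (hz0 : 0 ≤ z) (h1 : 2 * h - z ∈ A)
    (h2 : 2 * h - (z + e) ∈ A) : ∀ j : ℕ, z + j * e ≤ 2 * h → 2 * h - (z + j * e) ∈ A := by
  have he0 := he.1
  have key : ∀ j : ℕ, (z + j * e ≤ 2 * h → 2 * h - (z + j * e) ∈ A) ∧
      (z + (j + 1 : ℕ) * e ≤ 2 * h → 2 * h - (z + (j + 1 : ℕ) * e) ∈ A) := by
    intro j
    induction j with
    | zero =>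
      refine ⟨fun _ => by simpa using h1, fun _ => by simpa using h2⟩
    | succ j ih =>
      refine ⟨ih.2, fun hle => ?_⟩
      have hj0 : (0 : ℤ) ≤ j := by positivity
      have hje : 0 ≤ (j : ℤ) * e := mul_nonneg hj0 he0.le
      have e1 : z + ((j + 1 + 1 : ℕ) : ℤ) * e = e + (z + ((j + 1 : ℕ) : ℤ) * e) := by
        push_cast; ring
      have e2 : z + ((j + 1 : ℕ) : ℤ) * e = e + (z + (j : ℤ) * e) := by
        push_cast; ring
      rw [e1] at hle ⊢
      have h3 := ih.2 (by linarith)
      have h4 := ih.1 (by rw [e2] at hle; linarith)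
      have h5 := pair S (x := e) (y := z + ((j + 1 : ℕ) : ℤ) * e) he.2.1 (Or.inr h3)
        (by rw [e2]; linarith) hle
      rcases h5 with h5 | h5
      · exfalso
        rw [show z + ((j + 1 : ℕ) : ℤ) * e - e = z + (j : ℤ) * e by push_cast; ring] at h5
        exact S.dis _ h5 h4
      · exact h5
  exact fun j => (key j).1

theorem BBd (S : Shape h A) (he : IsMinX h A e) {z : ℤ} (hz0 : 0 ≤ z) (h1 : 2 * h - z ∈ A)
    (h2 : 2 * h - (z + e) ∈ A) : e ∣ 2 * h - z := by
  have he0 := he.1
  have hz2 : z ≤ 2 * h := by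
    have := S.rng _ h1
    linarith [this.1]
  have k0 : 0 ≤ (2 * h - z) / e := Int.ediv_nonneg (by linarith) he0.le
  have k1 : (2 * h - z) / e * e ≤ 2 * h - z := Int.ediv_mul_le _ he0.ne'
  have k2 : 2 * h - z < ((2 * h - z) / e + 1) * e := Int.lt_ediv_add_one_mul_self _ he0
  set k := (2 * h - z) / e with hk
  have h3 := BB S he hz0 h1 h2 k.toNat
  rw [Int.toNat_of_nonneg k0] at h3
  have h4 := h3 (by linarith)
  have h5 := gapTop S he (z := z + k * e) (Or.inr h4) (by linarith)
  exact ⟨k, by linarith⟩

theorem RR (S : Shape h A) (he : IsMinX h A e) {z : ℤ} (hz0 : z ≤ 2 * h) (h1 : z ∈ A)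
    (h2 : z - e ∈ A) : ∀ j : ℕ, 0 ≤ z - j * e → z - j * e ∈ A := by
  intro j hj
  have := BB S he (z := 2 * h - z) (by linarith) (by rwa [sub_sub_cancel])
    (by rwa [show 2 * h - (2 * h - z + e) = z - e by ring]) j (by linarith)
  rwa [show 2 * h - (2 * h - z + j * e) = z - j * e by ring] at this

theorem cls (S : Shape h A) (he : IsMinX h A e) (h2e : XX h A (2 * e)) :
    ∀ n : ℕ, XX h A (n : ℤ) → (e ∣ (n : ℤ) ∨ e ∣ 2 * h - (n : ℤ)) := by
  have he0 := he.1
  intro n
  induction n using Nat.strong_induction_on with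
  | _ n ih =>
    intro hx
    by_contra hcon
    push_neg at hcon
    obtain ⟨hc1, hc2⟩ := hcon
    have ihx : ∀ y : ℤ, 0 ≤ y → y < n → XX h A y → (e ∣ y ∨ e ∣ 2 * h - y) := by
      intro y hy0 hy1 hy
      have := ih y.toNat (by omega) (by rwa [Int.toNat_of_nonneg hy0])
      rwa [Int.toNat_of_nonneg hy0] at this
    set x : ℤ := (n : ℤ) with hxdef
    have hr := Xrange S hx
    have hx0 : x ≠ 0 := by
      intro h0; rw [h0] at hc1; exact hc1 (dvd_zero e)
    have hxe : ¬ x < e := fun hlt => he.2.2 x (by omega) hlt hx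
    have hxe' : x ≠ e := by
      intro h0; rw [h0] at hc1; exact hc1 dvd_rfl
    have hx1 : ¬ XX h A (x - e) := by
      intro hX
      rcases ihx (x - e) (by omega) (by omega) hX with h3 | h3
      · exact hc1 ((dvd_sub_self_right).1 h3)
      · apply hc2
        have : 2 * h - (x - e) = 2 * h - x + e := by ring
        rw [this] at h3
        exact (dvd_add_self_right).1 h3
    have hx2 : x ≤ 2 * h - e := by
      by_contra hlt
      have := gapTop S he hx (by omega)
      rw [this, sub_self] at hc2
      exact hc2 (dvd_zero e)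
    have hB1 : 2 * h - (x + e) ∈ A := by
      rcases pair S he.2.1 hx (by omega) (by omega) with h3 | h3
      · exact absurd (Or.inl h3) hx1
      · rwa [add_comm e x] at h3
    have hx3 : x + e ≤ 2 * h - e := by
      by_contra hlt
      have := gapTop S he (z := x + e) (Or.inr hB1) (by omega)
      apply hc2
      have h4 : 2 * h - x = e := by omega
      rw [h4]
    have hB2 : 2 * h - (x + e + e) ∈ A := by
      rcases le_total (2 * e) x with hle | hle
      · rcases pair S h2e hx hle (by omega) with h3 | h3
        · exfalso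
          rcases ihx (x - 2 * e) (by omega) (by omega) (Or.inl h3) with h4 | h4
          · apply hc1
            have h5 := dvd_add h4 (Dvd.intro_left 2 rfl : e ∣ 2 * e)
            rwa [sub_add_cancel] at h5
          · apply hc2
            have h5 := dvd_sub h4 (Dvd.intro_left 2 rfl : e ∣ 2 * e)
            rwa [show 2 * h - (x - 2 * e) - 2 * e = 2 * h - x by ring] at h5
        · rwa [show x + e + e = 2 * e + x by ring]
      · rcases pair S hx h2e hle (by omega) with h3 | h3
        · exfalso
          have h4 : x ≠ 2 * e := by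
            intro h0; rw [h0] at hc1; exact hc1 (Dvd.intro_left 2 rfl)
          exact he.2.2 (2 * e - x) (by omega) (by omega) (Or.inl h3)
        · rwa [show x + e + e = x + 2 * e by ring]
    have h6 := BBd S he (z := x + e) (by omega) hB1 hB2
    apply hc2
    have : 2 * h - x = 2 * h - (x + e) + e := by ring
    rw [this]
    exact dvd_add h6 dvd_rfl

theorem cls' (S : Shape h A) (he : IsMinX h A e) (h2e : XX h A (2 * e)) {x : ℤ}
    (hx : XX h A x) : e ∣ x ∨ e ∣ 2 * h - x := by
  have h0 := (Xrange S hx).1
  have := cls S he h2e x.toNat (by rwa [Int.toNat_of_nonneg h0])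
  rwa [Int.toNat_of_nonneg h0] at this

theorem XFcard (S : Shape h A) : (A ∪ A.image (fun a => 2 * h - a)).card = 2 * A.card := by
  rw [Finset.card_union_of_disjoint, Finset.card_image_of_injective]
  · ring
  · intro a b hab
    simp only at hab
    linarith
  · rw [Finset.disjoint_left]
    intro a ha hb
    rw [Finset.mem_image] at hb
    obtain ⟨b, hb, rfl⟩ := hb
    exact S.dis b hb ha

theorem memXF {z : ℤ} : z ∈ A ∪ A.image (fun a => 2 * h - a) ↔ XX h A z := by
  rw [Finset.mem_union, Finset.mem_image]
  unfold XX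
  constructor
  · rintro (h1 | ⟨a, ha, rfl⟩)
    · exact Or.inl h1
    · right; rwa [sub_sub_cancel]
  · rintro (h1 | h1)
    · exact Or.inl h1
    · exact Or.inr ⟨_, h1, sub_sub_cancel _ _⟩

theorem big3 (S : Shape h A) (hh : 1 ≤ h) (he : IsMinX h A e) (h2e : XX h A (2 * e)) (he3 : 3 ≤ e) :
    Thirds h A := by
  have he0 := he.1
  have hb := S.big
  have hcard := XFcard S
  have k1 : (2 * h) / e * e ≤ 2 * h := Int.ediv_mul_le _ he0.ne'
  have k0 : 0 ≤ (2 * h) / e := Int.ediv_nonneg (by linarith) he0.le
  set k := (2 * h) / e with hk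
  by_cases hd : e ∣ 2 * h
  · exfalso
    have hsub : A ∪ A.image (fun a => 2 * h - a) ⊆ (Finset.Icc 0 k).image (fun j => e * j) := by
      intro x hx
      rw [memXF] at hx
      have hr := Xrange S hx
      have h1 : e ∣ x := by
        rcases cls' S he h2e hx with h1 | h1
        · exact h1
        · have := dvd_sub hd h1
          rwa [sub_sub_cancel] at this
      obtain ⟨j, rfl⟩ := h1
      rw [Finset.mem_image]
      refine ⟨j, ?_, rfl⟩
      rw [Finset.mem_Icc]
      constructor
      · by_contra hj
        push_neg at hj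
        nlinarith [hr.1]
      · rw [hk]
        exact (Int.le_ediv_iff_mul_le he0).2 (by linarith [hr.2, mul_comm j e])
    have h2 := (Finset.card_le_card hsub).trans Finset.card_image_le
    rw [hcard, Int.card_Icc] at h2
    have h3 : (2 * (A.card : ℤ)) ≤ k + 1 - 0 := by
      have : ((2 * A.card : ℕ) : ℤ) ≤ ((k + 1 - 0).toNat : ℤ) := by exact_mod_cast h2
      rw [Int.toNat_of_nonneg (by linarith)] at this
      push_cast at this
      exact this
    nlinarith
  · have hsub : A ∪ A.image (fun a => 2 * h - a) ⊆ (Finset.Icc 0 (k - 1)).image (fun j => e * j) ∪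
        (Finset.Icc 0 (k - 1)).image (fun j => 2 * h - e * j) := by
      have aux : ∀ x, XX h A x → e ∣ x → x ∈ (Finset.Icc 0 (k - 1)).image (fun j => e * j) := by
        intro x hx h1
        have hr := Xrange S hx
        have hx2 : x ≤ 2 * h - e := by
          by_contra hlt
          have := gapTop S he hx (by omega)
          rw [this] at h1
          exact hd h1
        obtain ⟨j, rfl⟩ := h1
        rw [Finset.mem_image]
        refine ⟨j, ?_, rfl⟩
        rw [Finset.mem_Icc]
        constructor
        · by_contra hj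
          push_neg at hj
          nlinarith [hr.1]
        · have : j + 1 ≤ k := by
            rw [hk]
            exact (Int.le_ediv_iff_mul_le he0).2 (by linarith [mul_comm j e, add_mul j 1 e])
          linarith
      intro x hx
      rw [memXF] at hx
      rw [Finset.mem_union]
      rcases cls' S he h2e hx with h1 | h1
      · exact Or.inl (aux x hx h1)
      · right
        have h2 := aux _ (Xsymm.1 hx) h1
        rw [Finset.mem_image] at h2 ⊢
        obtain ⟨j, hj, hj2⟩ := h2
        exact ⟨j, hj, by linarith⟩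
    have h2 := (Finset.card_le_card hsub).trans ((Finset.card_union_le _ _).trans
      (add_le_add Finset.card_image_le Finset.card_image_le))
    rw [hcard, Int.card_Icc] at h2
    have h3 : (2 * (A.card : ℤ)) ≤ k + k := by
      have : ((2 * A.card : ℕ) : ℤ) ≤ ((k - 1 + 1 - 0).toNat + (k - 1 + 1 - 0).toNat : ℕ) := by
        exact_mod_cast h2
      omega
    have he4 : e = 3 := by
      by_contra hne
      have : 4 ≤ e := by omega
      nlinarith
    subst he4
    refine ⟨fun h3 => hd (h3.mul_left 2), fun a ha => cls' S he h2e (Or.inl ha)⟩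

theorem one (S : Shape h A) (hh : 1 ≤ h) (he : IsMinX h A 1) (hX2 : XX h A 2) : F1 h A := by
  have hX0 : XX h A 0 := Or.inl S.A0
  have hX1 : XX h A 1 := he.2.1
  -- the first run
  obtain ⟨l, hl2, hlh, hrun, hl1⟩ : ∃ l : ℤ, 2 ≤ l ∧ l + 1 ≤ h ∧ (∀ z, 0 ≤ z → z ≤ l → XX h A z) ∧
      ¬ XX h A (l + 1) := by
    classical
    have hex : ∃ n : ℕ, ¬ XX h A (n : ℤ) := ⟨h.toNat, by
      rw [Int.toNat_of_nonneg (by linarith)]; exact Xh S⟩
    have hspec := Nat.find_spec hex
    have hmin : ∀ n : ℕ, n < Nat.find hex → XX h A (n : ℤ) := fun n hn => by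
      have := Nat.find_min hex hn
      simpa using this
    have hle : Nat.find hex ≤ h.toNat := Nat.find_min' hex (by
      rw [Int.toNat_of_nonneg (by linarith)]; exact Xh S)
    set N := Nat.find hex with hN
    have hN3 : 3 ≤ N := by
      by_contra hlt
      push_neg at hlt
      interval_cases hN' : N
      · exact hspec (by simpa using hX0)
      · exact hspec (by simpa using hX1)
      · exact hspec (by simpa using hX2)
    refine ⟨(N : ℤ) - 1, by omega, by omega, ?_, by simpa using hspec⟩
    intro z hz0 hz1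
    have := hmin z.toNat (by omega)
    rwa [Int.toNat_of_nonneg hz0] at this
  have hl1' : ¬ XX h A (2 * h - l - 1) := by
    intro hX
    apply hl1
    rw [Xsymm]
    rwa [show 2 * h - (l + 1) = 2 * h - l - 1 by ring]
  have key : ∀ t : ℤ, 0 ≤ t → t < 2 * h - l → 2 * h - t ∈ A → 2 * h - (t + 1) ∈ A → False := by
    intro t ht0 ht1 h1 h2
    have h3 := BB S he ht0 h1 h2 (2 * h - l - 1 - t).toNat
    rw [Int.toNat_of_nonneg (by linarith)] at h3
    have h4 := h3 (by linarith)
    rw [show t + (2 * h - l - 1 - t) * 1 = 2 * h - l - 1 by ring] at h4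
    exact hl1' (Or.inr h4)
  have start : ∀ s : ℤ, XX h A s → ¬ XX h A (s - 1) → l < s → s < 2 * h - l →
      s ∈ A ∧ s - 2 ∈ A := by
    intro s hs hs1 hls hsr
    have h1 : s ≠ l + 1 := by rintro rfl; exact hl1 hs
    have h2 : s ≠ 2 * h - l - 1 := by rintro rfl; exact hl1' hs
    have hB : 2 * h - (s + 1) ∈ A := by
      rcases pair S hX1 hs (by omega) (by omega) with h3 | h3
      · exact absurd (Or.inl h3) hs1
      · rwa [add_comm 1 s] at h3
    have hR : s ∈ A := by
      rcases hs with h3 | h3
      · exact h3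
      · exact absurd hB (fun hB => key s (by omega) hsr h3 hB)
    refine ⟨hR, ?_⟩
    rcases pair S hX2 hs (by omega) (by omega) with h3 | h3
    · exact h3
    · exfalso
      exact key (s + 1) (by omega) (by omega) hB (by rwa [show s + 1 + 1 = 2 + s by ring])
  have fin : ∀ d : ℤ, XX h A d → ¬ XX h A (d + 1) → l < d → d < 2 * h - l → 2 * h - d ∈ A := by
    intro d hd hd1 hld hdr
    refine (start (2 * h - d) (Xsymm.1 hd) ?_ (by omega) (by omega)).1
    intro hX
    apply hd1
    rw [Xsymm]
    rwa [show 2 * h - (d + 1) = 2 * h - d - 1 by ring]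
  have runDown : ∀ x : ℤ, XX h A x → l < x → x < 2 * h - l → ∀ z, l + 2 ≤ z → z ≤ x → XX h A z := by
    intro x hx hlx hxr
    classical
    have hx1 : x ≠ l + 1 := by rintro rfl; exact hl1 hx
    have hex : ∃ n : ℕ, ¬ XX h A (x - n) := ⟨(x - l - 1).toNat, by
      rw [Int.toNat_of_nonneg (by omega), show x - (x - l - 1) = l + 1 by ring]; exact hl1⟩
    have hspec := Nat.find_spec hex
    have hmin : ∀ n : ℕ, n < Nat.find hex → XX h A (x - n) := fun n hn => by
      have := Nat.find_min hex hn
      simpa using this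
    have hle : Nat.find hex ≤ (x - l - 1).toNat := Nat.find_min' hex (by
      rw [Int.toNat_of_nonneg (by omega), show x - (x - l - 1) = l + 1 by ring]; exact hl1)
    set N := Nat.find hex with hN
    have hN1 : 1 ≤ N := by
      by_contra hlt
      have : N = 0 := by omega
      rw [this] at hspec
      exact hspec (by simpa using hx)
    have hs : XX h A (x - (N - 1 : ℕ)) := hmin (N - 1) (by omega)
    have hcast : ((N - 1 : ℕ) : ℤ) = (N : ℤ) - 1 := by omega
    rw [hcast] at hs
    have hs1 : ¬ XX h A (x - ((N : ℤ) - 1) - 1) := by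
      rwa [show x - ((N : ℤ) - 1) - 1 = x - N by ring]
    obtain ⟨a1, a2⟩ := start _ hs hs1 (by omega) (by omega)
    have hseq : x - ((N : ℤ) - 1) = l + 2 := by
      by_contra hne
      have h5 := fin (x - ((N : ℤ) - 1) - 2) (Or.inl a2)
        (by rwa [show x - ((N : ℤ) - 1) - 2 + 1 = x - ((N : ℤ) - 1) - 1 by ring])
        (by omega) (by omega)
      exact S.dis _ a2 h5
    intro z hz1 hz2
    have := hmin (x - z).toNat (by omega)
    rwa [Int.toNat_of_nonneg (by omega), sub_sub_cancel] at this
  have noInt : ∀ x : ℤ, l < x → x < 2 * h - l → ¬ XX h A x := by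
    intro x hlx hxr hx
    have h1 : x ≠ l + 1 := by rintro rfl; exact hl1 hx
    have h2 : x ≠ 2 * h - l - 1 := by rintro rfl; exact hl1' hx
    rcases le_total h x with hle | hle
    · exact Xh S (runDown x hx hlx hxr h (by omega) hle)
    · have h3 := runDown (2 * h - x) (Xsymm.1 hx) (by omega) (by omega) h (by omega) (by omega)
      exact Xh S h3
  -- colours
  have hXl : XX h A l := hrun l (by omega) le_rfl
  have hR1 : l - 1 ∈ A := by
    rcases pair S hX1 hXl (by omega) (by omega) with h3 | h3
    · exact h3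
    · exact absurd (Or.inr (by rwa [add_comm 1 l] at h3)) hl1
  have hR2 : l - 2 ∈ A := by
    rcases hXl with hl | hl
    · rcases pair S (x := 1) (y := l - 1) hX1 (Or.inl hR1) (by omega) (by omega) with h3 | h3
      · rwa [show l - 1 - 1 = l - 2 by ring] at h3
      · rw [show 2 * h - (1 + (l - 1)) = 2 * h - l by ring] at h3
        exact absurd h3 (S.dis l hl)
    · rcases pair S (x := 2) (y := l) hX2 (Or.inr hl) (by omega) (by omega) with h3 | h3
      · exact h3
      · exfalso
        by_cases h4 : l + 2 < 2 * h - l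
        · exact noInt (l + 2) (by omega) h4 (Or.inr (by rwa [add_comm l 2]))
        · have h5 : h = l + 1 := by omega
          rw [show 2 * h - (2 + l) = l by rw [h5]; ring] at h3
          exact S.dis l h3 hl
  have hred : ∀ z : ℤ, 0 ≤ z → z ≤ l - 1 → z ∈ A := by
    intro z hz0 hz1
    have := RR S he (z := l - 1) (by omega) hR1 (by rwa [show l - 1 - 1 = l - 2 by ring])
      (l - 1 - z).toNat
    rw [Int.toNat_of_nonneg (by omega), show l - 1 - (l - 1 - z) * 1 = z by ring] at this
    exact this hz0
  refine ⟨l, hl2, ?_⟩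
  rcases hXl with hl | hl
  · left
    ext z
    rw [Finset.mem_Icc]
    constructor
    · intro hz
      have hr := S.rng z hz
      refine ⟨hr.1, ?_⟩
      by_contra hlt
      push_neg at hlt
      by_cases h4 : z < 2 * h - l
      · exact noInt z hlt h4 (Or.inl hz)
      · apply S.dis z hz
        by_cases h5 : 2 * h - z = l
        · rwa [h5]
        · exact hred _ (by omega) (by omega)
    · rintro ⟨hz0, hz1⟩
      by_cases h5 : z = l
      · rwa [h5]
      · exact hred z hz0 (by omega)
  · right
    ext z
    rw [Finset.mem_insert, Finset.mem_Icc]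
    constructor
    · intro hz
      have hr := S.rng z hz
      by_cases h3 : z ≤ l - 1
      · exact Or.inr ⟨hr.1, h3⟩
      · left
        have h4 : z ≠ l := by
          rintro rfl
          exact S.dis _ hz hl
        by_cases h5 : z < 2 * h - l
        · exact absurd (Or.inl hz) (noInt z (by omega) h5)
        · by_contra hne
          exact S.dis z hz (hred _ (by omega) (by omega))
    · rintro (rfl | ⟨hz0, hz1⟩)
      · exact hl
      · exact hred z hz0 hz1

theorem t4I : T4I := by
  intro h A e hh S he h2e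
  have he0 := he.1
  by_cases he3 : 3 ≤ e
  · exact Or.inr (Or.inr (big3 S (by omega) he h2e he3))
  · by_cases he2 : e = 2
    · right; left
      subst he2
      intro a ha
      rw [even_iff_two_dvd]
      rcases cls' S he h2e (Or.inl ha) with h1 | h1
      · exact h1
      · omega
    · have he1 : e = 1 := by omega
      subst he1
      exact Or.inl (one S (by omega) he (by simpa using h2e))

end Pool.Agent.W68h.QnT4I457
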