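import Pool.Agent.W68.Qn.Defs

set_option autoImplicit false

namespace Pool.Agent.W68h.T4x441

open Pool.Agent.W68.Qn

lemma card_occ_ge (m h : ℤ) (A : Finset ℤ) (hm : 0 ≤ m) :
    (2 * m + 1) - 2 * (A.card : ℤ) ≤ ((occ m h A).card : ℤ) := by
  have hsub : (Finset.Icc (-m) m) \ (A.image (fun a => a - h) ∪ A.image (fun a => h - a)) ⊆
      occ m h A := by
    intro x hx
    rw [Finset.mem_sdiff, Finset.mem_union, Finset.mem_image, Finset.mem_image] at hx
    refine Finset.mem_filter.mpr ⟨hx.1, fun h1 => hx.2 (Or.inl ⟨h + x, h1, by ring⟩),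
      fun h1 => hx.2 (Or.inr ⟨h - x, h1, by ring⟩)⟩
  have h1 := Finset.card_le_card hsub
  have h2 := Finset.le_card_sdiff (A.image (fun a => a - h) ∪ A.image (fun a => h - a))
    (Finset.Icc (-m) m)
  have h3 : (A.image (fun a => a - h) ∪ A.image (fun a => h - a)).card ≤ 2 * A.card := by
    refine (Finset.card_union_le _ _).trans ?_
    have h4 := Finset.card_image_le (s := A) (f := fun a => a - h)
    have h5 := Finset.card_image_le (s := A) (f := fun a => h - a)
    omega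
  have h6 : ((Finset.Icc (-m) m).card : ℤ) = 2 * m + 1 := by
    rw [Int.card_Icc]; omega
  omega

lemma card_pm_ge (A : Finset ℤ) (hA : ∀ a ∈ A, 0 ≤ a) :
    2 * (A.card : ℤ) - 1 ≤ ((pm A).card : ℤ) := by
  have h1 := Finset.card_union_add_card_inter A (A.image (fun a => -a))
  have h2 : (A.image (fun a => -a)).card = A.card :=
    Finset.card_image_of_injective _ neg_injective
  have h3 : (A ∩ A.image (fun a => -a)).card ≤ 1 := by
    have : A ∩ A.image (fun a => -a) ⊆ {0} := by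
      intro x hx
      rw [Finset.mem_inter, Finset.mem_image] at hx
      obtain ⟨h4, b, hb, h5⟩ := hx
      have h6 := hA x h4
      have h7 := hA b hb
      rw [Finset.mem_singleton]; omega
    exact (Finset.card_le_card this).trans (by simp)
  have h4 : (pm A).card = (A ∪ A.image (fun a => -a)).card := rfl
  omega

lemma injx {m h : ℤ} {A : Finset ℤ} {Q : Finset (ℤ × ℤ)} (C : Core m h A Q) :
    Set.InjOn Prod.fst (Q : Set (ℤ × ℤ)) := by
  rw [← Finset.card_image_iff, C.qx]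
  have h1 := card_occ_ge m h A (by have := C.hm; omega)
  have h2 := C.Ac
  have h3 := C.Qc
  have h4 := Finset.card_image_le (s := Q) (f := Prod.fst)
  rw [C.qx] at h4
  omega

lemma injy {m h : ℤ} {A : Finset ℤ} {Q : Finset (ℤ × ℤ)} (C : Core m h A Q) :
    Set.InjOn Prod.snd (Q : Set (ℤ × ℤ)) := by
  rw [← Finset.card_image_iff, C.qy]
  have h1 := card_occ_ge m h A (by have := C.hm; omega)
  have h2 := C.Ac
  have h3 := C.Qc
  have h4 := Finset.card_image_le (s := Q) (f := Prod.snd)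
  rw [C.qy] at h4
  omega

lemma injt {m h : ℤ} {A : Finset ℤ} {Q : Finset (ℤ × ℤ)} (C : Core m h A Q) :
    Set.InjOn (fun q : ℤ × ℤ => q.2 - q.1) (Q : Set (ℤ × ℤ)) := by
  rw [← Finset.card_image_iff, C.qt]
  have h1 := card_pm_ge A (fun a ha => (C.sh.rng a ha).1)
  have h2 := C.Ac
  have h3 := C.Qc
  have h4 := Finset.card_image_le (s := Q) (f := fun q => q.2 - q.1)
  rw [C.qt] at h4
  omega

lemma injs {m h : ℤ} {A : Finset ℤ} {Q : Finset (ℤ × ℤ)} (C : Core m h A Q) :
    Set.InjOn (fun q : ℤ × ℤ => q.1 + q.2) (Q : Set (ℤ × ℤ)) := by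
  rw [← Finset.card_image_iff, C.qs]
  have h1 := card_pm_ge A (fun a ha => (C.sh.rng a ha).1)
  have h2 := C.Ac
  have h3 := C.Qc
  have h4 := Finset.card_image_le (s := Q) (f := fun q => q.1 + q.2)
  rw [C.qs] at h4
  omega

lemma mem_pm {A : Finset ℤ} {t : ℤ} : t ∈ pm A ↔ t ∈ A ∨ -t ∈ A := by
  unfold pm
  rw [Finset.mem_union, Finset.mem_image]
  constructor
  · rintro (h | ⟨b, hb, h⟩)
    · exact Or.inl h
    · right; rw [← h, neg_neg]; exact hb
  · rintro (h | h)
    · exact Or.inl h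
    · exact Or.inr ⟨-t, h, neg_neg t⟩

lemma mem_occ {m h x : ℤ} {A : Finset ℤ} :
    x ∈ occ m h A ↔ (-m ≤ x ∧ x ≤ m) ∧ h + x ∉ A ∧ h - x ∉ A := by
  unfold occ
  rw [Finset.mem_filter, Finset.mem_Icc]

theorem t4x1 : Pool.Agent.W68.Qn.T4x1 := by
  intro m h A Q C hF
  obtain ⟨l, hl, hA | hA⟩ := hF
  · -- A = Icc 0 l
    have hcard : (A.card : ℤ) = l + 1 := by
      rw [hA, Int.card_Icc]; omega
    have hml : m = 2 * l + 1 := by have := C.Ac; omega
    have hm3 := C.hm3
    have hh := C.hh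
    have hmem : ∀ t, t ∈ A ↔ 0 ≤ t ∧ t ≤ l := fun t => by rw [hA, Finset.mem_Icc]
    have hpm : pm A = Finset.Icc (-l) l := by
      ext t
      rw [mem_pm, hmem, hmem, Finset.mem_Icc]
      omega
    have hq : ∀ q ∈ Q, -l ≤ q.1 ∧ q.1 ≤ l := by
      intro q hq
      have h1 : q.2 - q.1 ∈ pm A := by
        rw [← C.qt]; exact Finset.mem_image_of_mem _ hq
      have h2 : q.1 + q.2 ∈ pm A := by
        rw [← C.qs]; exact Finset.mem_image_of_mem (fun q : ℤ × ℤ => q.1 + q.2) hq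
      rw [hpm, Finset.mem_Icc] at h1 h2
      omega
    rcases lt_or_eq_of_le hh with hlt | heq
    · have h1 : m ∈ occ m h A := by
        rw [mem_occ, hmem, hmem]; omega
      rw [← C.qx, Finset.mem_image] at h1
      obtain ⟨q, hq1, hq2⟩ := h1
      have := hq q hq1
      omega
    · have hocc : occ m h A = Finset.Icc (-l) l := by
        ext x
        rw [mem_occ, hmem, hmem, Finset.mem_Icc]
        omega
      have hx : ∑ q ∈ Q, q.1 ^ 2 = ∑ x ∈ Finset.Icc (-l) l, x ^ 2 := by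
        rw [← hocc, ← C.qx, Finset.sum_image (injx C)]
      have hy : ∑ q ∈ Q, q.2 ^ 2 = ∑ x ∈ Finset.Icc (-l) l, x ^ 2 := by
        rw [← hocc, ← C.qy, Finset.sum_image (injy C)]
      have ht : ∑ q ∈ Q, (q.2 - q.1) ^ 2 = ∑ x ∈ Finset.Icc (-l) l, x ^ 2 := by
        rw [← hpm, ← C.qt, Finset.sum_image (injt C)]
      have hs : ∑ q ∈ Q, (q.1 + q.2) ^ 2 = ∑ x ∈ Finset.Icc (-l) l, x ^ 2 := by
        rw [← hpm, ← C.qs, Finset.sum_image (injs C)]
      have hlaw : ∑ q ∈ Q, (q.2 - q.1) ^ 2 + ∑ q ∈ Q, (q.1 + q.2) ^ 2 =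
          2 * (∑ q ∈ Q, q.1 ^ 2 + ∑ q ∈ Q, q.2 ^ 2) := by
        rw [← Finset.sum_add_distrib, ← Finset.sum_add_distrib, Finset.mul_sum]
        exact Finset.sum_congr rfl fun q _ => by ring
      rw [hx, hy, ht, hs] at hlaw
      have hpos : (1 : ℤ) ^ 2 ≤ ∑ x ∈ Finset.Icc (-l) l, x ^ 2 :=
        Finset.single_le_sum (f := fun x : ℤ => x ^ 2) (fun x _ => sq_nonneg x)
          (by rw [Finset.mem_Icc]; omega)
      omega
  · -- A = insert (2h - l) (Icc 0 (l-1))
    have hmem : ∀ t, t ∈ A ↔ t = 2 * h - l ∨ (0 ≤ t ∧ t ≤ l - 1) := fun t => by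
      rw [hA, Finset.mem_insert, Finset.mem_Icc]
    have hm1 := C.hm
    have hm3 := C.hm3
    have hh := C.hh
    have hhl : l ≤ h := by
      by_contra hlt
      push Not at hlt
      have h1 : h ∈ A := by rw [hmem]; omega
      have h2 := C.sh.dis h h1
      apply h2
      have : 2 * h - h = h := by ring
      rw [this]; exact h1
    have hcard : (A.card : ℤ) = l + 1 := by
      rw [hA, Finset.card_insert_of_notMem (by rw [Finset.mem_Icc]; omega), Int.card_Icc]; omega
    have hml : m = 2 * l + 1 := by have := C.Ac; omega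
    have h1 : 2 * h - l ∈ pm A := by rw [mem_pm, hmem]; left; left; rfl
    rw [← C.qt, Finset.mem_image] at h1
    obtain ⟨q, hq, hqt⟩ := h1
    have hqx : q.1 ∈ occ m h A := by rw [← C.qx]; exact Finset.mem_image_of_mem _ hq
    have hqy : q.2 ∈ occ m h A := by rw [← C.qy]; exact Finset.mem_image_of_mem _ hq
    have hqs : q.1 + q.2 ∈ pm A := by
      rw [← C.qs]; exact Finset.mem_image_of_mem (fun q : ℤ × ℤ => q.1 + q.2) hq
    rw [mem_occ, hmem, hmem] at hqx hqy
    rw [mem_pm, hmem, hmem] at hqs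
    omega

end Pool.Agent.W68h.T4x441
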