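import Pool.Agent.W68h.Qn_T4x1_helper441

set_option autoImplicit false

namespace Pool.Agent.W68h.T4x441

open Pool.Agent.W68.Qn

theorem t4x3 : Pool.Agent.W68.Qn.T4x3 := by
  intro m h A Q C hm17 z hz
  -- bad queens
  have hS : ((Q.filter (fun q : ℤ × ℤ => ¬ (3 ∣ q.1 + q.2))).card) ≤ 2 := by
    have h1 : (Q.filter (fun q : ℤ × ℤ => ¬ (3 ∣ q.1 + q.2))).card =
        ((Q.filter (fun q : ℤ × ℤ => ¬ (3 ∣ q.1 + q.2))).image (fun q => q.1 + q.2)).card := by
      rw [Finset.card_image_iff.mpr]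
      exact (injs C).mono (by intro q hq; exact (Finset.mem_filter.mp (Finset.mem_coe.mp hq)).1)
    rw [h1]
    have h2 : (Q.filter (fun q : ℤ × ℤ => ¬ (3 ∣ q.1 + q.2))).image (fun q => q.1 + q.2) ⊆
        {z, -z} := by
      intro t ht
      rw [Finset.mem_image] at ht
      obtain ⟨q, hq, hqt⟩ := ht
      rw [Finset.mem_filter] at hq
      have h3 : q.1 + q.2 ∈ pm A := by
        rw [← C.qs]; exact Finset.mem_image_of_mem (fun q : ℤ × ℤ => q.1 + q.2) hq.1
      rw [mem_pm] at h3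
      rw [Finset.mem_insert, Finset.mem_singleton, ← hqt]
      rcases h3 with h3 | h3
      · by_contra hne
        exact hq.2 (hz _ h3 (by omega))
      · by_contra hne
        have := hz _ h3 (by omega)
        omega
    exact (Finset.card_le_card h2).trans Finset.card_le_two
  have hT : ((Q.filter (fun q : ℤ × ℤ => ¬ (3 ∣ q.2 - q.1))).card) ≤ 2 := by
    have h1 : (Q.filter (fun q : ℤ × ℤ => ¬ (3 ∣ q.2 - q.1))).card =
        ((Q.filter (fun q : ℤ × ℤ => ¬ (3 ∣ q.2 - q.1))).image (fun q => q.2 - q.1)).card := by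
      rw [Finset.card_image_iff.mpr]
      exact (injt C).mono (by intro q hq; exact (Finset.mem_filter.mp (Finset.mem_coe.mp hq)).1)
    rw [h1]
    have h2 : (Q.filter (fun q : ℤ × ℤ => ¬ (3 ∣ q.2 - q.1))).image (fun q => q.2 - q.1) ⊆
        {z, -z} := by
      intro t ht
      rw [Finset.mem_image] at ht
      obtain ⟨q, hq, hqt⟩ := ht
      rw [Finset.mem_filter] at hq
      have h3 : q.2 - q.1 ∈ pm A := by
        rw [← C.qt]; exact Finset.mem_image_of_mem (fun q : ℤ × ℤ => q.2 - q.1) hq.1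
      rw [mem_pm] at h3
      rw [Finset.mem_insert, Finset.mem_singleton, ← hqt]
      rcases h3 with h3 | h3
      · by_contra hne
        exact hq.2 (hz _ h3 (by omega))
      · by_contra hne
        have := hz _ h3 (by omega)
        omega
    exact (Finset.card_le_card h2).trans Finset.card_le_two
  -- good queens
  have hG : (Q.filter (fun q : ℤ × ℤ => 3 ∣ q.1)).card ≤
      (Finset.Icc (-(m / 3)) (m / 3)).card := by
    have h1 : (Q.filter (fun q : ℤ × ℤ => 3 ∣ q.1)).card =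
        ((Q.filter (fun q : ℤ × ℤ => 3 ∣ q.1)).image (fun q => q.1 / 3)).card := by
      rw [Finset.card_image_iff.mpr]
      intro p hp q hq hpq
      have hp' := Finset.mem_filter.mp (Finset.mem_coe.mp hp)
      have hq' := Finset.mem_filter.mp (Finset.mem_coe.mp hq)
      refine injx C hp'.1 hq'.1 ?_
      have h2 := hp'.2
      have h3 := hq'.2
      simp only at hpq
      change p.1 = q.1
      omega
    rw [h1]
    refine Finset.card_le_card ?_
    intro t ht
    rw [Finset.mem_image] at ht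
    obtain ⟨q, hq, hqt⟩ := ht
    rw [Finset.mem_filter] at hq
    have h3 : q.1 ∈ occ m h A := by
      rw [← C.qx]; exact Finset.mem_image_of_mem _ hq.1
    rw [mem_occ] at h3
    rw [Finset.mem_Icc]
    omega
  have hcov : Q ⊆ (Q.filter (fun q : ℤ × ℤ => ¬ (3 ∣ q.1 + q.2))) ∪
      (Q.filter (fun q : ℤ × ℤ => ¬ (3 ∣ q.2 - q.1))) ∪ (Q.filter (fun q : ℤ × ℤ => 3 ∣ q.1)) := by
    intro q hq
    rw [Finset.mem_union, Finset.mem_union, Finset.mem_filter, Finset.mem_filter,
      Finset.mem_filter]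
    by_cases h1 : 3 ∣ q.1 + q.2
    · by_cases h2 : 3 ∣ q.2 - q.1
      · right; exact ⟨hq, by omega⟩
      · left; right; exact ⟨hq, h2⟩
    · left; left; exact ⟨hq, h1⟩
  have h1 := Finset.card_le_card hcov
  have h2 := Finset.card_union_le ((Q.filter (fun q : ℤ × ℤ => ¬ (3 ∣ q.1 + q.2))) ∪
      (Q.filter (fun q : ℤ × ℤ => ¬ (3 ∣ q.2 - q.1)))) (Q.filter (fun q : ℤ × ℤ => 3 ∣ q.1))
  have h3 := Finset.card_union_le (Q.filter (fun q : ℤ × ℤ => ¬ (3 ∣ q.1 + q.2)))
      (Q.filter (fun q : ℤ × ℤ => ¬ (3 ∣ q.2 - q.1)))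
  have h4 : ((Finset.Icc (-(m / 3)) (m / 3)).card : ℤ) = 2 * (m / 3) + 1 := by
    rw [Int.card_Icc]; omega
  have h5 := C.Qc
  omega

end Pool.Agent.W68h.T4x441
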