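import Pool.Agent.W68.Qn.Defs

set_option autoImplicit false

namespace Pool.Agent.W68h.QnT4x809

open Pool.Agent.W68.Qn

theorem mem_pm (A : Finset ℤ) (t : ℤ) : t ∈ pm A ↔ (t ∈ A ∨ -t ∈ A) := by
  unfold pm
  rw [Finset.mem_union, Finset.mem_image]
  constructor
  · rintro (h | ⟨a, ha, rfl⟩)
    · exact Or.inl h
    · right; simpa using ha
  · rintro (h | h)
    · exact Or.inl h
    · right; exact ⟨-t, h, by ring⟩

theorem mem_occ (m h : ℤ) (A : Finset ℤ) (x : ℤ) :
    x ∈ occ m h A ↔ ((-m ≤ x ∧ x ≤ m) ∧ h + x ∉ A ∧ h - x ∉ A) := by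
  unfold occ
  rw [Finset.mem_filter, Finset.mem_Icc]

theorem pm_card (h : ℤ) (A : Finset ℤ) (hA : Shape h A) :
    ((pm A).card : ℤ) = 2 * (A.card : ℤ) - 1 := by
  unfold pm
  have hinj : (A.image (fun a : ℤ => -a)).card = A.card :=
    Finset.card_image_of_injective _ neg_injective
  have hint : A ∩ A.image (fun a : ℤ => -a) = {0} := by
    ext x
    rw [Finset.mem_inter, Finset.mem_image, Finset.mem_singleton]
    constructor
    · rintro ⟨hx, a, ha, rfl⟩
      have h1 := (hA.rng _ hx).1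
      have h2 := (hA.rng _ ha).1
      omega
    · rintro rfl
      exact ⟨hA.A0, 0, hA.A0, by ring⟩
  have hu := Finset.card_union_add_card_inter A (A.image (fun a : ℤ => -a))
  rw [hint, Finset.card_singleton, hinj] at hu
  omega

theorem occ_card (m h : ℤ) (A : Finset ℤ) (hm : 1 ≤ m) (hh : h ≤ m) (hA : Shape h A) :
    ((occ m h A).card : ℤ) = 2 * m + 1 - 2 * (A.card : ℤ) := by
  have hE : occ m h A = (Finset.Icc (-m) m) \
      (A.image (fun a : ℤ => a - h) ∪ A.image (fun a : ℤ => h - a)) := by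
    ext x
    rw [mem_occ, Finset.mem_sdiff, Finset.mem_Icc, Finset.mem_union, Finset.mem_image,
      Finset.mem_image]
    constructor
    · rintro ⟨h1, h2, h3⟩
      refine ⟨h1, ?_⟩
      rintro (⟨a, ha, hax⟩ | ⟨a, ha, hax⟩)
      · apply h2
        have : h + x = a := by omega
        rw [this]; exact ha
      · apply h3
        have : h - x = a := by omega
        rw [this]; exact ha
    · rintro ⟨h1, h2⟩
      refine ⟨h1, ?_, ?_⟩
      · intro h3
        exact h2 (Or.inl ⟨h + x, h3, by ring⟩)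
      · intro h3
        exact h2 (Or.inr ⟨h - x, h3, by ring⟩)
  have hsub : (A.image (fun a : ℤ => a - h) ∪ A.image (fun a : ℤ => h - a)) ⊆
      Finset.Icc (-m) m := by
    intro x hx
    rw [Finset.mem_union, Finset.mem_image, Finset.mem_image] at hx
    rw [Finset.mem_Icc]
    rcases hx with (⟨a, ha, hax⟩ | ⟨a, ha, hax⟩)
    · have := hA.rng a ha
      omega
    · have := hA.rng a ha
      omega
  have hdis : Disjoint (A.image (fun a : ℤ => a - h)) (A.image (fun a : ℤ => h - a)) := by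
    rw [Finset.disjoint_left]
    intro x hx hy
    rw [Finset.mem_image] at hx hy
    obtain ⟨a, ha, hax⟩ := hx
    obtain ⟨b, hb, hbx⟩ := hy
    apply hA.dis a ha
    have : 2 * h - a = b := by omega
    rw [this]; exact hb
  have h1 : (A.image (fun a : ℤ => a - h)).card = A.card :=
    Finset.card_image_of_injective _ (fun a b hab => by
      have : a - h = b - h := hab
      omega)
  have h2 : (A.image (fun a : ℤ => h - a)).card = A.card :=
    Finset.card_image_of_injective _ (fun a b hab => by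
      have : h - a = h - b := hab
      omega)
  have h3 := Finset.card_sdiff_add_card_eq_card hsub
  rw [Finset.card_union_of_disjoint hdis, h1, h2, Int.card_Icc, ← hE] at h3
  have h4 : ((m + 1 - -m).toNat : ℤ) = 2 * m + 1 := by omega
  omega

section core

variable {m h : ℤ} {A : Finset ℤ} {Q : Finset (ℤ × ℤ)}

theorem inj_fst (hC : Core m h A Q) : Set.InjOn (fun q : ℤ × ℤ => q.1) (Q : Set (ℤ × ℤ)) := by
  apply Finset.card_image_iff.mp
  have h1 := hC.qx
  have h2 := occ_card m h A hC.hm hC.hh hC.sh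
  have h3 : (Q.image (fun q : ℤ × ℤ => q.1)) = occ m h A := hC.qx
  rw [h3]
  have h4 := hC.Ac
  have h5 := hC.Qc
  omega

theorem inj_snd (hC : Core m h A Q) : Set.InjOn (fun q : ℤ × ℤ => q.2) (Q : Set (ℤ × ℤ)) := by
  apply Finset.card_image_iff.mp
  have h2 := occ_card m h A hC.hm hC.hh hC.sh
  have h3 : (Q.image (fun q : ℤ × ℤ => q.2)) = occ m h A := hC.qy
  rw [h3]
  have h4 := hC.Ac
  have h5 := hC.Qc
  omega

theorem inj_sub (hC : Core m h A Q) :
    Set.InjOn (fun q : ℤ × ℤ => q.2 - q.1) (Q : Set (ℤ × ℤ)) := by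
  apply Finset.card_image_iff.mp
  have h2 := pm_card h A hC.sh
  rw [hC.qt]
  have h4 := hC.Ac
  have h5 := hC.Qc
  omega

theorem inj_add (hC : Core m h A Q) :
    Set.InjOn (fun q : ℤ × ℤ => q.1 + q.2) (Q : Set (ℤ × ℤ)) := by
  apply Finset.card_image_iff.mp
  have h2 := pm_card h A hC.sh
  rw [hC.qs]
  have h4 := hC.Ac
  have h5 := hC.Qc
  omega

theorem q_occ1 (hC : Core m h A Q) {q : ℤ × ℤ} (hq : q ∈ Q) : q.1 ∈ occ m h A := by
  rw [← hC.qx]; exact Finset.mem_image_of_mem _ hq

theorem q_occ2 (hC : Core m h A Q) {q : ℤ × ℤ} (hq : q ∈ Q) : q.2 ∈ occ m h A := by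
  rw [← hC.qy]; exact Finset.mem_image_of_mem _ hq

theorem q_sub (hC : Core m h A Q) {q : ℤ × ℤ} (hq : q ∈ Q) : q.2 - q.1 ∈ pm A := by
  rw [← hC.qt]; exact Finset.mem_image_of_mem (fun q : ℤ × ℤ => q.2 - q.1) hq

theorem q_add (hC : Core m h A Q) {q : ℤ × ℤ} (hq : q ∈ Q) : q.1 + q.2 ∈ pm A := by
  rw [← hC.qs]; exact Finset.mem_image_of_mem (fun q : ℤ × ℤ => q.1 + q.2) hq

end core

theorem t4x1 : T4x1 := by
  rintro m h A Q hC ⟨l, hl, hA⟩
  have hm := hC.hm
  have hh := hC.hh
  have hm3 := hC.hm3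
  have hAc := hC.Ac
  rcases hA with hA | hA
  · have hcard : (A.card : ℤ) = l + 1 := by
      rw [hA, Int.card_Icc]; omega
    have hml : m = 2 * l + 1 := by omega
    have hpm : ∀ t : ℤ, t ∈ pm A → -l ≤ t ∧ t ≤ l := by
      intro t ht
      rw [mem_pm, hA, Finset.mem_Icc, Finset.mem_Icc] at ht
      omega
    rcases lt_or_eq_of_le hh with hlt | heq
    · have hmo : m ∈ occ m h A := by
        rw [mem_occ]
        refine ⟨by omega, ?_, ?_⟩
        · intro hx
          have := hC.sh.rng _ hx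
          omega
        · intro hx
          have := hC.sh.rng _ hx
          omega
      rw [← hC.qx, Finset.mem_image] at hmo
      obtain ⟨q, hq, hqm⟩ := hmo
      have h1 := hpm _ (q_sub hC hq)
      have h2 := hpm _ (q_add hC hq)
      omega
    · have hlo : l ∈ occ m h A := by
        rw [mem_occ]
        refine ⟨by omega, ?_, ?_⟩
        · rw [hA, Finset.mem_Icc]; omega
        · rw [hA, Finset.mem_Icc]; omega
      have hlo' : -l ∈ occ m h A := by
        rw [mem_occ]
        refine ⟨by omega, ?_, ?_⟩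
        · rw [hA, Finset.mem_Icc]; omega
        · rw [hA, Finset.mem_Icc]; omega
      rw [← hC.qx, Finset.mem_image] at hlo hlo'
      obtain ⟨q, hq, hqm⟩ := hlo
      obtain ⟨q', hq', hqm'⟩ := hlo'
      have h1 := hpm _ (q_sub hC hq)
      have h2 := hpm _ (q_add hC hq)
      have h3 := hpm _ (q_sub hC hq')
      have h4 := hpm _ (q_add hC hq')
      have h5 : q.2 = q'.2 := by omega
      have h6 : q = q' := inj_snd hC hq hq' h5
      rw [h6] at hqm
      omega
  · have hne : 2 * h - l ∉ Finset.Icc (0 : ℤ) (l - 1) := by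
      intro hx
      rw [Finset.insert_eq_of_mem hx] at hA
      have hcard : (A.card : ℤ) = l := by
        rw [hA, Int.card_Icc]; omega
      rw [Finset.mem_Icc] at hx
      omega
    have hcard : (A.card : ℤ) = l + 1 := by
      rw [hA, Finset.card_insert_of_notMem hne, Int.card_Icc]; push_cast; omega
    have hml : m = 2 * l + 1 := by omega
    have hmem : ∀ a : ℤ, a ∈ A ↔ (a = 2 * h - l ∨ (0 ≤ a ∧ a ≤ l - 1)) := by
      intro a
      rw [hA, Finset.mem_insert, Finset.mem_Icc]
    have ho : ∀ x : ℤ, x ∈ occ m h A → ((-m ≤ x ∧ x ≤ m) ∧ ((x < h - l ∧ -x < h - l) ∨ x > h ∨ -x > h)) := by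
      intro x hx
      rw [mem_occ, hmem, hmem] at hx
      refine ⟨hx.1, ?_⟩
      obtain ⟨h1, h2, h3⟩ := hx
      by_contra hcon
      push Not at hcon
      omega
    have hp : ∀ t : ℤ, t ∈ pm A → (t = 2 * h - l ∨ -t = 2 * h - l ∨ (-(l - 1) ≤ t ∧ t ≤ l - 1)) := by
      intro t ht
      rw [mem_pm, hmem, hmem] at ht
      omega
    have h0 : 2 * h - l ∈ pm A := by
      rw [mem_pm, hmem]; left; left; rfl
    rw [← hC.qt, Finset.mem_image] at h0
    obtain ⟨q, hq, hqm⟩ := h0
    have h1 := hp _ (q_add hC hq)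
    have h2 := ho _ (q_occ1 hC hq)
    have h3 := ho _ (q_occ2 hC hq)
    omega

theorem card_filter_le_two (Q : Finset (ℤ × ℤ)) (f : ℤ × ℤ → ℤ)
    (hf : Set.InjOn f (Q : Set (ℤ × ℤ))) (z : ℤ) :
    (Q.filter (fun q => f q = z ∨ f q = -z)).card ≤ 2 := by
  have h1 : ((Q.filter (fun q => f q = z ∨ f q = -z)).image f).card =
      (Q.filter (fun q => f q = z ∨ f q = -z)).card := by
    apply Finset.card_image_of_injOn
    intro a ha b hb hab
    rw [Finset.mem_coe, Finset.mem_filter] at ha hb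
    exact hf ha.1 hb.1 hab
  rw [← h1]
  have h2 : (Q.filter (fun q => f q = z ∨ f q = -z)).image f ⊆ {z, -z} := by
    intro x hx
    rw [Finset.mem_image] at hx
    obtain ⟨a, ha, rfl⟩ := hx
    rw [Finset.mem_filter] at ha
    rw [Finset.mem_insert, Finset.mem_singleton]
    exact ha.2
  exact (Finset.card_le_card h2).trans (Finset.card_le_two)

theorem t4x3 : T4x3 := by
  intro m h A Q hC hm17 z hz
  have h1 := card_filter_le_two Q (fun q => q.2 - q.1) (inj_sub hC) z
  have h2 := card_filter_le_two Q (fun q => q.1 + q.2) (inj_add hC) z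
  set Q1 := Q.filter (fun q => q.2 - q.1 = z ∨ q.2 - q.1 = -z) with hQ1
  set Q2 := Q.filter (fun q => q.1 + q.2 = z ∨ q.1 + q.2 = -z) with hQ2
  have h3 : Q.card ≤ (Q \ (Q1 ∪ Q2)).card + (Q1 ∪ Q2).card := by
    have := Finset.le_card_sdiff (Q1 ∪ Q2) Q
    omega
  have h4 : (Q1 ∪ Q2).card ≤ Q1.card + Q2.card := Finset.card_union_le _ _
  have h5 : ((Q \ (Q1 ∪ Q2)).image (fun q : ℤ × ℤ => q.1)).card = (Q \ (Q1 ∪ Q2)).card := by
    apply Finset.card_image_of_injOn
    intro a ha b hb hab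
    rw [Finset.mem_coe, Finset.mem_sdiff] at ha hb
    exact inj_fst hC ha.1 hb.1 hab
  have h6 : (Q \ (Q1 ∪ Q2)).image (fun q : ℤ × ℤ => q.1) ⊆
      (Finset.Icc (-(m / 3)) (m / 3)).image (fun k : ℤ => 3 * k) := by
    intro x hx
    rw [Finset.mem_image] at hx
    obtain ⟨q, hq, rfl⟩ := hx
    rw [Finset.mem_sdiff, Finset.mem_union, hQ1, hQ2, Finset.mem_filter, Finset.mem_filter] at hq
    obtain ⟨hq, hn⟩ := hq
    push Not at hn
    have ha := hn.1 hq
    have hb := hn.2 hq
    have hc := q_sub hC hq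
    have hd := q_add hC hq
    rw [mem_pm] at hc hd
    have hc' : 3 ∣ (q.2 - q.1) := by
      rcases hc with hc | hc
      · exact hz _ hc ha.1
      · have := hz _ hc (by intro h; apply ha.2; omega)
        omega
    have hd' : 3 ∣ (q.1 + q.2) := by
      rcases hd with hd | hd
      · exact hz _ hd hb.1
      · have := hz _ hd (by intro h; apply hb.2; omega)
        omega
    have he := q_occ1 hC hq
    rw [mem_occ] at he
    rw [Finset.mem_image]
    refine ⟨q.1 / 3, ?_, ?_⟩
    · rw [Finset.mem_Icc]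
      omega
    · show 3 * (q.1 / 3) = q.1
      omega
  have h7 := Finset.card_le_card h6
  have h8 : ((Finset.Icc (-(m / 3)) (m / 3)).image (fun k : ℤ => 3 * k)).card ≤
      (Finset.Icc (-(m / 3)) (m / 3)).card := Finset.card_image_le
  rw [Int.card_Icc] at h8
  have h9 := hC.Qc
  omega

end Pool.Agent.W68h.QnT4x809
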